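import Mathlib

/-!
# Module Caristi (Caristi / Ekeland argument, Mathlib only; size S-M)

Suppose `p₀ ∈ Q`.  `S p = {p' ∈ Q | d p p' ≤ ofReal (φ p - φ p') and φ p' ≤ φ p}`; `p ∈ S p`; transitive:
`p'' ∈ S p'`, `p' ∈ S p` imply `p'' ∈ S p`.  Choose `s 0 = p₀`, `s (n+1) ∈ S (s n)` with
`φ (s (n+1)) ≤ φ p' + 1/(n+1)` for all `p' ∈ S (s n)` (infimum of `φ ≥ 0` on `S (s n)`).  `φ (s n)` is antitone and bounded
below, so it converges and `d (s a) (s b) ≤ ofReal |φ (s a) - φ (s b)|` (with `hsymm`) is small: Cauchy.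
Let `s n → q` (`hcomp`); `q ∈ Q`, `φ (s n) → φ q` (`hcl`).  `d (s n) q ≤ ofReal (φ (s n) - φ q)`:
`d (s n) q ≤ d (s n) (s k) + d (s k) q`, `k → ∞`, `hsmall`.  So `q ∈ S (s n)` for all `n`.  By `hstep` get `p' ∈ Q`,
`φ p' < φ q`, `p' ∈ S q ⊆ S (s n)`, so `φ (s (n+1)) ≤ φ p' + 1/(n+1)`; limit: `φ q ≤ φ p'`, contradiction.
-/

set_option autoImplicit false

open scoped RealInnerProductSpace Topology ContDiff
open Filter Set

noncomputable section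

namespace BH

private def CS {M : Type} (d : M → M → ENNReal) (Q : Set M) (φ : M → ℝ) (p : M) : Set M :=
  {p' | p' ∈ Q ∧ d p p' ≤ ENNReal.ofReal (φ p - φ p') ∧ φ p' ≤ φ p}

private theorem cs_trans {M : Type} {d : M → M → ENNReal} (htri : ∀ p q r, d p r ≤ d p q + d q r)
    {Q : Set M} {φ : M → ℝ} {p q r : M} (h1 : q ∈ CS d Q φ p) (h2 : r ∈ CS d Q φ q) :
    r ∈ CS d Q φ p := by
  refine ⟨h2.1, ?_, h2.2.2.trans h1.2.2⟩
  calc d p r ≤ d p q + d q r := htri _ _ _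
    _ ≤ ENNReal.ofReal (φ p - φ q) + ENNReal.ofReal (φ q - φ r) := add_le_add h1.2.1 h2.2.1
    _ = ENNReal.ofReal ((φ p - φ q) + (φ q - φ r)) :=
        (ENNReal.ofReal_add (by linarith [h1.2.2]) (by linarith [h2.2.2])).symm
    _ = ENNReal.ofReal (φ p - φ r) := by congr 1; ring

theorem caristi {M : Type} [TopologicalSpace M] (d : M → M → ENNReal) (h0 : ∀ p, d p p = 0)
    (hsymm : ∀ p q, d p q = d q p) (htri : ∀ p q r, d p r ≤ d p q + d q r)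
    (hsmall : ∀ q, Tendsto (fun p => d p q) (𝓝 q) (𝓝 0))
    (hcomp : ∀ s : ℕ → M,
      (∀ ε : ENNReal, 0 < ε → ∃ N : ℕ, ∀ a b : ℕ, N ≤ a → N ≤ b → d (s a) (s b) < ε) →
      ∃ q : M, Tendsto s atTop (𝓝 q))
    (Q : Set M) (φ : M → ℝ) (hφ : ∀ p ∈ Q, 0 ≤ φ p)
    (hcl : ∀ (s : ℕ → M) (q : M), (∀ n, s n ∈ Q) → Tendsto s atTop (𝓝 q) →
      q ∈ Q ∧ Tendsto (fun n => φ (s n)) atTop (𝓝 (φ q)))
    (hstep : ∀ p ∈ Q, ∃ p' ∈ Q, φ p' < φ p ∧ d p p' ≤ ENNReal.ofReal (φ p - φ p')) : Q = ∅ := by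
  by_contra hne
  obtain ⟨p₀, hp₀⟩ := nonempty_iff_ne_empty.mpr hne
  -- the choice of the next point
  have hchoice : ∀ (n : ℕ) (p : Q), ∃ p' : Q, (p' : M) ∈ CS d Q φ p ∧
      ∀ r ∈ CS d Q φ p, φ p' ≤ φ r + 1 / ((n : ℝ) + 1) := by
    intro n p
    have hself : (p : M) ∈ CS d Q φ p := ⟨p.2, by simp [h0], le_rfl⟩
    have hbdd : BddBelow (φ '' CS d Q φ p) := ⟨0, by
      rintro _ ⟨r, hr, rfl⟩
      exact hφ r hr.1⟩
    have hpos : (0 : ℝ) < 1 / ((n : ℝ) + 1) := by positivity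
    obtain ⟨_, ⟨r, hr, rfl⟩, hlt⟩ := Real.lt_sInf_add_pos (s := φ '' CS d Q φ p)
      ⟨_, mem_image_of_mem φ hself⟩ hpos
    refine ⟨⟨r, hr.1⟩, hr, fun r' hr' => ?_⟩
    have := csInf_le hbdd (mem_image_of_mem φ hr')
    show φ r ≤ φ r' + 1 / ((n : ℝ) + 1)
    linarith
  choose nxt hn1 hn2 using hchoice
  obtain ⟨s, hs⟩ : ∃ s : ℕ → Q, ∀ n : ℕ, s (n + 1) = nxt n (s n) :=
    ⟨fun n => Nat.rec (motive := fun _ => Q) ⟨p₀, hp₀⟩ (fun n p => nxt n p) n, fun _ => rfl⟩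
  have hs1 : ∀ n : ℕ, ((s (n + 1) : Q) : M) ∈ CS d Q φ ((s n : Q) : M) := by
    intro n
    rw [hs]
    exact hn1 n (s n)
  have hs2 : ∀ n, ∀ r ∈ CS d Q φ ((s n : Q) : M), φ (s (n + 1) : M) ≤ φ r + 1 / ((n : ℝ) + 1) :=
    fun n => by
      rw [hs]
      exact hn2 n (s n)
  have hss : ∀ a k, ((s (a + k) : Q) : M) ∈ CS d Q φ ((s a : Q) : M) := by
    intro a k
    induction k with
    | zero => exact ⟨(s a).2, by simp [h0], le_rfl⟩
    | succ k ih => exact cs_trans htri ih (hs1 (a + k))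
  have hss' : ∀ a b, a ≤ b → ((s b : Q) : M) ∈ CS d Q φ ((s a : Q) : M) := by
    intro a b hab
    obtain ⟨k, rfl⟩ := Nat.exists_eq_add_of_le hab
    exact hss a k
  have hanti : Antitone (fun n => φ ((s n : Q) : M)) := fun a b hab => (hss' a b hab).2.2
  have hbdd : BddBelow (range (fun n => φ ((s n : Q) : M))) := ⟨0, by
    rintro _ ⟨n, rfl⟩
    exact hφ _ (s n).2⟩
  have hconv := tendsto_atTop_ciInf hanti hbdd
  have hcau : CauchySeq (fun n => φ ((s n : Q) : M)) := hconv.cauchySeq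
  have hC : ∀ ε : ENNReal, 0 < ε → ∃ N : ℕ, ∀ a b : ℕ, N ≤ a → N ≤ b →
      d (s a) (s b) < ε := by
    intro ε hε
    -- real number below ε
    obtain ⟨δ, hδ0, hδ⟩ : ∃ δ : ℝ, 0 < δ ∧ ENNReal.ofReal δ ≤ ε := by
      rcases eq_or_ne ε ⊤ with rfl | hne
      · exact ⟨1, one_pos, le_top⟩
      · exact ⟨ε.toReal, ENNReal.toReal_pos hε.ne' hne, by rw [ENNReal.ofReal_toReal hne]⟩
    obtain ⟨N, hN⟩ := Metric.cauchySeq_iff.mp hcau δ hδ0
    refine ⟨N, fun a b ha hb => ?_⟩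
    have key : ∀ a b, N ≤ a → a ≤ b → d (s a) (s b) < ε := by
      intro a b ha hab
      have h1 := (hss' a b hab).2.1
      have h2 := hN a ha b (ha.trans hab)
      rw [Real.dist_eq] at h2
      have h3 : φ ((s a : Q) : M) - φ ((s b : Q) : M) < δ := lt_of_le_of_lt (le_abs_self _) h2
      exact lt_of_le_of_lt h1 (lt_of_lt_of_le ((ENNReal.ofReal_lt_ofReal_iff hδ0).mpr h3) hδ)
    rcases le_total a b with hab | hab
    · exact key a b ha hab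
    · rw [hsymm]; exact key b a hb hab
  obtain ⟨q, hq⟩ := hcomp (fun n => ((s n : Q) : M)) hC
  obtain ⟨hqQ, hφq⟩ := hcl (fun n => ((s n : Q) : M)) q (fun n => (s n).2) hq
  have hφle : ∀ n, φ q ≤ φ ((s n : Q) : M) := fun n =>
    le_of_tendsto hφq (eventually_atTop.mpr ⟨n, fun k hk => hanti hk⟩)
  have hqS : ∀ n, q ∈ CS d Q φ ((s n : Q) : M) := by
    intro n
    refine ⟨hqQ, ?_, hφle n⟩
    have hd : Tendsto (fun k => d ((s k : Q) : M) q) atTop (𝓝 0) := (hsmall q).comp hq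
    have hofr : Tendsto (fun k => ENNReal.ofReal (φ ((s n : Q) : M) - φ ((s k : Q) : M)) + d ((s k : Q) : M) q) atTop
        (𝓝 (ENNReal.ofReal (φ ((s n : Q) : M) - φ q) + 0)) :=
      (ENNReal.tendsto_ofReal (tendsto_const_nhds.sub hφq)).add hd
    rw [add_zero] at hofr
    refine ge_of_tendsto hofr (eventually_atTop.mpr ⟨n, fun k hk => ?_⟩)
    exact (htri _ ((s k : Q) : M) _).trans (add_le_add (hss' n k hk).2.1 le_rfl)
  obtain ⟨p', hp'Q, hlt, hd⟩ := hstep q hqQ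
  have hp'S : ∀ n, p' ∈ CS d Q φ ((s n : Q) : M) := fun n =>
    cs_trans htri (hqS n) ⟨hp'Q, hd, hlt.le⟩
  have hlim : Tendsto (fun n : ℕ => φ p' + 1 / ((n : ℝ) + 1)) atTop (𝓝 (φ p' + 0)) :=
    tendsto_const_nhds.add tendsto_one_div_add_atTop_nhds_zero_nat
  rw [add_zero] at hlim
  have hlim2 : Tendsto (fun n : ℕ => φ (s (n + 1) : M)) atTop (𝓝 (φ q)) :=
    hφq.comp (tendsto_add_atTop_nat 1)
  have := le_of_tendsto_of_tendsto' hlim2 hlim (fun n => hs2 n p' (hp'S n))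
  linarith

end BH

end
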