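import Pool.Agent.Work.MP_ac5cbe_gt.DistM

/-!
# Module DistS (the length distance is small near a point; size M)

In the chart at `q`, `x ∘ (extChartAt q).symm` is `C¹` near `extChartAt q q`, so `K`-Lipschitz on a ball inside the chart
target (`ContDiffAt.exists_lipschitzOnWith`); join `p` to `q` by the image of the segment in the chart (a `Path`), its
variation is at most `K * ‖extChartAt q p - extChartAt q q‖` (`LipschitzOnWith.comp_eVariationOn_le`-type lemmas), which tends to
zero by continuity of `extChartAt q`.  (Cannot use `dM_path` directly unless `x ∘ γ` is 1-Lipschitz after rescaling: with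
`γ s = (extChartAt q).symm (y_p + (s / (K dist)) (y_q - y_p))` on `[0, K dist]` it is.)
-/

set_option autoImplicit false

open scoped RealInnerProductSpace Topology ContDiff
open Filter Set

noncomputable section

namespace BH

private theorem dS_path {m n : ℕ} {M : Type} [TopologicalSpace M] (x : M → EE n)
    (s : EE m → M) {a b : EE m} {K : NNReal} {B : Set (EE m)} (hB : Convex ℝ B) (ha : a ∈ B) (hb : b ∈ B)
    (hs : ContinuousOn s B) (hl : LipschitzOnWith K (fun y => x (s y)) B) :
    dM x (s a) (s b) ≤ ((K * nndist a b : NNReal) : ENNReal) := by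
  have hmem : ∀ t : ℝ, t ∈ Icc (0:ℝ) 1 → AffineMap.lineMap a b t ∈ B := fun t ht =>
    hB.lineMap_mem ha hb ht
  have hcont : Continuous fun t : unitInterval => AffineMap.lineMap a b (t : ℝ) := by
    have : Continuous fun t : ℝ => AffineMap.lineMap a b t := AffineMap.lineMap_continuous
    exact this.comp continuous_subtype_val
  let P : Path (s a) (s b) :=
    { toFun := fun t => s (AffineMap.lineMap a b (t : ℝ))
      continuous_toFun := hs.comp_continuous hcont (fun t => hmem t t.2)
      source' := by simp
      target' := by simp }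
  refine (iInf_le _ P).trans ?_
  have h1 : eVariationOn (fun t : unitInterval => x (P t)) Set.univ =
      eVariationOn ((fun r : ℝ => x (s (AffineMap.lineMap a b r))) ∘ (fun t : unitInterval => (t : ℝ)))
        Set.univ := rfl
  rw [h1]
  have hlip : LipschitzOnWith (K * nndist a b) (fun r : ℝ => x (s (AffineMap.lineMap a b r))) (Icc 0 1) := by
    have h2 : LipschitzWith (nndist a b) (fun r : ℝ => (AffineMap.lineMap a b r : EE m)) := by
      refine LipschitzWith.of_dist_le_mul fun r t => ?_
      rw [dist_lineMap_lineMap, coe_nndist, mul_comm]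
    exact hl.comp h2.lipschitzOnWith (fun t ht => hmem t ht)
  refine (hlip.comp_eVariationOn_le (fun t _ => t.2)).trans ?_
  have hm : MonotoneOn (fun t : unitInterval => (t : ℝ)) Set.univ := fun a _ b _ hab => hab
  have h2 := hm.eVariationOn_le (Set.mem_univ (0 : unitInterval)) (Set.mem_univ (1 : unitInterval))
  have h3 : (Set.univ ∩ Icc (0 : unitInterval) 1) = Set.univ := by
    ext t
    simp only [Set.univ_inter, Set.mem_Icc, Set.mem_univ, iff_true]
    exact ⟨unitInterval.nonneg', unitInterval.le_one'⟩
  rw [h3] at h2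
  have h4 : eVariationOn (fun t : unitInterval => (t : ℝ)) Set.univ ≤ 1 := by simpa using h2
  calc _ ≤ ((K * nndist a b : NNReal) : ENNReal) * 1 := by gcongr
    _ = _ := mul_one _

theorem dM_small {m n : ℕ} {M : Type} [TopologicalSpace M] [T2Space M]
    [ChartedSpace (EuclideanSpace ℝ (Fin m)) M]
    [IsManifold (modelWithCornersSelf ℝ (EuclideanSpace ℝ (Fin m))) ((⊤ : ℕ∞) : WithTop ℕ∞) M]
    (x : M → EuclideanSpace ℝ (Fin n))
    (hx : ContMDiff (modelWithCornersSelf ℝ (EuclideanSpace ℝ (Fin m)))
      (modelWithCornersSelf ℝ (EuclideanSpace ℝ (Fin n))) ((⊤ : ℕ∞) : WithTop ℕ∞) x) (q : M) :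
    Tendsto (fun p => dM x p q) (𝓝 q) (𝓝 0) := by
  set I := modelWithCornersSelf ℝ (EuclideanSpace ℝ (Fin m)) with hI
  set c := extChartAt I q with hc
  have h1 : ContDiffAt ℝ 1 (fun y => x (c.symm y)) (c q) := by
    have h2 := (contMDiffAt_iff.1 (hx q)).2
    simp only [hI, mfld_simps] at h2
    rw [contDiffWithinAt_univ] at h2
    have h3 : (1 : WithTop ℕ∞) ≤ ((⊤ : ℕ∞) : WithTop ℕ∞) := by
      exact_mod_cast (le_top : (1 : ℕ∞) ≤ ⊤)
    exact h2.of_le h3
  obtain ⟨K, t, ht, hK⟩ := h1.exists_lipschitzOnWith
  have htar : c.target ∈ 𝓝 (c q) := extChartAt_target_mem_nhds q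
  obtain ⟨r, hr, hball⟩ := Metric.mem_nhds_iff.1 (Filter.inter_mem ht htar)
  have hcc : ContinuousAt c q := continuousAt_extChartAt q
  have hev : ∀ᶠ p in 𝓝 q, dM x p q ≤ ((K * nndist (c p) (c q) : NNReal) : ENNReal) := by
    filter_upwards [hcc.eventually (Metric.ball_mem_nhds (c q) hr), extChartAt_source_mem_nhds (I := I) q]
      with p hp hps
    have h5 := dS_path x c.symm (a := c p) (b := c q) (K := K) (B := Metric.ball (c q) r)
      (convex_ball _ _) hp (Metric.mem_ball_self hr)
      ((continuousOn_extChartAt_symm q).mono fun y hy => (hball hy).2)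
      (hK.mono fun y hy => (hball hy).1)
    rwa [c.left_inv hps, c.left_inv (mem_extChartAt_source q)] at h5
  have hlim : Tendsto (fun p => ((K * nndist (c p) (c q) : NNReal) : ENNReal)) (𝓝 q) (𝓝 0) := by
    have h6 : Tendsto (fun p => nndist (c p) (c q)) (𝓝 q) (𝓝 (nndist (c q) (c q))) :=
      hcc.nndist continuousAt_const
    rw [nndist_self] at h6
    have h7 := (h6.const_mul K)
    rw [mul_zero] at h7
    have h8 := ENNReal.tendsto_coe.2 h7
    simpa using h8
  exact tendsto_of_tendsto_of_tendsto_of_le_of_le' tendsto_const_nhds hlim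
    (Eventually.of_forall fun _ => zero_le) hev

end BH

end
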