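import Mathlib

/-!
# Module Jac (Jacobi's formula, Mathlib only; size S-M)

Derivative of the determinant.  For `E = Matrix (Fin m) (Fin m) ℝ` valued functions given by their entries.
Leibniz formula `Matrix.det_apply`, derivative of a finite product (`HasFDerivAt.finset_prod`), and
`adjugate`; or: `det (A + t B)` for invertible `A` is `det A * det (1 + t A⁻¹ B)` and
`Matrix.derivative_det_one_add_X_smul` / `Matrix.det_one_add_smul`; or `Matrix.detRowAlternating` is a continuous
multilinear map (`ContinuousMultilinearMap.hasFDerivAt`), then expand along the replaced row with `Matrix.cramer` /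
`Matrix.adjugate_apply`.
-/

set_option autoImplicit false

open scoped RealInnerProductSpace Topology ContDiff
open Filter Set

noncomputable section

namespace BH

private theorem det_updateCol_leibniz {m : ℕ} (A : Matrix (Fin m) (Fin m) ℝ) (b : Fin m → ℝ)
    (i : Fin m) :
    (A.updateCol i b).det = ∑ σ : Equiv.Perm (Fin m),
      (Equiv.Perm.sign σ : ℤ) * ((∏ j ∈ Finset.univ.erase i, A (σ j) j) * b (σ i)) := by
  rw [Matrix.det_apply']
  apply Finset.sum_congr rfl
  intro σ _
  congr 1
  rw [← Finset.prod_erase_mul Finset.univ _ (Finset.mem_univ i)]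
  congr 1
  · apply Finset.prod_congr rfl
    intro j hj
    rw [Matrix.updateCol_ne (Finset.ne_of_mem_erase hj)]
  · rw [Matrix.updateCol_self]

private theorem jacobi_hasFDerivAt {m : ℕ} {V : Type} [NormedAddCommGroup V] [NormedSpace ℝ V]
    (G : V → Matrix (Fin m) (Fin m) ℝ) (y : V)
    (hG : ∀ i j, DifferentiableAt ℝ (fun z => G z i j) y) :
    HasFDerivAt (fun z => (G z).det) (∑ σ : Equiv.Perm (Fin m),
      ((Equiv.Perm.sign σ : ℤ) : ℝ) • ∑ i, (∏ j ∈ Finset.univ.erase i, G y (σ j) j) •
        fderiv ℝ (fun z => G z (σ i) i) y) y := by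
  have h1 : (fun z => (G z).det) = fun z => ∑ σ : Equiv.Perm (Fin m),
      ((Equiv.Perm.sign σ : ℤ) : ℝ) * ∏ i, G z (σ i) i := by
    funext z
    rw [Matrix.det_apply']
  rw [h1]
  apply HasFDerivAt.fun_sum
  intro σ _
  have h2 : HasFDerivAt (fun z => ∏ i, G z (σ i) i)
      (∑ i, (∏ j ∈ Finset.univ.erase i, G y (σ j) j) • fderiv ℝ (fun z => G z (σ i) i) y) y := by
    have := HasFDerivAt.finsetProd (𝕜 := ℝ) (u := (Finset.univ : Finset (Fin m)))
      (g := fun i z => G z (σ i) i) (g' := fun i => fderiv ℝ (fun z => G z (σ i) i) y) (x := y)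
      (fun i _ => (hG (σ i) i).hasFDerivAt)
    exact this
  exact h2.const_mul _

theorem jacobi {m : ℕ} {V : Type} [NormedAddCommGroup V] [NormedSpace ℝ V]
    (G : V → Matrix (Fin m) (Fin m) ℝ) (y : V)
    (hG : ∀ i j, DifferentiableAt ℝ (fun z => G z i j) y) (hdet : (G y).det ≠ 0) (v : V) :
    DifferentiableAt ℝ (fun z => (G z).det) y ∧
    fderiv ℝ (fun z => (G z).det) y v =
      (G y).det * ∑ i, ∑ j, (G y)⁻¹ i j * fderiv ℝ (fun z => G z j i) y v := by
  have h := jacobi_hasFDerivAt G y hG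
  refine ⟨h.differentiableAt, ?_⟩
  rw [h.fderiv, sum_apply]
  have h1 : ∀ σ : Equiv.Perm (Fin m),
      (((Equiv.Perm.sign σ : ℤ) : ℝ) • ∑ i, (∏ j ∈ Finset.univ.erase i, G y (σ j) j) •
        fderiv ℝ (fun z => G z (σ i) i) y) v = ∑ i, ((Equiv.Perm.sign σ : ℤ) : ℝ) *
          ((∏ j ∈ Finset.univ.erase i, G y (σ j) j) * fderiv ℝ (fun z => G z (σ i) i) y v) := by
    intro σ
    rw [smul_apply, sum_apply, smul_eq_mul, Finset.mul_sum]
    apply Finset.sum_congr rfl
    intro i _
    rw [smul_apply, smul_eq_mul]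
  simp only [h1]
  rw [Finset.sum_comm, Finset.mul_sum]
  apply Finset.sum_congr rfl
  intro i _
  have h2 := det_updateCol_leibniz (G y) (fun k => fderiv ℝ (fun z => G z k i) y v) i
  rw [← h2, ← Matrix.cramer_apply, Matrix.cramer_eq_adjugate_mulVec, Finset.mul_sum]
  unfold Matrix.mulVec dotProduct
  apply Finset.sum_congr rfl
  intro j _
  rw [Matrix.inv_def, Matrix.smul_apply, Ring.inverse_eq_inv', smul_eq_mul]
  field_simp

end BH

end
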