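import Pool.Agent.Work.MP_ac5cbe_gt.TgBasic
import Pool.Agent.Work.MP_ac5cbe_gt.Jac

/-!
# Module Frozen (the coordinate formula of the Laplace-Beltrami operator; size M-L)

`G z i j = ⟪x_i, x_j⟫`, `x_i = dx ε_i`, `ε_i = bv i` the standard basis of `EE m`.
Matrix of `L† L` (`L = dx`) is `G`; `G` is invertible, `det G > 0`, and
`w_i := ∑ j, (G⁻¹) i j • x_j` satisfies `⟪w_i, x_k⟫ = δ_ik`, so `pinv L b = ∑ i, ⟪w_i, b⟫ ε_i`
(`pinv_unique`: both sides agree on tangent and on normal vectors; `w_i` is tangent).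
(1) with `B = tg x f`, `f_j = B x_j`, so `∑ j, G⁻¹ i j • f_j = B w_i`, and the product rule gives
`(√det G)⁻¹ ∑ i ∂_i (√det G • B w_i) = ∑ i (∂_i B) w_i + B Z`, where
`Z = (√det G)⁻¹ ∑ i ∂_i (√det G • w_i)`.
(2) `∑ i (∂_i B) w_i = ∑ a, (D_{pinv L e_a} B) e_a = Lap x f y` since `pinv L e_a = ∑ i ⟪w_i, e_a⟫ ε_i` and
`∑ a ⟪w_i, e_a⟫ e_a = w_i`.
(3) `Z` is normal (so `B Z = 0` by `tg_nor`): `⟪Z, x_k⟫ = (√det G)⁻¹ ∂_k √det G - ∑ i ⟪w_i, x_ik⟫` by
`⟪w_i, x_k⟫ = δ_ik`, and Jacobi's formula `∂_k det G = det G * tr (G⁻¹ ∂_k G)` gives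
`(√det G)⁻¹ ∂_k √det G = (1/2) tr (G⁻¹ ∂_k G) = ∑ i j G⁻¹ i j ⟪x_ik, x_j⟫ = ∑ i ⟪w_i, x_ik⟫`.
Jacobi's formula is `jacobi` in `Jac`.  Entries of the inverse matrix are smooth where `det ≠ 0`
(`Matrix.inv_def`, adjugate is polynomial), or avoid them: `w_i = (pinv L)† ε_i` is smooth by `sm_pinv`.
-/

set_option autoImplicit false

open scoped RealInnerProductSpace Topology ContDiff
open Filter Set

noncomputable section

namespace BH

variable {m n : ℕ} {x : EE m → EE n} {U : Set (EE m)} {W : Type} [NormedAddCommGroup W] [NormedSpace ℝ W]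

/-- dual frame `w_i` -/
private def frzW (x : EE m → EE n) (i : Fin m) (z : EE m) : EE n :=
  ∑ a : Fin n, ⟪pinv (fderiv ℝ x z) (bv a), bv i⟫ • bv a

private theorem frz_inner (x : EE m → EE n) (i : Fin m) (z : EE m) (b : EE n) :
    ⟪frzW x i z, b⟫ = ⟪pinv (fderiv ℝ x z) b, bv i⟫ := by
  have hb : pinv (fderiv ℝ x z) b = ∑ a : Fin n, ⟪b, bv a⟫ • pinv (fderiv ℝ x z) (bv a) := by
    conv_lhs => rw [← sum_bv b]
    rw [map_sum]
    simp only [map_smul]
  rw [hb, frzW, sum_inner, sum_inner]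
  apply Finset.sum_congr rfl
  intro a _
  rw [inner_smul_left, inner_smul_left, real_inner_comm b (bv a)]
  simp [mul_comm]

private theorem frz_inner_J (hx : Imm x U) {z : EE m} (hz : z ∈ U) (i : Fin m) (v : EE m) :
    ⟪frzW x i z, fderiv ℝ x z v⟫ = ⟪v, bv i⟫ := by
  rw [frz_inner, pinv_apply (hx.inj z hz)]

private theorem frz_inner_nor {z : EE m} (i : Fin m) {b : EE n} (hb : Nor x z b) :
    ⟪frzW x i z, b⟫ = 0 := by
  rw [frz_inner, pinv_nor hb, inner_zero_left]

private theorem frz_sm (hx : Imm x U) (i : Fin m) : Sm (frzW x i) U := by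
  intro y hy
  unfold frzW
  apply ContDiffAt.sum
  intro a _
  have h1 : ContDiffAt ℝ ∞ (fun z => pinv (fderiv ℝ x z) (bv a)) y :=
    (sm_pinv hx y hy).clm_apply contDiffAt_const
  exact (h1.inner ℝ contDiffAt_const).smul contDiffAt_const

/-- the columns -/
private def frzG (x : EE m → EE n) (z : EE m) : Matrix (Fin m) (Fin m) ℝ :=
  Matrix.of fun i j => @inner ℝ _ _ (fderiv ℝ x z (EuclideanSpace.single i (1 : ℝ)))
        (fderiv ℝ x z (EuclideanSpace.single j (1 : ℝ)))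

private theorem frz_pos (hx : Imm x U) {z : EE m} (hz : z ∈ U) : 0 < (frzG x z).det := by
  have hli : LinearIndependent ℝ (fun i : Fin m => fderiv ℝ x z (bv i)) := by
    have h1 : LinearIndependent ℝ (fun i : Fin m => (bv i : EE m)) := by
      have h2 : (fun i : Fin m => (bv i : EE m)) = ⇑(EuclideanSpace.basisFun (Fin m) ℝ) := by
        funext i
        simp [bv]
      rw [h2]
      exact (EuclideanSpace.basisFun (Fin m) ℝ).orthonormal.linearIndependent
    exact h1.map' (fderiv ℝ x z : EE m →ₗ[ℝ] EE n) (LinearMap.ker_eq_bot.2 (hx.inj z hz))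
  have := Matrix.posDef_gram_of_linearIndependent (𝕜 := ℝ) hli
  exact this.det_pos

private theorem frz_sum (hx : Imm x U) {z : EE m} (hz : z ∈ U) (i : Fin m) :
    ∑ j : Fin m, (frzG x z)⁻¹ i j • fderiv ℝ x z (bv j) = frzW x i z := by
  have hdet : IsUnit (frzG x z).det := (frz_pos hx hz).ne'.isUnit
  set d := ∑ j : Fin m, (frzG x z)⁻¹ i j • fderiv ℝ x z (bv j) - frzW x i z with hd
  have h1 : ∀ k : Fin m, ⟪d, fderiv ℝ x z (bv k)⟫ = 0 := by
    intro k
    rw [hd, inner_sub_left, frz_inner_J hx hz, sum_inner]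
    have h2 : ∑ j : Fin m, ⟪(frzG x z)⁻¹ i j • fderiv ℝ x z (bv j), fderiv ℝ x z (bv k)⟫ =
        ((frzG x z)⁻¹ * frzG x z) i k := by
      rw [Matrix.mul_apply]
      apply Finset.sum_congr rfl
      intro j _
      rw [inner_smul_left]
      rfl
    rw [h2, Matrix.nonsing_inv_mul _ hdet, Matrix.one_apply]
    simp [bv, EuclideanSpace.inner_single_right]
  have h3 : ∀ v : EE m, ⟪d, fderiv ℝ x z v⟫ = 0 := by
    intro v
    rw [← sum_bv v, map_sum, inner_sum]
    apply Finset.sum_eq_zero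
    intro k _
    rw [map_smul, inner_smul_right, h1, mul_zero]
  have h4 : ∀ b : EE n, Nor x z b → ⟪d, b⟫ = 0 := by
    intro b hb
    rw [hd, inner_sub_left, frz_inner_nor i hb, sub_zero, sum_inner]
    apply Finset.sum_eq_zero
    intro j _
    rw [inner_smul_left, real_inner_comm, hb, mul_zero]
  have h5 : ⟪d, d⟫ = 0 := by
    have h6 := h4 (d - fderiv ℝ x z (pinv (fderiv ℝ x z) d))
      (fun v => proj_orth (hx.inj z hz) d v)
    rw [inner_sub_right, h3, sub_zero] at h6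
    exact h6
  have h7 : d = 0 := by simpa using h5
  rw [hd, sub_eq_zero] at h7
  exact h7

private theorem frz_apply (hx : Imm x U) {z : EE m} (hz : z ∈ U) (f : EE m → W) (i : Fin m) :
    ∑ j : Fin m, (frzG x z)⁻¹ i j • fderiv ℝ f z (bv j) = tg x f z (frzW x i z) := by
  rw [← frz_sum hx hz i, map_sum]
  apply Finset.sum_congr rfl
  intro j _
  rw [map_smul, tg_J hx hz]

private theorem frz_lap (x : EE m → EE n) (f : EE m → W) (y : EE m) :
    ∑ i : Fin m, fderiv ℝ (tg x f) y (bv i) (frzW x i y) = Lap x f y := by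
  unfold Lap
  have h1 : ∀ a : Fin n, tg x (tg x f) y (bv a) (bv a) =
      ∑ i : Fin m, ⟪pinv (fderiv ℝ x y) (bv a), bv i⟫ • fderiv ℝ (tg x f) y (bv i) (bv a) := by
    intro a
    have h2 : tg x (tg x f) y (bv a) = fderiv ℝ (tg x f) y (pinv (fderiv ℝ x y) (bv a)) := rfl
    rw [h2]
    conv_lhs => rw [← sum_bv (pinv (fderiv ℝ x y) (bv a))]
    rw [map_sum, sum_apply]
    apply Finset.sum_congr rfl
    intro i _
    rw [map_smul, smul_apply]
  rw [Finset.sum_congr rfl (fun a _ => h1 a), Finset.sum_comm]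
  apply Finset.sum_congr rfl
  intro i _
  rw [frzW, map_sum]
  apply Finset.sum_congr rfl
  intro a _
  rw [map_smul]


/-- the trace of the derivative of the metric -/
private theorem frz_trace (hx : Imm x U) {y : EE m} (hy : y ∈ U) (k : Fin m) :
    fderiv ℝ (fun z => Real.sqrt (frzG x z).det) y (bv k) =
      Real.sqrt (frzG x y).det *
        ∑ i : Fin m, ⟪frzW x i y, fderiv ℝ (fderiv ℝ x) y (bv k) (bv i)⟫ := by
  have hpos := frz_pos hx hy
  have hsm : ContDiffAt ℝ ∞ (fun z => fderiv ℝ x z) y := sm_fderiv hx.smooth y hy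
  have hd : DifferentiableAt ℝ (fun z => fderiv ℝ x z) y :=
    hsm.differentiableAt (by simp)
  have hdi : ∀ i : Fin m, HasFDerivAt (fun z => fderiv ℝ x z (bv i))
      ((fderiv ℝ (fderiv ℝ x) y).flip (bv i)) y := by
    intro i
    have h1 := hd.hasFDerivAt.clm_apply (hasFDerivAt_const (bv i : EE m) y)
    have h2 : (fderiv ℝ x y).comp (0 : EE m →L[ℝ] EE m) + (fderiv ℝ (fderiv ℝ x) y).flip (bv i) =
        (fderiv ℝ (fderiv ℝ x) y).flip (bv i) := by
      simp
    rw [← h2]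
    exact h1
  have hG : ∀ i j : Fin m, HasFDerivAt (fun z => frzG x z i j)
      ((fderivInnerCLM ℝ (fderiv ℝ x y (bv i), fderiv ℝ x y (bv j))).comp
        (((fderiv ℝ (fderiv ℝ x) y).flip (bv i)).prod ((fderiv ℝ (fderiv ℝ x) y).flip (bv j)))) y := by
    intro i j
    exact (hdi i).inner ℝ (hdi j)
  have hGk : ∀ i j : Fin m, fderiv ℝ (fun z => frzG x z i j) y (bv k) =
      ⟪fderiv ℝ x y (bv i), fderiv ℝ (fderiv ℝ x) y (bv k) (bv j)⟫ +
        ⟪fderiv ℝ (fderiv ℝ x) y (bv k) (bv i), fderiv ℝ x y (bv j)⟫ := by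
    intro i j
    rw [(hG i j).fderiv]
    rfl
  obtain ⟨hdd, hj⟩ := jacobi (fun z => frzG x z) y (fun i j => (hG i j).differentiableAt)
    hpos.ne' (bv k)
  have hsq := (hdd.hasFDerivAt.sqrt hpos.ne').fderiv
  have hsymm : ∀ i j : Fin m, (frzG x y)⁻¹ i j = (frzG x y)⁻¹ j i := by
    have h1 : (frzG x y).transpose = frzG x y := by
      ext i j
      exact real_inner_comm (fderiv ℝ x y (bv i)) (fderiv ℝ x y (bv j))
    have h2 : (frzG x y)⁻¹.transpose = (frzG x y)⁻¹ := by
      rw [Matrix.transpose_nonsing_inv, h1]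
    intro i j
    conv_lhs => rw [← h2]
    rfl
  have hw : ∀ i : Fin m, ⟪frzW x i y, fderiv ℝ (fderiv ℝ x) y (bv k) (bv i)⟫ =
      ∑ j : Fin m, (frzG x y)⁻¹ i j *
        ⟪fderiv ℝ x y (bv j), fderiv ℝ (fderiv ℝ x) y (bv k) (bv i)⟫ := by
    intro i
    rw [← frz_sum hx hy i, sum_inner]
    apply Finset.sum_congr rfl
    intro j _
    rw [inner_smul_left]
    rfl
  have htr : ∑ i : Fin m, ∑ j : Fin m, (frzG x y)⁻¹ i j *
      fderiv ℝ (fun z => frzG x z j i) y (bv k) =
      2 * ∑ i : Fin m, ⟪frzW x i y, fderiv ℝ (fderiv ℝ x) y (bv k) (bv i)⟫ := by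
    simp only [hGk, mul_add, Finset.sum_add_distrib]
    rw [two_mul]
    congr 1
    · apply Finset.sum_congr rfl
      intro i _
      rw [hw]
    · rw [Finset.sum_comm]
      apply Finset.sum_congr rfl
      intro i _
      rw [hw]
      apply Finset.sum_congr rfl
      intro j _
      rw [hsymm j i, real_inner_comm]
  rw [hsq, smul_apply, hj, htr, smul_eq_mul]
  have hs : Real.sqrt (frzG x y).det ≠ 0 := (Real.sqrt_pos.2 hpos).ne'
  have hs2 : (frzG x y).det = Real.sqrt (frzG x y).det * Real.sqrt (frzG x y).det :=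
    (Real.mul_self_sqrt hpos.le).symm
  field_simp
  rw [Real.sq_sqrt hpos.le]

theorem frozen_eq (hx : Imm x U) {f : EE m → W} (hf : Sm f U) {y : EE m} (hy : y ∈ U)
    (G : EE m → Matrix (Fin m) (Fin m) ℝ)
    (hG : G = fun z => Matrix.of fun i j =>
      @inner ℝ _ _ (fderiv ℝ x z (EuclideanSpace.single i (1 : ℝ)))
        (fderiv ℝ x z (EuclideanSpace.single j (1 : ℝ)))) :
    (Real.sqrt (G y).det)⁻¹ • ∑ i : Fin m, fderiv ℝ (fun z => Real.sqrt (G z).det •
      ∑ j : Fin m, (G z)⁻¹ i j • fderiv ℝ f z (EuclideanSpace.single j (1 : ℝ))) y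
        (EuclideanSpace.single i (1 : ℝ)) = Lap x f y := by
  have hGx : G = frzG x := hG
  subst hGx
  have hpos := frz_pos hx hy
  have hs : Real.sqrt (frzG x y).det ≠ 0 := (Real.sqrt_pos.2 hpos).ne'
  have hU : U ∈ 𝓝 y := hx.isOpen.mem_nhds hy
  -- differentiability facts
  have hsm : ContDiffAt ℝ ∞ (fun z => fderiv ℝ x z) y := sm_fderiv hx.smooth y hy
  have hd : DifferentiableAt ℝ (fun z => fderiv ℝ x z) y := hsm.differentiableAt (by simp)
  have hB : DifferentiableAt ℝ (tg x f) y := (sm_tg hx hf y hy).differentiableAt (by simp)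
  have hw : ∀ i : Fin m, DifferentiableAt ℝ (frzW x i) y := fun i =>
    (frz_sm hx i y hy).differentiableAt (by simp)
  have hGsm : ∀ i j : Fin m, DifferentiableAt ℝ (fun z => frzG x z i j) y := by
    intro i j
    exact (hd.clm_apply (differentiableAt_const _)).inner ℝ (hd.clm_apply (differentiableAt_const _))
  have hsd : DifferentiableAt ℝ (fun z => Real.sqrt (frzG x z).det) y :=
    (jacobi (fun z => frzG x z) y hGsm hpos.ne' 0).1.sqrt hpos.ne'
  -- each term
  have hterm : ∀ i : Fin m, fderiv ℝ (fun z => Real.sqrt (frzG x z).det •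
      ∑ j : Fin m, (frzG x z)⁻¹ i j • fderiv ℝ f z (EuclideanSpace.single j (1 : ℝ))) y
        (EuclideanSpace.single i (1 : ℝ)) =
      Real.sqrt (frzG x y).det • (fderiv ℝ (tg x f) y (bv i) (frzW x i y) +
        tg x f y (fderiv ℝ (frzW x i) y (bv i) +
          (∑ l : Fin m, ⟪frzW x l y, fderiv ℝ (fderiv ℝ x) y (bv i) (bv l)⟫) • frzW x i y)) := by
    intro i
    have h1 : (fun z => Real.sqrt (frzG x z).det •
      ∑ j : Fin m, (frzG x z)⁻¹ i j • fderiv ℝ f z (EuclideanSpace.single j (1 : ℝ))) =ᶠ[𝓝 y]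
        fun z => Real.sqrt (frzG x z).det • tg x f z (frzW x i z) := by
      filter_upwards [hU] with z hz
      rw [← frz_apply hx hz f i]
    rw [h1.fderiv_eq]
    have h2 : HasFDerivAt (fun z => tg x f z (frzW x i z))
        ((tg x f y).comp (fderiv ℝ (frzW x i) y) + (fderiv ℝ (tg x f) y).flip (frzW x i y)) y :=
      hB.hasFDerivAt.clm_apply (hw i).hasFDerivAt
    have h3 := (hsd.hasFDerivAt.smul h2).fderiv
    have h3' : fderiv ℝ (fun z => Real.sqrt (frzG x z).det • tg x f z (frzW x i z)) y (bv i) =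
        Real.sqrt (frzG x y).det • (tg x f y (fderiv ℝ (frzW x i) y (bv i)) +
          fderiv ℝ (tg x f) y (bv i) (frzW x i y)) +
        (fderiv ℝ (fun z => Real.sqrt (frzG x z).det) y (bv i)) • tg x f y (frzW x i y) := by
      have h4 := congrArg (fun K : EE m →L[ℝ] W => K (bv i)) h3
      exact h4
    refine h3'.trans ?_
    rw [frz_trace hx hy i, mul_smul, ← smul_add, map_add, map_smul]
    congr 1
    abel
  rw [Finset.sum_congr rfl (fun i _ => hterm i), ← Finset.smul_sum, smul_smul, inv_mul_cancel₀ hs,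
    one_smul, Finset.sum_add_distrib, frz_lap, ← map_sum]
  have hZ : Nor x y (∑ i : Fin m, (fderiv ℝ (frzW x i) y (bv i) +
          (∑ l : Fin m, ⟪frzW x l y, fderiv ℝ (fderiv ℝ x) y (bv i) (bv l)⟫) • frzW x i y)) := by
    have hk : ∀ k : Fin m, ⟪∑ i : Fin m, (fderiv ℝ (frzW x i) y (bv i) +
          (∑ l : Fin m, ⟪frzW x l y, fderiv ℝ (fderiv ℝ x) y (bv i) (bv l)⟫) • frzW x i y),
            fderiv ℝ x y (bv k)⟫ = 0 := by
      intro k
      have h1 : ∀ i : Fin m, ⟪fderiv ℝ (frzW x i) y (bv i), fderiv ℝ x y (bv k)⟫ =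
          - ⟪frzW x i y, fderiv ℝ (fderiv ℝ x) y (bv i) (bv k)⟫ := by
        intro i
        have h2 : (fun z => ⟪frzW x i z, fderiv ℝ x z (bv k)⟫) =ᶠ[𝓝 y] fun _ => ⟪bv k, bv i⟫ := by
          filter_upwards [hU] with z hz
          rw [frz_inner_J hx hz]
        have h3 := h2.fderiv_eq (𝕜 := ℝ)
        have h4 : HasFDerivAt (fun z => fderiv ℝ x z (bv k))
            ((fderiv ℝ (fderiv ℝ x) y).flip (bv k)) y := by
          have h5 := hd.hasFDerivAt.clm_apply (hasFDerivAt_const (bv k : EE m) y)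
          have h6 : (fderiv ℝ x y).comp (0 : EE m →L[ℝ] EE m) +
              (fderiv ℝ (fderiv ℝ x) y).flip (bv k) = (fderiv ℝ (fderiv ℝ x) y).flip (bv k) := by
            simp
          rw [← h6]
          exact h5
        have h7 : fderiv ℝ (fun z => ⟪frzW x i z, fderiv ℝ x z (bv k)⟫) y =
            (fderivInnerCLM ℝ (frzW x i y, fderiv ℝ x y (bv k))).comp
              ((fderiv ℝ (frzW x i) y).prod ((fderiv ℝ (fderiv ℝ x) y).flip (bv k))) :=
          ((hw i).hasFDerivAt.inner ℝ h4).fderiv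
        rw [h3] at h7
        have h8 := congrArg (fun K : EE m →L[ℝ] ℝ => K (bv i)) h7
        have h9 : (0 : ℝ) = ⟪frzW x i y, fderiv ℝ (fderiv ℝ x) y (bv i) (bv k)⟫ +
            ⟪fderiv ℝ (frzW x i) y (bv i), fderiv ℝ x y (bv k)⟫ := by
          have h10 : (fderiv ℝ (fun _ : EE m => (⟪bv k, bv i⟫ : ℝ)) y) (bv i) = 0 := by simp
          rw [← h10]
          exact h8
        linarith
      rw [sum_inner]
      have h11 : ∀ i : Fin m, ⟪fderiv ℝ (frzW x i) y (bv i) +
          (∑ l : Fin m, ⟪frzW x l y, fderiv ℝ (fderiv ℝ x) y (bv i) (bv l)⟫) • frzW x i y,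
            fderiv ℝ x y (bv k)⟫ = - ⟪frzW x i y, fderiv ℝ (fderiv ℝ x) y (bv i) (bv k)⟫ +
            (∑ l : Fin m, ⟪frzW x l y, fderiv ℝ (fderiv ℝ x) y (bv i) (bv l)⟫) *
              (if i = k then 1 else 0) := by
        intro i
        rw [inner_add_left, h1, inner_smul_left, frz_inner_J hx hy]
        congr 2
        simp [bv, EuclideanSpace.inner_single_right, eq_comm]
      rw [Finset.sum_congr rfl (fun i _ => h11 i), Finset.sum_add_distrib]
      simp only [mul_ite, mul_one, mul_zero, Finset.sum_ite_eq', Finset.mem_univ, if_true]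
      rw [Finset.sum_neg_distrib, neg_add_eq_zero]
      apply Finset.sum_congr rfl
      intro i _
      congr 1
      have hsymm : IsSymmSndFDerivAt ℝ x y :=
        (hx.smooth y hy).isSymmSndFDerivAt
          (by rw [minSmoothness_of_isRCLikeNormedField]; exact WithTop.coe_le_coe.2 le_top)
      exact hsymm (bv i) (bv k)
    intro v
    rw [← sum_bv v, map_sum, inner_sum]
    apply Finset.sum_eq_zero
    intro k _
    rw [map_smul, inner_smul_right, hk, mul_zero]
  rw [tg_nor f hZ, add_zero]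

end BH

end
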