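import Pool.Agent.Work.MP_ac5cbe_gt.Loc

/-!
# Module Move (a short piece of gradient line; size M)

`V = {y ∈ U | hL x y ≠ 0, NL x y ≠ 0}` is open (continuity of the smooth functions `hL x` on `U` and `NL x` on
`{hL ≠ 0}`) and contains `y0` (`PL ≥ q F² > 0`).  `Imm x V`, `Bih x V`.  `eL x` is smooth on `V` (`sm_eL`), so there is a
solution `γ' = eL x (γ)`, `γ 0 = y0` on `(-δ, δ)` (`ContDiffAt.exists_forall_hasDerivAt_Ioo_eq_of_contDiffAt` or similar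
Picard-Lindelof statement for `C¹` fields at a point), staying in `V`.  Let `ε = δ / 2`.
Along `γ` on `[0, ε]` (chain rule and `loc`), with `F, P, θ` as functions of `s`:
`F' = P > 0`, `P' ≥ F³/(m+1) - P θ`, `θ' ≤ 3/4 F² - θ²/(m+1)`.
(A) `θ ≤ C F` on `[0, ε]`: `image_le_of_deriv_right_lt_deriv_boundary` with `f = θ`, `B = C F`: where `θ = C F`,
   `θ' ≤ (3/4 - C²/(m+1)) F² ≤ 0 < C P = (C F)'`.
(B) `q F² ≤ P`: `f = q F²`, `B = P`: where `P = q F²`, by (A) `P' ≥ F³/(m+1) - C P F = (1/(m+1) - C q) F³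
   > 2 q² F³ = 2 q F P = (q F²)'`.
(C) `(F⁻¹)' = - P / F² ≤ - q` by (B), so `(F⁻¹) ε ≤ (F⁻¹) 0 - q ε` (mean value inequality, or antitone of `F⁻¹ + q s`).
Lipschitz: the derivative of `x ∘ γ` is `fderiv x (eL x)`, of norm one
(`Convex.lipschitzOnWith_of_nnnorm_hasDerivWithin_le` or similar).
-/

set_option autoImplicit false

open scoped RealInnerProductSpace Topology ContDiff
open Filter Set

noncomputable section

namespace BH

/-- the real-variable part: the three inequalities along a solution -/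
theorem mv_ode {k q C ε : ℝ} (hk : 0 < k) (hq : 0 < q) (hC : 0 < C)
    (hq2 : C * q + 2 * q ^ 2 < 1 / k) (hC2 : 3 / 4 * k ≤ C ^ 2)
    {F P T P' T' : ℝ → ℝ} (hF0 : ∀ s ∈ Icc 0 ε, 0 < F s) (hP0 : ∀ s ∈ Icc 0 ε, 0 < P s)
    (hF : ∀ s ∈ Icc 0 ε, HasDerivAt F (P s) s) (hP : ∀ s ∈ Icc 0 ε, HasDerivAt P (P' s) s)
    (hT : ∀ s ∈ Icc 0 ε, HasDerivAt T (T' s) s)
    (hP1 : ∀ s ∈ Icc 0 ε, F s ^ 3 / k - P s * T s ≤ P' s)
    (hT1 : ∀ s ∈ Icc 0 ε, T' s ≤ 3 / 4 * F s ^ 2 - T s ^ 2 / k)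
    (h1 : q * F 0 ^ 2 ≤ P 0) (h2 : T 0 ≤ C * F 0) :
    ∀ s ∈ Icc 0 ε, T s ≤ C * F s ∧ q * F s ^ 2 ≤ P s ∧ (F s)⁻¹ ≤ (F 0)⁻¹ - q * s := by
  have hcF : ContinuousOn F (Icc 0 ε) := fun s hs => (hF s hs).continuousAt.continuousWithinAt
  have hcP : ContinuousOn P (Icc 0 ε) := fun s hs => (hP s hs).continuousAt.continuousWithinAt
  have hcT : ContinuousOn T (Icc 0 ε) := fun s hs => (hT s hs).continuousAt.continuousWithinAt
  have hA : ∀ s ∈ Icc 0 ε, T s ≤ C * F s := by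
    intro s hs
    refine image_le_of_deriv_right_lt_deriv_boundary' (f := T) (f' := T') (B := fun s => C * F s)
      (B' := fun s => C * P s) hcT
      (fun s hs => (hT s (Ico_subset_Icc_self hs)).hasDerivWithinAt) h2 (hcF.const_smul C)
      (fun s hs => ((hF s (Ico_subset_Icc_self hs)).const_mul C).hasDerivWithinAt) ?_ hs
    intro r hr he
    have hr' := Ico_subset_Icc_self hr
    have e1 := hT1 r hr'
    have e2 : 0 < C * P r := mul_pos hC (hP0 r hr')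
    have e3 : 3 / 4 * F r ^ 2 ≤ T r ^ 2 / k := by
      rw [he, le_div_iff₀ hk]
      nlinarith [mul_le_mul_of_nonneg_right hC2 (sq_nonneg (F r))]
    linarith
  have hB : ∀ s ∈ Icc 0 ε, q * F s ^ 2 ≤ P s := by
    intro s hs
    refine image_le_of_deriv_right_lt_deriv_boundary' (f := fun s => q * F s ^ 2)
      (f' := fun s => q * (2 * F s * P s)) (B := P) (B' := P') ((hcF.pow 2).const_smul q)
      (fun s hs => ?_) h1 hcP (fun s hs => (hP s (Ico_subset_Icc_self hs)).hasDerivWithinAt) ?_ hs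
    · have := ((hF s (Ico_subset_Icc_self hs)).pow 2).const_mul q
      refine (this.congr_deriv ?_).hasDerivWithinAt
      push_cast
      ring
    · intro r hr he
      have hr' := Ico_subset_Icc_self hr
      have e1 := hP1 r hr'
      have e2 := hA r hr'
      have e3 := hF0 r hr'
      have e4 := hP0 r hr'
      have e5 : P r * T r ≤ P r * (C * F r) := mul_le_mul_of_nonneg_left e2 e4.le
      have e6 : (C * q + 2 * q ^ 2) * F r ^ 3 < 1 / k * F r ^ 3 :=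
        mul_lt_mul_of_pos_right hq2 (pow_pos e3 3)
      have e7 : P r * (C * F r) = C * q * F r ^ 3 := by rw [← he]; ring
      have e8 : q * (2 * F r * P r) = 2 * q ^ 2 * F r ^ 3 := by rw [← he]; ring
      have e9 : F r ^ 3 / k = 1 / k * F r ^ 3 := by ring
      show q * (2 * F r * P r) < P' r
      rw [e8]
      nlinarith
  refine fun s hs => ⟨hA s hs, hB s hs, ?_⟩
  refine image_le_of_deriv_right_le_deriv_boundary (f := fun s => (F s)⁻¹)
      (f' := fun s => - P s / F s ^ 2) (B := fun s => (F 0)⁻¹ - q * s) (B' := fun _ => - q)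
      (hcF.inv₀ fun r hr => (hF0 r hr).ne') (fun r hr => ?_) (by simp) (by fun_prop) (fun r hr => ?_) ?_ hs
  · exact ((hF r (Ico_subset_Icc_self hr)).inv (hF0 r (Ico_subset_Icc_self hr)).ne').hasDerivWithinAt
  · have := ((hasDerivAt_id r).const_mul q).const_sub (F 0)⁻¹
    exact (this.congr_deriv (by ring)).hasDerivWithinAt
  · intro r hr
    have hr' := Ico_subset_Icc_self hr
    have e3 := hF0 r hr'
    show - P r / F r ^ 2 ≤ - q
    rw [div_le_iff₀ (pow_pos e3 2)]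
    linarith [hB r hr']

variable {m : ℕ} {x : EE m → EE (m + 1)} {U : Set (EE m)}

theorem mv_open (hx : Imm x U) {y0 : EE m} (hy : y0 ∈ U) (h0 : hL x y0 ≠ 0) (hN : NL x y0 ≠ 0) :
    ∃ V ⊆ U, IsOpen V ∧ y0 ∈ V ∧ (∀ z ∈ V, hL x z ≠ 0) ∧ ∀ z ∈ V, NL x z ≠ 0 := by
  have hc : ContinuousAt (hL x) y0 := (sm_hL hx _ hy).continuousAt
  obtain ⟨V, hV, hVo, hyV⟩ := _root_.eventually_nhds_iff.1
    (Filter.Eventually.and (p := fun z => z ∈ U) (hx.isOpen.mem_nhds hy) (hc.eventually_ne h0))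
  have hxV : Imm x V := hx.shrink hVo fun z hz => (hV z hz).1
  have hc2 : ContinuousAt (NL x) y0 := (sm_NL hxV (fun z hz => (hV z hz).2) _ hyV).continuousAt
  obtain ⟨V2, hV2, hVo2, hyV2⟩ := _root_.eventually_nhds_iff.1
    (Filter.Eventually.and (p := fun z => z ∈ V) (hVo.mem_nhds hyV) (hc2.eventually_ne hN))
  exact ⟨V2, fun z hz => (hV z (hV2 z hz).1).1, hVo2, hyV2, fun z hz => (hV z (hV2 z hz).1).2,
    fun z hz => (hV2 z hz).2⟩

theorem move (hx : Imm x U) (hb : Bih x U) {y0 : EE m} (hy : y0 ∈ U) (h0 : hL x y0 ≠ 0) {q C : ℝ}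
    (hq : 0 < q) (hC : 0 < C) (hq2 : C * q + 2 * q ^ 2 < 1 / (m + 1)) (hC2 : 3 / 4 * (m + 1) ≤ C ^ 2)
    (hP : q * FL x y0 ^ 2 ≤ PL x y0) (hth : thL x y0 ≤ C * FL x y0) :
    ∃ ε > 0, ∃ γ : ℝ → EE m, γ 0 = y0 ∧ ContinuousOn γ (Icc 0 ε) ∧ (∀ s ∈ Icc 0 ε, γ s ∈ U) ∧
      LipschitzOnWith 1 (fun s => x (γ s)) (Icc 0 ε) ∧ hL x (γ ε) ≠ 0 ∧ FL x y0 ≤ FL x (γ ε) ∧
      q * FL x (γ ε) ^ 2 ≤ PL x (γ ε) ∧ thL x (γ ε) ≤ C * FL x (γ ε) ∧
      q * ε ≤ (FL x y0)⁻¹ - (FL x (γ ε))⁻¹ := by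
  have hF00 : 0 < FL x y0 := norm_pos_iff.2 h0
  have hN : NL x y0 ≠ 0 := by
    have : 0 < PL x y0 := lt_of_lt_of_le (mul_pos hq (pow_pos hF00 2)) hP
    exact norm_pos_iff.1 this
  obtain ⟨V, hVU, hVo, hyV, hV0, hVN⟩ := mv_open hx hy h0 hN
  have hxV : Imm x V := hx.shrink hVo hVU
  have hbV : Bih x V := fun z hz => hb z (hVU hz)
  have hsm : ContDiffAt ℝ 1 (eL x) y0 := (sm_eL hxV hV0 hVN y0 hyV).of_le (by simp)
  obtain ⟨γ, hγ0, ε1, hε1, hγ⟩ :=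
    hsm.exists_forall_mem_closedBall_exists_eq_forall_mem_Ioo_hasDerivAt₀ 0
  have hcont : ContinuousAt γ 0 := (hγ 0 (by constructor <;> linarith)).continuousAt
  have hev : ∀ᶠ s in 𝓝 (0 : ℝ), γ s ∈ V := hcont.eventually (by rw [hγ0]; exact hVo.mem_nhds hyV)
  obtain ⟨δ, hδ, hδV⟩ := Metric.eventually_nhds_iff.1 hev
  set ε : ℝ := min ε1 δ / 2 with hε
  have hεpos : 0 < ε := by positivity
  have hε1' : ε < ε1 := by
    have := min_le_left ε1 δ
    have h2 : 0 < min ε1 δ := lt_min hε1 hδ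
    rw [hε]; linarith
  have hεδ : ε < δ := by
    have := min_le_right ε1 δ
    have h2 : 0 < min ε1 δ := lt_min hε1 hδ
    rw [hε]; linarith
  have hd : ∀ s ∈ Icc 0 ε, HasDerivAt γ (eL x (γ s)) s := fun s hs =>
    hγ s ⟨by linarith [hs.1], by linarith [hs.2]⟩
  have hmV : ∀ s ∈ Icc 0 ε, γ s ∈ V := fun s hs => hδV (by
    rw [Real.dist_eq, sub_zero, abs_of_nonneg hs.1]; exact lt_of_le_of_lt hs.2 hεδ)
  have hFd : ∀ s ∈ Icc 0 ε, HasDerivAt (fun s => FL x (γ s)) (PL x (γ s)) s := by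
    intro s hs
    have hz := hmV s hs
    have := ((sm_FL hxV hV0 _ hz).differentiableAt (by simp)).hasFDerivAt.comp_hasDerivAt s (hd s hs)
    rw [(loc hxV hV0 hbV hVN hz).1] at this
    exact this
  have hPd : ∀ s ∈ Icc 0 ε, HasDerivAt (fun s => PL x (γ s)) (fderiv ℝ (PL x) (γ s) (eL x (γ s))) s :=
    fun s hs => ((sm_PL hxV hV0 hVN _ (hmV s hs)).differentiableAt (by simp)).hasFDerivAt.comp_hasDerivAt
      s (hd s hs)
  have hTd : ∀ s ∈ Icc 0 ε, HasDerivAt (fun s => thL x (γ s)) (fderiv ℝ (thL x) (γ s) (eL x (γ s))) s :=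
    fun s hs => ((sm_thL hxV hV0 hVN _ (hmV s hs)).differentiableAt (by simp)).hasFDerivAt.comp_hasDerivAt
      s (hd s hs)
  have hxd : ∀ s ∈ Icc 0 ε, HasDerivAt (fun s => x (γ s)) (fderiv ℝ x (γ s) (eL x (γ s))) s :=
    fun s hs => ((hxV.smooth _ (hmV s hs)).differentiableAt (by simp)).hasFDerivAt.comp_hasDerivAt
      s (hd s hs)
  have key := mv_ode (k := (m : ℝ) + 1) (q := q) (C := C) (ε := ε) (by positivity) hq hC hq2 hC2
    (F := fun s => FL x (γ s)) (P := fun s => PL x (γ s)) (T := fun s => thL x (γ s))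
    (P' := fun s => fderiv ℝ (PL x) (γ s) (eL x (γ s)))
    (T' := fun s => fderiv ℝ (thL x) (γ s) (eL x (γ s)))
    (fun s hs => norm_pos_iff.2 (hV0 _ (hmV s hs))) (fun s hs => norm_pos_iff.2 (hVN _ (hmV s hs)))
    hFd hPd hTd (fun s hs => (loc hxV hV0 hbV hVN (hmV s hs)).2.1)
    (fun s hs => (loc hxV hV0 hbV hVN (hmV s hs)).2.2.1) (by simpa only [hγ0] using hP)
    (by simpa only [hγ0] using hth)
  obtain ⟨k1, k2, k3⟩ := key ε ⟨hεpos.le, le_rfl⟩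
  simp only [hγ0] at k3
  refine ⟨ε, hεpos, γ, hγ0, fun s hs => (hd s hs).continuousAt.continuousWithinAt,
    fun s hs => hVU (hmV s hs), ?_, hV0 _ (hmV ε ⟨hεpos.le, le_rfl⟩), ?_, k2, k1, by linarith⟩
  · refine Convex.lipschitzOnWith_of_nnnorm_hasDerivWithin_le (convex_Icc 0 ε)
      (f' := fun s => fderiv ℝ x (γ s) (eL x (γ s))) (fun s hs => (hxd s hs).hasDerivWithinAt) ?_
    intro s hs
    have := (loc hxV hV0 hbV hVN (hmV s hs)).2.2.2
    rw [← NNReal.coe_le_coe, coe_nnnorm, this]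
    simp
  · have e1 : 0 < FL x (γ ε) := norm_pos_iff.2 (hV0 _ (hmV ε ⟨hεpos.le, le_rfl⟩))
    have e2 : (FL x (γ ε))⁻¹ ≤ (FL x y0)⁻¹ := by
      have : 0 < q * ε := mul_pos hq hεpos
      linarith
    exact (inv_le_inv₀ e1 hF00).1 e2

end BH

end
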