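import Pool.Agent.Work.MP_ac5cbe_gt.ChartM
import Pool.Agent.Work.MP_ac5cbe_gt.Move
import Pool.Agent.Work.MP_ac5cbe_gt.DistS
import Pool.Agent.Work.MP_ac5cbe_gt.Caristi
import Pool.Agent.Work.MP_ac5cbe_gt.Frozen

/-!
# Main: assembly
-/

set_option autoImplicit false
set_option linter.unusedSectionVars false

open scoped RealInnerProductSpace Topology ContDiff
open Filter Set

noncomputable section

namespace BH

theorem Lap_congr {m n : ℕ} {W : Type} [NormedAddCommGroup W] [NormedSpace ℝ W] {x : EE m → EE n}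
    {y : EE m} {f g : EE m → W} (h : ∀ᶠ z in 𝓝 y, f z = g z) : Lap x f y = Lap x g y := by
  unfold Lap
  have h1 : ∀ᶠ z in 𝓝 y, tg x f z = tg x g z := by
    filter_upwards [eventually_eventually_nhds.2 h] with z hz
    exact tg_congr hz
  rw [tg_congr h1]

section
variable {m n : ℕ} {M : Type} [TopologicalSpace M] [ChartedSpace (EuclideanSpace ℝ (Fin m)) M]

variable (m) in
def hm (x : M → EuclideanSpace ℝ (Fin n)) (p : M) : EE n := hL (xc (m := m) x p) (yc m p p)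
variable (m) in
def Fm (x : M → EuclideanSpace ℝ (Fin n)) (p : M) : ℝ := FL (xc (m := m) x p) (yc m p p)
variable (m) in
def Pm (x : M → EuclideanSpace ℝ (Fin n)) (p : M) : ℝ := PL (xc (m := m) x p) (yc m p p)
variable (m) in
def thm (x : M → EuclideanSpace ℝ (Fin n)) (p : M) : ℝ := thL (xc (m := m) x p) (yc m p p)

end

variable {m n : ℕ} {M : Type} [TopologicalSpace M] [T2Space M]
    [ChartedSpace (EuclideanSpace ℝ (Fin m)) M]
    [IsManifold (modelWithCornersSelf ℝ (EuclideanSpace ℝ (Fin m))) ((⊤ : ℕ∞) : WithTop ℕ∞) M]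


section
variable {x : M → EuclideanSpace ℝ (Fin n)}
  (hx : ContMDiff (modelWithCornersSelf ℝ (EuclideanSpace ℝ (Fin m)))
      (modelWithCornersSelf ℝ (EuclideanSpace ℝ (Fin n))) ((⊤ : ℕ∞) : WithTop ℕ∞) x)
  (hi : ∀ p : M, Function.Injective
      ⇑(fderiv ℝ (x ∘ (extChartAt (modelWithCornersSelf ℝ (EuclideanSpace ℝ (Fin m))) p).symm)
        (extChartAt (modelWithCornersSelf ℝ (EuclideanSpace ℝ (Fin m))) p p)))
include hx hi

theorem hm_trans (p : M) {q : M} (hq : q ∈ (extChartAt (modelWithCornersSelf ℝ (EuclideanSpace ℝ (Fin m))) p).source) :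
    hm m x q = hL (xc (m := m) x p) (yc m p q) := by
  have h := (hL_cc (ccM hx hi p hq)).self_of_nhds
  rw [psi_yc] at h
  exact h

theorem Fm_trans (p : M) {q : M} (hq : q ∈ (extChartAt (modelWithCornersSelf ℝ (EuclideanSpace ℝ (Fin m))) p).source) :
    Fm m x q = FL (xc (m := m) x p) (yc m p q) := by
  have h := (FL_cc (ccM hx hi p hq)).self_of_nhds
  rw [psi_yc] at h
  exact h

theorem Pm_trans (p : M) {q : M} (hq : q ∈ (extChartAt (modelWithCornersSelf ℝ (EuclideanSpace ℝ (Fin m))) p).source)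
    (h0 : hL (xc (m := m) x p) (yc m p q) ≠ 0) :
    Pm m x q = PL (xc (m := m) x p) (yc m p q) := by
  have h := (PL_cc (ccM hx hi p hq) (by rw [psi_yc]; exact h0)).self_of_nhds
  rw [psi_yc] at h
  exact h

theorem thm_trans (p : M) {q : M} (hq : q ∈ (extChartAt (modelWithCornersSelf ℝ (EuclideanSpace ℝ (Fin m))) p).source)
    (h0 : hL (xc (m := m) x p) (yc m p q) ≠ 0) (hN : NL (xc (m := m) x p) (yc m p q) ≠ 0) :
    thm m x q = thL (xc (m := m) x p) (yc m p q) := by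
  have h := (thL_cc (ccM hx hi p hq) (by rw [psi_yc]; exact h0)
    (by rw [psi_yc]; exact hN)).self_of_nhds
  rw [psi_yc] at h
  exact h

omit hx hi in
theorem yc_symm (p : M) {z : EE m} (hz : z ∈ (extChartAt (modelWithCornersSelf ℝ (EuclideanSpace ℝ (Fin m))) p).target) :
    yc m p ((extChartAt (modelWithCornersSelf ℝ (EuclideanSpace ℝ (Fin m))) p).symm z) = z := (extChartAt (modelWithCornersSelf ℝ (EuclideanSpace ℝ (Fin m))) p).right_inv hz

omit hx hi in
theorem yc_mem (p : M) : yc m p p ∈ (extChartAt (modelWithCornersSelf ℝ (EuclideanSpace ℝ (Fin m))) p).target := mem_extChartAt_target p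

/-- if the second Laplacian vanishes at the centers of the charts then `x` is biharmonic in all
charts. -/
theorem bihM (h : ∀ q : M, Lap (xc (m := m) x q) (hL (xc (m := m) x q)) (yc m q q) = 0) (p : M) :
    Bih (xc (m := m) x p) (extChartAt (modelWithCornersSelf ℝ (EuclideanSpace ℝ (Fin m))) p).target := by
  intro z hz
  have hI := immM hx hi p
  set q : M := (extChartAt (modelWithCornersSelf ℝ (EuclideanSpace ℝ (Fin m))) p).symm z with hq
  have hqs : q ∈ (extChartAt (modelWithCornersSelf ℝ (EuclideanSpace ℝ (Fin m))) p).source := (extChartAt (modelWithCornersSelf ℝ (EuclideanSpace ℝ (Fin m))) p).map_target hz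
  have hc := ccM hx hi p hqs
  have hz' : psi m p q (yc m q q) = z := by rw [psi_yc, hq, yc_symm p hz]
  have h1 : ∀ᶠ w in 𝓝 (psi m p q (yc m q q)), ContDiffAt ℝ ∞ (hL (xc (m := m) x p)) w := by
    rw [hz']
    filter_upwards [hI.isOpen.mem_nhds hz] with w hw
    exact sm_hL hI w hw
  have h2 := (Lap_cc hc h1 (hL_cc hc)).self_of_nhds
  rw [h q, hz'] at h2
  exact h2.symm

omit hx hi in
/-- continuity helper -/
theorem tendsto_yc {s : ℕ → M} {q : M} (h : Tendsto s atTop (𝓝 q)) :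
    Tendsto (fun k => yc m q (s k)) atTop (𝓝 (yc m q q)) :=
  (continuousAt_extChartAt (I := (modelWithCornersSelf ℝ (EuclideanSpace ℝ (Fin m)))) q).tendsto.comp h

omit hx hi in
theorem ev_source {s : ℕ → M} {q : M} (h : Tendsto s atTop (𝓝 q)) :
    ∀ᶠ k in atTop, s k ∈ (extChartAt (modelWithCornersSelf ℝ (EuclideanSpace ℝ (Fin m))) q).source :=
  h (extChartAt_source_mem_nhds (I := (modelWithCornersSelf ℝ (EuclideanSpace ℝ (Fin m)))) q)

end

/-- open set where `h ≠ 0`. -/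
theorem isOpen_h {x : EE m → EE n} {U : Set (EE m)} (hI : Imm x U) :
    IsOpen {y | y ∈ U ∧ hL x y ≠ 0} := by
  rw [isOpen_iff_mem_nhds]
  rintro y ⟨hy, h0⟩
  filter_upwards [hI.isOpen.mem_nhds hy, (sm_hL hI y hy).continuousAt.eventually_ne h0] with z h1 h2
  exact ⟨h1, h2⟩

theorem isOpen_N {x : EE m → EE n} {U : Set (EE m)} (hI : Imm x U) :
    IsOpen {y | y ∈ U ∧ hL x y ≠ 0 ∧ NL x y ≠ 0} := by
  have hV := isOpen_h hI
  set V := {y | y ∈ U ∧ hL x y ≠ 0} with hVdef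
  have hIV : Imm x V := hI.shrink hV fun y hy => hy.1
  rw [isOpen_iff_mem_nhds]
  rintro y ⟨hy, h0, h1⟩
  have hyV : y ∈ V := ⟨hy, h0⟩
  filter_upwards [hV.mem_nhds hyV,
    (sm_NL hIV (fun y hy => hy.2) y hyV).continuousAt.eventually_ne h1] with z h2 h3
  exact ⟨h2.1, h2.2, h3⟩

theorem FL_pos {x : EE m → EE n} {y : EE m} (h : hL x y ≠ 0) : 0 < FL x y := norm_pos_iff.2 h
theorem FL_pos' {x : EE m → EE n} {y : EE m} (h : 0 < FL x y) : hL x y ≠ 0 := norm_pos_iff.1 h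
theorem PL_pos {x : EE m → EE n} {y : EE m} (h : NL x y ≠ 0) : 0 < PL x y := norm_pos_iff.2 h
theorem PL_pos' {x : EE m → EE n} {y : EE m} (h : 0 < PL x y) : NL x y ≠ 0 := norm_pos_iff.1 h

section
variable {x : M → EuclideanSpace ℝ (Fin n)}
  (hx : ContMDiff (modelWithCornersSelf ℝ (EuclideanSpace ℝ (Fin m)))
      (modelWithCornersSelf ℝ (EuclideanSpace ℝ (Fin n))) ((⊤ : ℕ∞) : WithTop ℕ∞) x)
  (hi : ∀ p : M, Function.Injective
      ⇑(fderiv ℝ (x ∘ (extChartAt (modelWithCornersSelf ℝ (EuclideanSpace ℝ (Fin m))) p).symm)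
        (extChartAt (modelWithCornersSelf ℝ (EuclideanSpace ℝ (Fin m))) p p)))
include hx hi

/-- the set `Q` is closed and `F` is continuous on it. -/
theorem closedQ {F1 q C : ℝ} (hF1 : 0 < F1) (hq : 0 < q) (s : ℕ → M) (r : M)
    (hs : ∀ k, F1 ≤ Fm m x (s k) ∧ q * Fm m x (s k) ^ 2 ≤ Pm m x (s k) ∧
      thm m x (s k) ≤ C * Fm m x (s k)) (hr : Tendsto s atTop (𝓝 r)) :
    (F1 ≤ Fm m x r ∧ q * Fm m x r ^ 2 ≤ Pm m x r ∧ thm m x r ≤ C * Fm m x r) ∧
      Tendsto (fun k => Fm m x (s k)) atTop (𝓝 (Fm m x r)) := by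
  have hI := immM hx hi r
  have hy := tendsto_yc (m := m) hr
  have hsrc := ev_source (m := m) hr
  have hymem := yc_mem (m := m) r
  set U := (extChartAt (modelWithCornersSelf ℝ (EuclideanSpace ℝ (Fin m))) r).target with hU
  set xr := xc (m := m) x r with hxr
  have hcF : ContinuousAt (FL xr) (yc m r r) := (sm_hL hI _ hymem).continuousAt.norm
  have hF : Tendsto (fun k => Fm m x (s k)) atTop (𝓝 (Fm m x r)) := by
    refine (hcF.tendsto.comp hy).congr' ?_
    filter_upwards [hsrc] with k hk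
    exact (Fm_trans hx hi r hk).symm
  have h1 : F1 ≤ Fm m x r := ge_of_tendsto' hF fun k => (hs k).1
  have h0 : hL xr (yc m r r) ≠ 0 := FL_pos' (lt_of_lt_of_le hF1 h1)
  have hV := isOpen_h hI
  set V := {y | y ∈ U ∧ hL xr y ≠ 0} with hVdef
  have hIV : Imm xr V := hI.shrink hV fun y hy => hy.1
  have hyV : yc m r r ∈ V := ⟨hymem, h0⟩
  have h0k : ∀ᶠ k in atTop, hL xr (yc m r (s k)) ≠ 0 := by
    filter_upwards [hy.eventually (hV.mem_nhds hyV)] with k hk
    exact hk.2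
  have hcP : ContinuousAt (PL xr) (yc m r r) :=
    (sm_NL hIV (fun y hy => hy.2) _ hyV).continuousAt.norm
  have hP : Tendsto (fun k => Pm m x (s k)) atTop (𝓝 (Pm m x r)) := by
    refine (hcP.tendsto.comp hy).congr' ?_
    filter_upwards [hsrc, h0k] with k hk hk0
    exact (Pm_trans hx hi r hk hk0).symm
  have h2 : q * Fm m x r ^ 2 ≤ Pm m x r :=
    le_of_tendsto_of_tendsto' ((hF.pow 2).const_mul q) hP fun k => (hs k).2.1
  have hPr : 0 < Pm m x r := by
    have : 0 < Fm m x r := lt_of_lt_of_le hF1 h1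
    have : 0 < q * Fm m x r ^ 2 := by positivity
    linarith
  have hN : NL xr (yc m r r) ≠ 0 := PL_pos' hPr
  have hV2 := isOpen_N hI
  set V2 := {y | y ∈ U ∧ hL xr y ≠ 0 ∧ NL xr y ≠ 0} with hV2def
  have hIV2 : Imm xr V2 := hI.shrink hV2 fun y hy => hy.1
  have hyV2 : yc m r r ∈ V2 := ⟨hymem, h0, hN⟩
  have hNk : ∀ᶠ k in atTop, NL xr (yc m r (s k)) ≠ 0 := by
    filter_upwards [hy.eventually (hV2.mem_nhds hyV2)] with k hk
    exact hk.2.2
  have hcT : ContinuousAt (thL xr) (yc m r r) :=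
    (sm_thL hIV2 (fun y hy => hy.2.1) (fun y hy => hy.2.2) _ hyV2).continuousAt
  have hT : Tendsto (fun k => thm m x (s k)) atTop (𝓝 (thm m x r)) := by
    refine (hcT.tendsto.comp hy).congr' ?_
    filter_upwards [hsrc, h0k, hNk] with k hk hk0 hkN
    exact (thm_trans hx hi r hk hk0 hkN).symm
  have h3 : thm m x r ≤ C * Fm m x r :=
    le_of_tendsto_of_tendsto' hT (hF.const_mul C) fun k => (hs k).2.2
  exact ⟨⟨h1, h2, h3⟩, hF⟩

end

section
variable {x : M → EuclideanSpace ℝ (Fin (m + 1))}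
  (hx : ContMDiff (modelWithCornersSelf ℝ (EuclideanSpace ℝ (Fin m)))
      (modelWithCornersSelf ℝ (EuclideanSpace ℝ (Fin (m + 1)))) ((⊤ : ℕ∞) : WithTop ℕ∞) x)
  (hi : ∀ p : M, Function.Injective
      ⇑(fderiv ℝ (x ∘ (extChartAt (modelWithCornersSelf ℝ (EuclideanSpace ℝ (Fin m))) p).symm)
        (extChartAt (modelWithCornersSelf ℝ (EuclideanSpace ℝ (Fin m))) p p)))
  (hb : ∀ p : M, Bih (xc (m := m) x p) (extChartAt (modelWithCornersSelf ℝ
    (EuclideanSpace ℝ (Fin m))) p).target)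
include hx hi hb

/-- one step. -/
theorem stepQ {q C : ℝ} (hq : 0 < q) (hC : 0 < C) (hq2 : C * q + 2 * q ^ 2 < 1 / (m + 1))
    (hC2 : 3 / 4 * (m + 1) ≤ C ^ 2) (p : M) (h0 : 0 < Fm m x p)
    (hP : q * Fm m x p ^ 2 ≤ Pm m x p) (hth : thm m x p ≤ C * Fm m x p) :
    ∃ p' : M, ∃ ε > 0, Fm m x p ≤ Fm m x p' ∧ q * Fm m x p' ^ 2 ≤ Pm m x p' ∧
      thm m x p' ≤ C * Fm m x p' ∧ q * ε ≤ (Fm m x p)⁻¹ - (Fm m x p')⁻¹ ∧
      dM x p p' ≤ ENNReal.ofReal ε := by
  have hI := immM hx hi p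
  obtain ⟨ε, hε, γ, g0, gc, gU, gL, k1, k2, k3, k4, k5⟩ :=
    move hI (hb p) (yc_mem (m := m) p) (FL_pos' h0) hq hC hq2 hC2 hP hth
  have hεm : ε ∈ Icc (0 : ℝ) ε := ⟨hε.le, le_rfl⟩
  set Γ : ℝ → M := fun s => (extChartAt (modelWithCornersSelf ℝ (EuclideanSpace ℝ (Fin m))) p).symm (γ s) with hΓ
  have hsrc : Γ ε ∈ (extChartAt (modelWithCornersSelf ℝ (EuclideanSpace ℝ (Fin m))) p).source := (extChartAt (modelWithCornersSelf ℝ (EuclideanSpace ℝ (Fin m))) p).map_target (gU ε hεm)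
  have hyc : yc m p (Γ ε) = γ ε := yc_symm p (gU ε hεm)
  have h0' : hL (xc (m := m) x p) (yc m p (Γ ε)) ≠ 0 := by rw [hyc]; exact k1
  have eF : Fm m x (Γ ε) = FL (xc (m := m) x p) (γ ε) := by rw [Fm_trans hx hi p hsrc, hyc]
  have eP : Pm m x (Γ ε) = PL (xc (m := m) x p) (γ ε) := by rw [Pm_trans hx hi p hsrc h0', hyc]
  have hN' : NL (xc (m := m) x p) (yc m p (Γ ε)) ≠ 0 := by
    rw [hyc]
    apply PL_pos'
    have h1 := FL_pos k1
    have : 0 < q * FL (xc (m := m) x p) (γ ε) ^ 2 := by positivity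
    linarith
  have eT : thm m x (Γ ε) = thL (xc (m := m) x p) (γ ε) := by
    rw [thm_trans hx hi p hsrc h0' hN', hyc]
  refine ⟨Γ ε, ε, hε, ?_, ?_, ?_, ?_, ?_⟩
  · rw [eF]; exact k2
  · rw [eF, eP]; exact k3
  · rw [eF, eT]; exact k4
  · rw [eF]; exact k5
  · have hΓ0 : Γ 0 = p := by
      simp only [hΓ]
      rw [g0]
      exact (extChartAt (modelWithCornersSelf ℝ (EuclideanSpace ℝ (Fin m))) p).left_inv (mem_extChartAt_source p)
    have hΓc : ContinuousOn Γ (Icc 0 ε) :=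
      (continuousOn_extChartAt_symm (I := (modelWithCornersSelf ℝ (EuclideanSpace ℝ (Fin m)))) p).comp gc gU
    have h1 := dM_path x hε.le hΓc (by exact gL)
    rw [hΓ0] at h1
    exact h1

/-- the theorem, in terms of `hm`. -/
theorem hm_zero (hcomp : ∀ s : ℕ → M,
      (∀ ε : ENNReal, 0 < ε → ∃ N : ℕ, ∀ a b : ℕ, N ≤ a → N ≤ b → dM x (s a) (s b) < ε) →
      ∃ q : M, Tendsto s atTop (𝓝 q)) (p : M) : hm m x p = 0 := by
  by_contra hp
  have hI := immM hx hi p
  have hV := isOpen_h hI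
  set xp := xc (m := m) x p with hxp
  set U := (extChartAt (modelWithCornersSelf ℝ (EuclideanSpace ℝ (Fin m))) p).target with hU
  set V := {y | y ∈ U ∧ hL xp y ≠ 0} with hVdef
  have hIV : Imm xp V := hI.shrink hV fun y hy => hy.1
  have hyV : yc m p p ∈ V := ⟨yc_mem (m := m) p, hp⟩
  obtain ⟨z, hz, hNz⟩ := exists_NL_ne hIV (fun y hy => hy.2) (fun y hy => hb p y hy.1) hyV
  set r : M := (extChartAt (modelWithCornersSelf ℝ (EuclideanSpace ℝ (Fin m))) p).symm z with hr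
  have hrs : r ∈ (extChartAt (modelWithCornersSelf ℝ (EuclideanSpace ℝ (Fin m))) p).source := (extChartAt (modelWithCornersSelf ℝ (EuclideanSpace ℝ (Fin m))) p).map_target hz.1
  have hyr : yc m p r = z := yc_symm p hz.1
  have hFr : 0 < Fm m x r := by
    rw [Fm_trans hx hi p hrs, hyr]
    exact FL_pos hz.2
  have hPr : 0 < Pm m x r := by
    rw [Pm_trans hx hi p hrs (by rw [hyr]; exact hz.2), hyr]
    exact PL_pos hNz
  -- constants
  set F1 := Fm m x r with hF1
  set P1 := Pm m x r with hP1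
  set C : ℝ := max (thm m x r / F1) (m + 1) with hC
  have hm0 : (0 : ℝ) ≤ m := Nat.cast_nonneg m
  have hC1 : (m : ℝ) + 1 ≤ C := le_max_right _ _
  have hCpos : 0 < C := by linarith
  have hCth : thm m x r ≤ C * F1 := by
    rw [← div_le_iff₀ hFr]
    exact le_max_left _ _
  have hC2 : 3 / 4 * ((m : ℝ) + 1) ≤ C ^ 2 := by nlinarith
  set q : ℝ := min (P1 / F1 ^ 2) (1 / (4 * (m + 1) * (C + 1))) with hqdef
  have hden : 0 < 4 * ((m : ℝ) + 1) * (C + 1) := by positivity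
  have hq : 0 < q := lt_min (by positivity) (by positivity)
  have hqP : q * F1 ^ 2 ≤ P1 := by
    rw [← le_div_iff₀ (by positivity)]
    exact min_le_left _ _
  have hqle : q ≤ 1 / (4 * (m + 1) * (C + 1)) := min_le_right _ _
  have hq1 : q ≤ 1 := by
    refine hqle.trans ?_
    rw [div_le_one hden]
    nlinarith
  have hq2 : C * q + 2 * q ^ 2 < 1 / (m + 1) := by
    have h1 : C * q + 2 * q ^ 2 ≤ (C + 2) * q := by nlinarith
    have h2 : (C + 2) * q ≤ (C + 2) * (1 / (4 * (m + 1) * (C + 1))) :=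
      mul_le_mul_of_nonneg_left hqle (by linarith)
    have h3 : (C + 2) * (1 / (4 * ((m : ℝ) + 1) * (C + 1))) < 1 / (m + 1) := by
      rw [mul_one_div, div_lt_div_iff₀ hden (by positivity)]
      nlinarith
    linarith
  -- Caristi
  set Q : Set M := {p | F1 ≤ Fm m x p ∧ q * Fm m x p ^ 2 ≤ Pm m x p ∧
      thm m x p ≤ C * Fm m x p} with hQ
  set φ : M → ℝ := fun p => q⁻¹ * (Fm m x p)⁻¹ with hφ
  have hcar := caristi (dM x) (dM_self x) (dM_symm x) (dM_triangle x) (dM_small x hx) hcomp Q φ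
    (fun p hp => by
      have : 0 < Fm m x p := lt_of_lt_of_le hFr hp.1
      simp only [hφ]
      positivity)
    (fun s r' hs hr' => by
      obtain ⟨h1, h2⟩ := closedQ hx hi hFr hq s r' hs hr'
      exact ⟨h1, (h2.inv₀ (lt_of_lt_of_le hFr h1.1).ne').const_mul _⟩)
    (fun p hp => by
      have hFp : 0 < Fm m x p := lt_of_lt_of_le hFr hp.1
      obtain ⟨p', ε, hε, a1, a2, a3, a4, a5⟩ := stepQ hx hi hb hq hCpos hq2 hC2 p hFp hp.2.1 hp.2.2
      have h1 : ε ≤ φ p - φ p' := by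
        simp only [hφ]
        rw [← mul_sub, inv_mul_eq_div, le_div_iff₀ hq]
        linarith
      refine ⟨p', ⟨hp.1.trans a1, a2, a3⟩, by linarith, a5.trans (ENNReal.ofReal_le_ofReal h1)⟩)
  have : r ∈ Q := ⟨le_rfl, hqP, hCth⟩
  rw [hcar] at this
  exact this

end

/-- Codimension one case of the frozen statement. -/
theorem main :
  ∀ (m : ℕ) (M : Type) [TopologicalSpace M] [T2Space M]
    [ChartedSpace (EuclideanSpace ℝ (Fin m)) M]
    [IsManifold (modelWithCornersSelf ℝ (EuclideanSpace ℝ (Fin m))) ((⊤ : ℕ∞) : WithTop ℕ∞) M]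
    (x : M → EuclideanSpace ℝ (Fin (m + 1))),
    ContMDiff (modelWithCornersSelf ℝ (EuclideanSpace ℝ (Fin m)))
      (modelWithCornersSelf ℝ (EuclideanSpace ℝ (Fin (m + 1)))) ((⊤ : ℕ∞) : WithTop ℕ∞) x →
    (∀ p : M, Function.Injective
      ⇑(fderiv ℝ (x ∘ (extChartAt (modelWithCornersSelf ℝ (EuclideanSpace ℝ (Fin m))) p).symm)
        (extChartAt (modelWithCornersSelf ℝ (EuclideanSpace ℝ (Fin m))) p p))) →
    ∀ d : M → M → ENNReal,
    (d = fun p q => ⨅ γ : Path p q, eVariationOn (fun t => x (γ t)) Set.univ) →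
    (∀ s : ℕ → M,
      (∀ ε : ENNReal, 0 < ε → ∃ N : ℕ, ∀ a b : ℕ, N ≤ a → N ≤ b → d (s a) (s b) < ε) →
      ∃ q : M, Filter.Tendsto s Filter.atTop (nhds q)) →
    ∀ G : M → EuclideanSpace ℝ (Fin m) → Matrix (Fin m) (Fin m) ℝ,
    (G = fun p y => Matrix.of fun i j =>
      @inner ℝ _ _
        (fderiv ℝ (x ∘ (extChartAt (modelWithCornersSelf ℝ (EuclideanSpace ℝ (Fin m))) p).symm) y
          (EuclideanSpace.single i (1 : ℝ)))
        (fderiv ℝ (x ∘ (extChartAt (modelWithCornersSelf ℝ (EuclideanSpace ℝ (Fin m))) p).symm) y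
          (EuclideanSpace.single j (1 : ℝ)))) →
    ∀ Δ : (M → EuclideanSpace ℝ (Fin (m + 1))) → M → EuclideanSpace ℝ (Fin (m + 1)),
    (Δ = fun f p =>
      (Real.sqrt (G p (extChartAt (modelWithCornersSelf ℝ (EuclideanSpace ℝ (Fin m))) p p)).det)⁻¹ •
        ∑ i : Fin m,
          fderiv ℝ
            (fun y : EuclideanSpace ℝ (Fin m) => Real.sqrt (G p y).det •
              ∑ j : Fin m, (G p y)⁻¹ i j •
                fderiv ℝ (f ∘ (extChartAt (modelWithCornersSelf ℝ (EuclideanSpace ℝ (Fin m))) p).symm) y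
                  (EuclideanSpace.single j (1 : ℝ)))
            (extChartAt (modelWithCornersSelf ℝ (EuclideanSpace ℝ (Fin m))) p p)
            (EuclideanSpace.single i (1 : ℝ))) →
    (∀ p : M, Δ (Δ x) p = 0) → ∀ p : M, Δ x p = 0 := by
  intro m M _ _ _ _ x hx hi d hd hcomp G hG Δ hΔ hbi p
  -- the formula for `Δ`
  have key : ∀ (f : M → EuclideanSpace ℝ (Fin (m + 1))) (q : M) (g : EE m → EE (m + 1)),
      Sm g (extChartAt (modelWithCornersSelf ℝ (EuclideanSpace ℝ (Fin m))) q).target →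
      (∀ z ∈ (extChartAt (modelWithCornersSelf ℝ (EuclideanSpace ℝ (Fin m))) q).target,
        f ((extChartAt (modelWithCornersSelf ℝ (EuclideanSpace ℝ (Fin m))) q).symm z) = g z) →
      Δ f q = Lap (xc (m := m) x q) g (yc m q q) := by
    intro f q g hg hfg
    have hI := immM hx hi q
    have hfs : Sm (f ∘ (extChartAt (modelWithCornersSelf ℝ (EuclideanSpace ℝ (Fin m))) q).symm)
        (extChartAt (modelWithCornersSelf ℝ (EuclideanSpace ℝ (Fin m))) q).target := by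
      intro z hz
      refine (hg z hz).congr_of_eventuallyEq ?_
      filter_upwards [hI.isOpen.mem_nhds hz] with w hw
      exact hfg w hw
    have h1 := frozen_eq hI hfs (yc_mem (m := m) q) (G q) (by rw [hG]; rfl)
    have h2 : Lap (xc (m := m) x q)
        (f ∘ (extChartAt (modelWithCornersSelf ℝ (EuclideanSpace ℝ (Fin m))) q).symm) (yc m q q)
        = Lap (xc (m := m) x q) g (yc m q q) := by
      apply Lap_congr
      filter_upwards [hI.isOpen.mem_nhds (yc_mem (m := m) q)] with w hw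
      exact hfg w hw
    rw [← h2, ← h1, hΔ]
    rfl
  have hΔx : ∀ q, Δ x q = hm m x q := fun q =>
    key x q (xc (m := m) x q) (immM hx hi q).smooth fun z _ => rfl
  have hΔΔ : ∀ q, Lap (xc (m := m) x q) (hL (xc (m := m) x q)) (yc m q q) = 0 := by
    intro q
    have hI := immM hx hi q
    rw [← key (Δ x) q (hL (xc (m := m) x q)) (sm_hL hI) ?_]
    · exact hbi q
    · intro z hz
      rw [hΔx, hm_trans hx hi q ((extChartAt _ q).map_target hz), yc_symm q hz]
  rw [hΔx]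
  refine hm_zero hx hi (bihM hx hi hΔΔ) ?_ p
  intro s hs
  apply hcomp s
  rw [hd]
  exact hs

end BH

end
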