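import Pool.Agent.Work.MP_ac5cbe_gt.SmoothF

/-!
# Aux29 : calculus helpers used in Shape, BihEq, Vzero, ThetaA, ThetaB, ThetaC
-/

set_option autoImplicit false

open scoped RealInnerProductSpace Topology ContDiff
open Filter Set

noncomputable section

namespace BH

variable {m n : ℕ} {x : EE m → EE n} {U : Set (EE m)}
  {W : Type} [NormedAddCommGroup W] [NormedSpace ℝ W]
  {W' : Type} [NormedAddCommGroup W'] [NormedSpace ℝ W']

theorem Sm.dif {f : EE m → W} (hf : Sm f U) {y : EE m} (hy : y ∈ U) :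
    DifferentiableAt ℝ f y := (hf y hy).differentiableAt (by simp)

theorem Imm.ev (hx : Imm x U) {y : EE m} (hy : y ∈ U) : ∀ᶠ z in 𝓝 y, z ∈ U :=
  hx.isOpen.mem_nhds hy

theorem sm_J (hx : Imm x U) : Sm (fun z => fderiv ℝ x z) U := sm_fderiv hx.smooth

/-- two functions equal on `U` have the same derivative on `U` -/
theorem dcongr (hU : IsOpen U) {f g : EE m → W} (h : ∀ z ∈ U, f z = g z) {y : EE m}
    (hy : y ∈ U) (v : EE m) : fderiv ℝ f y v = fderiv ℝ g y v := by
  have : f =ᶠ[𝓝 y] g := by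
    filter_upwards [hU.mem_nhds hy] with z hz
    exact h z hz
  rw [this.fderiv_eq]

theorem dconst (c : W) (y v : EE m) : fderiv ℝ (fun _ : EE m => c) y v = 0 := by
  rw [fderiv_fun_const]
  rfl

theorem dinner {f g : EE m → EE n} {y : EE m} (hf : DifferentiableAt ℝ f y)
    (hg : DifferentiableAt ℝ g y) (v : EE m) :
    fderiv ℝ (fun z => ⟪f z, g z⟫) y v = ⟪f y, fderiv ℝ g y v⟫ + ⟪fderiv ℝ f y v, g y⟫ :=
  fderiv_inner_apply ℝ hf hg v

theorem dclm {A : EE m → (W →L[ℝ] W')} {b : EE m → W} {y : EE m} (hA : DifferentiableAt ℝ A y)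
    (hb : DifferentiableAt ℝ b y) (v : EE m) :
    fderiv ℝ (fun z => A z (b z)) y v = A y (fderiv ℝ b y v) + fderiv ℝ A y v (b y) := by
  rw [fderiv_clm_apply hA hb]
  rfl

theorem dclm_const {A : EE m → (W →L[ℝ] W')} (b : W) {y : EE m} (hA : DifferentiableAt ℝ A y)
    (v : EE m) : fderiv ℝ (fun z => A z b) y v = fderiv ℝ A y v b := by
  have := dclm hA (differentiableAt_const b) v
  rw [this, dconst, map_zero, zero_add]

theorem dsmul {f : EE m → ℝ} {g : EE m → W} {y : EE m} (hf : DifferentiableAt ℝ f y)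
    (hg : DifferentiableAt ℝ g y) (v : EE m) :
    fderiv ℝ (fun z => f z • g z) y v = f y • fderiv ℝ g y v + (fderiv ℝ f y v) • g y := by
  rw [fderiv_fun_smul hf hg]
  rfl

theorem dmul {f g : EE m → ℝ} {y : EE m} (hf : DifferentiableAt ℝ f y)
    (hg : DifferentiableAt ℝ g y) (v : EE m) :
    fderiv ℝ (fun z => f z * g z) y v = f y * fderiv ℝ g y v + (fderiv ℝ f y v) * g y := by
  exact dsmul hf hg v

theorem dadd {f g : EE m → W} {y : EE m} (hf : DifferentiableAt ℝ f y)
    (hg : DifferentiableAt ℝ g y) (v : EE m) :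
    fderiv ℝ (fun z => f z + g z) y v = fderiv ℝ f y v + fderiv ℝ g y v := by
  rw [fderiv_fun_add hf hg]
  rfl

theorem dsub {f g : EE m → W} {y : EE m} (hf : DifferentiableAt ℝ f y)
    (hg : DifferentiableAt ℝ g y) (v : EE m) :
    fderiv ℝ (fun z => f z - g z) y v = fderiv ℝ f y v - fderiv ℝ g y v := by
  rw [fderiv_fun_sub hf hg]
  rfl

theorem dneg {f : EE m → W} (y v : EE m) :
    fderiv ℝ (fun z => - f z) y v = - fderiv ℝ f y v := by
  rw [fderiv_fun_neg]
  rfl

theorem dcomp_clm (L : W →L[ℝ] W') {f : EE m → W} {y : EE m} (hf : DifferentiableAt ℝ f y)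
    (v : EE m) : fderiv ℝ (fun z => L (f z)) y v = L (fderiv ℝ f y v) := by
  have := dclm (A := fun _ : EE m => L) (differentiableAt_const L) hf v
  rw [this, dconst]
  simp

/-- symmetry of the second derivative -/
theorem dd_symm {f : EE m → W} (hf : Sm f U) {y : EE m} (hy : y ∈ U) (u v : EE m) :
    fderiv ℝ (fun z => fderiv ℝ f z) y u v = fderiv ℝ (fun z => fderiv ℝ f z) y v u := by
  have h := (hf y hy).isSymmSndFDerivAt (by
    simp only [minSmoothness_of_isRCLikeNormedField]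
    exact WithTop.coe_le_coe.2 le_top)
  exact h.eq u v

/-- decomposition in tangential and normal part -/
theorem nor_rest (hx : Imm x U) {y : EE m} (hy : y ∈ U) (a : EE n) :
    Nor x y (a - fderiv ℝ x y (pinv (fderiv ℝ x y) a)) :=
  fun v => proj_orth (hx.inj y hy) a v

/-- tangential vectors are fixed by the projection -/
theorem tan_proj (hx : Imm x U) {y : EE m} (hy : y ∈ U) {c : EE n}
    (hc : ∀ b, Nor x y b → ⟪b, c⟫ = 0) : fderiv ℝ x y (pinv (fderiv ℝ x y) c) = c := by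
  have h1 := nor_rest hx hy c
  have h2 := hc _ h1
  have h3 := h1 (pinv (fderiv ℝ x y) c)
  have h4 : ⟪c - fderiv ℝ x y (pinv (fderiv ℝ x y) c),
      c - fderiv ℝ x y (pinv (fderiv ℝ x y) c)⟫ = 0 := by
    rw [inner_sub_right, h2, h3, sub_zero]
  rw [inner_self_eq_zero, sub_eq_zero] at h4
  exact h4.symm

/-- a tangential vector orthogonal to the tangent vectors is zero -/
theorem tan_zero {y : EE m} {c : EE n} (hc : ∀ b, Nor x y b → ⟪b, c⟫ = 0)
    (hv : ∀ v, ⟪c, fderiv ℝ x y v⟫ = 0) : c = 0 := by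
  have := hc c hv
  rwa [inner_self_eq_zero] at this

/-- two vectors with the same tangential inner products and orthogonal to the normal vectors -/
theorem tan_ext {y : EE m} {c d : EE n} (hc : ∀ b, Nor x y b → ⟪b, c⟫ = 0)
    (hd : ∀ b, Nor x y b → ⟪b, d⟫ = 0)
    (hv : ∀ v, ⟪c, fderiv ℝ x y v⟫ = ⟪d, fderiv ℝ x y v⟫) : c = d := by
  rw [← sub_eq_zero]
  apply tan_zero (x := x) (y := y)
  · intro b hb
    rw [inner_sub_right, hc b hb, hd b hb, sub_zero]
  · intro v
    rw [inner_sub_left, hv v, sub_self]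

/-- the projection -/
theorem tgx_apply (y : EE m) (a : EE n) :
    tg x x y a = fderiv ℝ x y (pinv (fderiv ℝ x y) a) := rfl

theorem tg_apply (f : EE m → W) (y : EE m) (a : EE n) :
    tg x f y a = fderiv ℝ f y (pinv (fderiv ℝ x y) a) := rfl

theorem tgx_symm (hx : Imm x U) {y : EE m} (hy : y ∈ U) (a b : EE n) :
    ⟪tg x x y a, b⟫ = ⟪a, tg x x y b⟫ := proj_symm (hx.inj y hy) a b

theorem tgx_idem (hx : Imm x U) {y : EE m} (hy : y ∈ U) (a : EE n) :
    tg x x y (tg x x y a) = tg x x y a := by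
  rw [tgx_apply, tgx_apply, pinv_apply (hx.inj y hy)]

theorem tgx_nor {y : EE m} {b : EE n} (hb : Nor x y b) : tg x x y b = 0 := tg_nor x hb

/-- derivative of a family of symmetric operators -/
theorem dsymm {A : EE m → (EE n →L[ℝ] EE n)} (hU : IsOpen U) (hA : Sm A U)
    (h : ∀ z ∈ U, ∀ a b, ⟪A z a, b⟫ = ⟪a, A z b⟫) {y : EE m} (hy : y ∈ U) (u : EE m)
    (a b : EE n) : ⟪fderiv ℝ A y u a, b⟫ = ⟪a, fderiv ℝ A y u b⟫ := by
  have hd := hA.dif hy
  have h1 := dcongr hU (f := fun z => ⟪A z a, b⟫) (g := fun z => ⟪a, A z b⟫)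
    (fun z hz => h z hz a b) hy u
  rw [dinner (hd.clm_apply (differentiableAt_const a)) (differentiableAt_const b),
    dinner (differentiableAt_const a) (hd.clm_apply (differentiableAt_const b)),
    dconst, dconst, dclm_const a hd, dclm_const b hd] at h1
  simpa using h1

theorem inner_bv_sum (a b : EE n) : ∑ i : Fin n, ⟪a, bv i⟫ * ⟪bv i, b⟫ = ⟪a, b⟫ := by
  conv_rhs => rw [← sum_bv a, sum_inner]
  apply Finset.sum_congr rfl
  intro i _
  rw [real_inner_smul_left]

end BH

end
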