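import Pool.Agent.Work.MP_ac5cbe_gt.Shape
import Pool.Agent.Work.MP_ac5cbe_gt.Aux29

/-!
# Module BihEq (the two equations of a biharmonic submanifold; size M)

`h = F ν`, so `tg x h y b = ⟪N, b⟫ ν - F A b` (product rule).  Then with `J⁺ = pinv (dx)`
`Lap x h = ∑ a (D_{J⁺ e_a} (b ↦ ⟪N, b⟫ ν - F A b)) e_a
 = (∑ a ⟪D_{J⁺ e_a} N, e_a⟫) ν + ∑ a ⟪N, e_a⟫ D_{J⁺ e_a} ν - ∑ a (D_{J⁺ e_a} F) A e_a - F W
 = (div N) ν - A N - A N - F W`,  `W = ∑ a (D_{J⁺ e_a} A) e_a`,
because `∑ a ⟪N, e_a⟫ e_a = N`, `D_{J⁺ b} ν = - A b`, `∑ a (D_{J⁺ e_a} F) e_a = ∑ a ⟪N, e_a⟫ e_a = N`.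
Tangential part of `W`: `⟪W, x_v⟫ = ∑ a ⟪e_a, (D_{J⁺ e_a} A) x_v⟫ = ∑ a ⟪e_a, (D_v A) (Π e_a)⟫`
(`dA_symm`, `A_cod`, `Π = dx pinv dx`) `= tr ((D_v A) Π) = tr (D_v A) - tr ((D_v A) (1 - Π))`.
`tr (D_v A) = D_v F = ⟪N, x_v⟫` (`A_tr`).  From `A (1 - Π) = 0` near `y` (`A_nor`):
`(D_v A) (1 - Π) = A (D_v Π)`, and `A = A Π = Π A` gives
`tr (A (D_v Π)) = tr (Π A Π (D_v Π)) = tr (A Π (D_v Π) Π) = 0` because `Π (D_v Π) Π = 0` (differentiate `Π Π = Π`).
So the tangential part of `W` is `N`; `⟪W, ν⟫ = ∑ a ⟪e_a, A A Π e_a⟫ = tr (A A)` (`dA_nu`).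
`Lap x h = 0`: inner product with `x_v`: `- 2 A N - F N = 0` (both sides tangential; a tangential vector orthogonal to
all `x_v` vanishes); with `ν`: `div N = F tr (A A)`.
-/

set_option autoImplicit false

open scoped RealInnerProductSpace Topology ContDiff
open Filter Set

noncomputable section

namespace BH

variable {m n : ℕ} {x : EE m → EE n} {U : Set (EE m)}

/-- the vector `∑ a, (D_{J⁺ e_a} A) e_a` -/
private def bihW (x : EE m → EE n) (y : EE m) : EE n :=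
  ∑ a : Fin n, fderiv ℝ (AL x) y (pinv (fderiv ℝ x y) (bv a)) (bv a)

private theorem bih_nu (hx : Imm x U) {y : EE m} (hy : y ∈ U) (v : EE m) :
    fderiv ℝ (nuL x) y v = - AL x y (fderiv ℝ x y v) := by
  rw [A_J hx hy, neg_neg]

private theorem bih_nu' (y : EE m) (b : EE n) :
    fderiv ℝ (nuL x) y (pinv (fderiv ℝ x y) b) = - AL x y b := by
  unfold AL
  rw [neg_apply, neg_neg]
  rfl

private theorem bih_F' (y : EE m) (b : EE n) :
    fderiv ℝ (FL x) y (pinv (fderiv ℝ x y) b) = ⟪NL x y, b⟫ := by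
  rw [inner_NL]
  rfl

private theorem bih_G (hx : Imm x U) (h0 : ∀ y ∈ U, hL x y ≠ 0) {z : EE m} (hz : z ∈ U)
    (b : EE n) : tg x (hL x) z b = ⟪NL x z, b⟫ • nuL x z - FL x z • AL x z b := by
  rw [tg_apply, dcongr hx.isOpen (f := hL x) (g := fun z => FL x z • nuL x z)
    (fun z hz => hL_eq (h0 z hz)) hz, dsmul ((sm_FL hx h0).dif hz) ((sm_nuL hx h0).dif hz),
    bih_nu', bih_F', smul_neg]
  abel

private theorem bih_dG (hx : Imm x U) (h0 : ∀ y ∈ U, hL x y ≠ 0) {y : EE m} (hy : y ∈ U)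
    (w : EE m) (b : EE n) : fderiv ℝ (tg x (hL x)) y w b =
      ⟪fderiv ℝ (NL x) y w, b⟫ • nuL x y + ⟪NL x y, b⟫ • fderiv ℝ (nuL x) y w -
        (fderiv ℝ (FL x) y w) • AL x y b - FL x y • fderiv ℝ (AL x) y w b := by
  have hN := (sm_NL hx h0).dif hy
  have hnu := (sm_nuL hx h0).dif hy
  have hF := (sm_FL hx h0).dif hy
  have hA := (sm_AL hx h0).dif hy
  have hG := (sm_tg hx (sm_hL hx)).dif hy
  have hin : DifferentiableAt ℝ (fun z => ⟪NL x z, b⟫) y := hN.inner ℝ (differentiableAt_const b)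
  have hAb : DifferentiableAt ℝ (fun z => AL x z b) y := hA.clm_apply (differentiableAt_const b)
  rw [← dclm_const b hG w, dcongr hx.isOpen (f := fun z => tg x (hL x) z b)
    (g := fun z => ⟪NL x z, b⟫ • nuL x z - FL x z • AL x z b)
    (fun z hz => bih_G hx h0 hz b) hy,
    dsub (hin.fun_smul hnu) (hF.fun_smul hAb), dsmul hin hnu, dsmul hF hAb,
    dinner hN (differentiableAt_const b), dconst, dclm_const b hA]
  rw [inner_zero_right, zero_add]
  abel

private theorem bih_star (hx : Imm x U) (h0 : ∀ y ∈ U, hL x y ≠ 0) {y : EE m} (hy : y ∈ U)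
    (hb : Bih x U) : (tr (tg x (NL x) y)) • nuL x y - (2 : ℝ) • AL x y (NL x y) -
      FL x y • bihW x y = 0 := by
  have h1 := hb y hy
  unfold Lap at h1
  have h2 : ∀ a : Fin n, tg x (tg x (hL x)) y (bv a) (bv a) =
      ⟪tg x (NL x) y (bv a), bv a⟫ • nuL x y - (2 : ℝ) • (⟪NL x y, bv a⟫ • AL x y (bv a)) -
        FL x y • fderiv ℝ (AL x) y (pinv (fderiv ℝ x y) (bv a)) (bv a) := by
    intro a
    rw [tg_apply (tg x (hL x)), bih_dG hx h0 hy, bih_nu', bih_F', ← tg_apply (NL x), smul_neg,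
      two_smul]
    abel
  rw [Finset.sum_congr rfl fun a _ => h2 a, Finset.sum_sub_distrib, Finset.sum_sub_distrib,
    ← Finset.sum_smul, ← Finset.smul_sum, ← Finset.smul_sum] at h1
  have h3 : ∑ a : Fin n, ⟪NL x y, bv a⟫ • AL x y (bv a) = AL x y (NL x y) := by
    conv_rhs => rw [← sum_bv (NL x y), map_sum]
    apply Finset.sum_congr rfl
    intro a _
    rw [map_smul]
  rw [h3] at h1
  exact h1

private theorem bih_Api (hx : Imm x U) {y : EE m} (hy : y ∈ U) (b : EE n) :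
    AL x y (tg x x y b) = AL x y b := by
  have h1 := A_nor (nor_rest hx hy b)
  rw [map_sub, sub_eq_zero] at h1
  rw [tgx_apply, h1]

private theorem bih_piA (hx : Imm x U) (h0 : ∀ y ∈ U, hL x y ≠ 0) (hp : Par x U) {y : EE m}
    (hy : y ∈ U) (b : EE n) : tg x x y (AL x y b) = AL x y b := by
  rw [tgx_apply]
  exact tan_proj hx hy (fun c hc => A_tan hx h0 hp hy hc b)

private theorem bih_pidpi (hx : Imm x U) {y : EE m} (hy : y ∈ U) (v : EE m) (b : EE n) :
    tg x x y (fderiv ℝ (tg x x) y v (tg x x y b)) = 0 := by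
  have hP := (sm_tg hx hx.smooth).dif hy
  have hPb : DifferentiableAt ℝ (fun z => tg x x z b) y := hP.clm_apply (differentiableAt_const b)
  have h1 := dcongr hx.isOpen (f := fun z => tg x x z (tg x x z b)) (g := fun z => tg x x z b)
    (fun z hz => tgx_idem hx hz b) hy v
  rw [dclm hP hPb, dclm_const b hP] at h1
  have h2 := congrArg (tg x x y) h1
  rw [map_add, tgx_idem hx hy] at h2
  have h3 : tg x x y (fderiv ℝ (tg x x) y v (tg x x y b)) = 0 := by
    have := h2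
    rwa [add_eq_left] at this
  exact h3

private theorem bih_tr0 (hx : Imm x U) (h0 : ∀ y ∈ U, hL x y ≠ 0) (hp : Par x U) {y : EE m}
    (hy : y ∈ U) (v : EE m) : tr ((AL x y).comp (fderiv ℝ (tg x x) y v)) = 0 := by
  have h1 : (AL x y).comp (fderiv ℝ (tg x x) y v) =
      (tg x x y).comp (((AL x y).comp (tg x x y)).comp (fderiv ℝ (tg x x) y v)) := by
    ext1 b
    simp only [ContinuousLinearMap.comp_apply]
    rw [bih_Api hx hy, bih_piA hx h0 hp hy]
  rw [h1, tr_comm]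
  have h2 : (((AL x y).comp (tg x x y)).comp (fderiv ℝ (tg x x) y v)).comp (tg x x y) = 0 := by
    ext1 b
    simp only [ContinuousLinearMap.comp_apply]
    rw [bih_pidpi hx hy, map_zero]
    rfl
  rw [h2]
  unfold tr
  simp

private theorem bih_trdA (hx : Imm x U) (h0 : ∀ y ∈ U, hL x y ≠ 0) (hp : Par x U) {y : EE m}
    (hy : y ∈ U) (v : EE m) : tr (fderiv ℝ (AL x) y v) = ⟪NL x y, fderiv ℝ x y v⟫ := by
  obtain ⟨f, hf⟩ := exists_trL n
  have hA := (sm_AL hx h0).dif hy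
  have h1 := dcongr hx.isOpen (f := fun z => f (AL x z)) (g := FL x)
    (fun z hz => by rw [hf]; exact A_tr hx h0 hp hz) hy v
  rw [dcomp_clm f hA, hf, fderiv_FL hx hy] at h1
  exact h1

private theorem bih_W_tan (hx : Imm x U) (h0 : ∀ y ∈ U, hL x y ≠ 0) (hp : Par x U) {y : EE m}
    (hy : y ∈ U) (v : EE m) : ⟪bihW x y, fderiv ℝ x y v⟫ = ⟪NL x y, fderiv ℝ x y v⟫ := by
  have hA := (sm_AL hx h0).dif hy
  have hP := (sm_tg hx hx.smooth).dif hy
  have h1 : ⟪bihW x y, fderiv ℝ x y v⟫ = tr ((fderiv ℝ (AL x) y v).comp (tg x x y)) := by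
    unfold bihW tr
    rw [sum_inner]
    apply Finset.sum_congr rfl
    intro a _
    rw [dA_symm hx h0 hp hy, A_cod hx h0 hp hy, real_inner_comm]
    rfl
  have h2 : (fderiv ℝ (AL x) y v).comp (tg x x y) =
      fderiv ℝ (AL x) y v + (-1 : ℝ) • (AL x y).comp (fderiv ℝ (tg x x) y v) := by
    ext1 b
    have hPb : DifferentiableAt ℝ (fun z => tg x x z b) y :=
      hP.clm_apply (differentiableAt_const b)
    have h3 := dcongr hx.isOpen (f := fun z => AL x z (tg x x z b)) (g := fun z => AL x z b)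
      (fun z hz => bih_Api hx hz b) hy v
    rw [dclm hA hPb, dclm_const b hA, dclm_const b hP] at h3
    show fderiv ℝ (AL x) y v (tg x x y b) =
      fderiv ℝ (AL x) y v b + (-1 : ℝ) • AL x y (fderiv ℝ (tg x x) y v b)
    rw [← h3]
    simp
  rw [h1, h2, tr_add, tr_smul, bih_tr0 hx h0 hp hy, bih_trdA hx h0 hp hy]
  ring

private theorem bih_W_nu (hx : Imm x U) (h0 : ∀ y ∈ U, hL x y ≠ 0) (hp : Par x U) {y : EE m}
    (hy : y ∈ U) : ⟪bihW x y, nuL x y⟫ = tr ((AL x y).comp (AL x y)) := by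
  unfold bihW tr
  rw [sum_inner]
  apply Finset.sum_congr rfl
  intro a _
  rw [dA_symm hx h0 hp hy, dA_nu hx h0 hp hy, ← tgx_apply, bih_Api hx hy, real_inner_comm]
  rfl

theorem eqT (hx : Imm x U) (h0 : ∀ y ∈ U, hL x y ≠ 0) (hp : Par x U) (hb : Bih x U) {y : EE m}
    (hy : y ∈ U) : AL x y (NL x y) = (-(FL x y) / 2) • NL x y := by
  have h1 := bih_star hx h0 hy hb
  apply tan_ext (x := x) (y := y)
  · intro b hb'
    exact A_tan hx h0 hp hy hb' _
  · intro b hb'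
    rw [real_inner_smul_right, real_inner_comm, NL_nor hb', mul_zero]
  · intro v
    have h2 := congrArg (fun c => ⟪c, fderiv ℝ x y v⟫) h1
    simp only [inner_sub_left, real_inner_smul_left, inner_zero_left] at h2
    rw [nuL_nor hx hy v, bih_W_tan hx h0 hp hy] at h2
    rw [real_inner_smul_left]
    linarith

theorem eqN (hx : Imm x U) (h0 : ∀ y ∈ U, hL x y ≠ 0) (hp : Par x U) (hb : Bih x U) {y : EE m}
    (hy : y ∈ U) : tr (tg x (NL x) y) = FL x y * tr ((AL x y).comp (AL x y)) := by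
  have h1 := bih_star hx h0 hy hb
  have h2 := congrArg (fun c => ⟪c, nuL x y⟫) h1
  simp only [inner_sub_left, real_inner_smul_left, inner_zero_left] at h2
  have h3 : ⟪AL x y (NL x y), nuL x y⟫ = 0 := by
    rw [real_inner_comm]
    exact A_tan hx h0 hp hy (nuL_nor hx hy) _
  rw [bih_W_nu hx h0 hp hy, h3, real_inner_self_eq_norm_sq, norm_nuL (h0 y hy)] at h2
  linarith

end BH

end
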