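import Pool.Agent.Work.MP_ac5cbe_gt.SmoothF

/-!
# Module ChartInv (independence of the coordinates; size M)

`xt = x ∘ ψ` near `y`, `ψ` a local diffeomorphism.
* `tg_cc`: for `z` near `y`, `fderiv xt z = (fderiv x (ψ z)).comp (fderiv ψ z)`, the same for `ft`, and `pinv_equiv`:
  `tg xt ft z = (df ψ') ∘ (ψ'⁻¹ pinv (dx)) = tg x f (ψ z)`.  (Use `eventually_eventually_nhds`: the germ of `xt` at
  `z` is that of `x ∘ ψ`; `ψ` is continuous at `y`, so `z → ψ z` pulls back the `∀ᶠ` at `ψ y`.)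
* `Lap_cc`: apply `tg_cc` twice (`tg x f` is differentiable near `ψ y`: `f`, `x` smooth, `contDiffAt_pinv`).
* `hL_cc`: `f = x`, `ft = xt`.  Then `FL_cc`, `NL_cc`, `PL_cc`, `thL_cc` by applying `tg_cc` to `FL`, `TL` (smooth near
  `ψ y`: there is an open set around `ψ y` on which `Imm x`, `hL ≠ 0`, `NL ≠ 0` hold: `sm_FL`, `sm_TL`).
-/

set_option autoImplicit false

open scoped RealInnerProductSpace Topology ContDiff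
open Filter Set

noncomputable section

namespace BH

variable {m n : ℕ} {W : Type} [NormedAddCommGroup W] [NormedSpace ℝ W]

/-- `xt = x ∘ ψ` near `y`, and `ψ` is a change of coordinates. -/
structure CC (x xt : EE m → EE n) (ψ : EE m → EE m) (y : EE m) : Prop where
  ev : ∀ᶠ z in 𝓝 y, xt z = x (ψ z)
  smooth : ∀ᶠ z in 𝓝 y, ContDiffAt ℝ ∞ ψ z
  inv : ∀ᶠ z in 𝓝 y, (fderiv ℝ ψ z).IsInvertible
  imm : ∀ᶠ z in 𝓝 (ψ y), ContDiffAt ℝ ∞ x z ∧ Function.Injective (fderiv ℝ x z)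

variable {x xt : EE m → EE n} {ψ : EE m → EE m} {y : EE m}

theorem CC.ci_tendsto (h : CC x xt ψ y) : Tendsto ψ (𝓝 y) (𝓝 (ψ y)) :=
  h.smooth.self_of_nhds.continuousAt

theorem CC.ci_open (h : CC x xt ψ y) {p : EE m → Prop} (hp : ∀ᶠ z in 𝓝 (ψ y), p z) :
    ∃ U : Set (EE m), Imm x U ∧ ψ y ∈ U ∧ ∀ z ∈ U, p z := by
  obtain ⟨U, hU, hUo, hyU⟩ := _root_.eventually_nhds_iff.1 (h.imm.and hp)
  exact ⟨U, ⟨hUo, fun z hz => (hU z hz).1.1, fun z hz => (hU z hz).1.2⟩, hyU, fun z hz => (hU z hz).2⟩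

theorem ci_ev_of_open {U : Set (EE m)} (hU : IsOpen U) {a : EE m} (ha : a ∈ U) {p : EE m → Prop}
    (hp : ∀ z ∈ U, p z) : ∀ᶠ z in 𝓝 a, p z :=
  Filter.mem_of_superset (hU.mem_nhds ha) hp

theorem tg_cc (h : CC x xt ψ y) {f ft : EE m → W} (hf : ∀ᶠ z in 𝓝 (ψ y), DifferentiableAt ℝ f z)
    (e : ∀ᶠ z in 𝓝 y, ft z = f (ψ z)) : ∀ᶠ z in 𝓝 y, tg xt ft z = tg x f (ψ z) := by
  filter_upwards [eventually_eventually_nhds.2 h.ev, eventually_eventually_nhds.2 e, h.smooth, h.inv,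
    h.ci_tendsto.eventually h.imm, h.ci_tendsto.eventually hf] with z h1 h2 h3 h4 h5 h6
  have hψ : DifferentiableAt ℝ ψ z := h3.differentiableAt (by simp)
  have hx : DifferentiableAt ℝ x (ψ z) := h5.1.differentiableAt (by simp)
  have e1 : fderiv ℝ xt z = (fderiv ℝ x (ψ z)).comp (fderiv ℝ ψ z) := by
    have : xt =ᶠ[𝓝 z] x ∘ ψ := h1
    rw [this.fderiv_eq, fderiv_comp z hx hψ]
  have e2 : fderiv ℝ ft z = (fderiv ℝ f (ψ z)).comp (fderiv ℝ ψ z) := by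
    have : ft =ᶠ[𝓝 z] f ∘ ψ := h2
    rw [this.fderiv_eq, fderiv_comp z h6 hψ]
  obtain ⟨E, hE⟩ := h4
  unfold tg
  rw [e1, e2, ← hE, pinv_equiv h5.2 E]
  ext v
  simp

theorem ci_ev_tg (h : CC x xt ψ y) {f : EE m → W} (hf : ∀ᶠ z in 𝓝 (ψ y), ContDiffAt ℝ ∞ f z) :
    ∀ᶠ z in 𝓝 (ψ y), ContDiffAt ℝ ∞ (tg x f) z := by
  obtain ⟨U, hU, hy, hUf⟩ := h.ci_open hf
  exact ci_ev_of_open hU.isOpen hy (sm_tg hU hUf)

theorem ci_ev_diff {f : EE m → W} {a : EE m} (hf : ∀ᶠ z in 𝓝 a, ContDiffAt ℝ ∞ f z) :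
    ∀ᶠ z in 𝓝 a, DifferentiableAt ℝ f z :=
  hf.mono fun z hz => hz.differentiableAt (by simp)

theorem Lap_cc (h : CC x xt ψ y) {f ft : EE m → W} (hf : ∀ᶠ z in 𝓝 (ψ y), ContDiffAt ℝ ∞ f z)
    (e : ∀ᶠ z in 𝓝 y, ft z = f (ψ z)) : ∀ᶠ z in 𝓝 y, Lap xt ft z = Lap x f (ψ z) := by
  have h1 := tg_cc h (ci_ev_diff hf) e
  have h2 := tg_cc h (ci_ev_diff (ci_ev_tg h hf)) h1
  filter_upwards [h2] with z hz
  simp only [Lap, hz]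

theorem hL_cc (h : CC x xt ψ y) : ∀ᶠ z in 𝓝 y, hL xt z = hL x (ψ z) :=
  Lap_cc h (h.imm.mono fun _ hz => hz.1) h.ev

theorem FL_cc (h : CC x xt ψ y) : ∀ᶠ z in 𝓝 y, FL xt z = FL x (ψ z) := by
  filter_upwards [hL_cc h] with z hz
  simp only [FL, hz]

theorem CC.ci_ne (h : CC x xt ψ y) (h0 : hL x (ψ y) ≠ 0) :
    ∃ U : Set (EE m), Imm x U ∧ ψ y ∈ U ∧ ∀ z ∈ U, hL x z ≠ 0 := by
  obtain ⟨U, hU, hy, -⟩ := h.ci_open (p := fun _ => True) (by simp)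
  have hc : ContinuousAt (hL x) (ψ y) := (sm_hL hU _ hy).continuousAt
  exact h.ci_open (hc.eventually_ne h0)

theorem CC.ci_ne2 (h : CC x xt ψ y) (h0 : hL x (ψ y) ≠ 0) (hN : NL x (ψ y) ≠ 0) :
    ∃ U : Set (EE m), Imm x U ∧ ψ y ∈ U ∧ (∀ z ∈ U, hL x z ≠ 0) ∧ ∀ z ∈ U, NL x z ≠ 0 := by
  obtain ⟨U, hU, hy, hU0⟩ := h.ci_ne h0
  have hc : ContinuousAt (NL x) (ψ y) := (sm_NL hU hU0 _ hy).continuousAt
  obtain ⟨V, hV, hyV, hV0⟩ := h.ci_open (p := fun z => hL x z ≠ 0 ∧ NL x z ≠ 0)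
    ((ci_ev_of_open hU.isOpen hy hU0).and (hc.eventually_ne hN))
  exact ⟨V, hV, hyV, fun z hz => (hV0 z hz).1, fun z hz => (hV0 z hz).2⟩

theorem NL_cc (h : CC x xt ψ y) (h0 : hL x (ψ y) ≠ 0) : ∀ᶠ z in 𝓝 y, NL xt z = NL x (ψ z) := by
  obtain ⟨U, hU, hy, hU0⟩ := h.ci_ne h0
  have h1 : ∀ᶠ z in 𝓝 (ψ y), ContDiffAt ℝ ∞ (FL x) z := ci_ev_of_open hU.isOpen hy (sm_FL hU hU0)
  filter_upwards [tg_cc h (ci_ev_diff h1) (FL_cc h)] with z hz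
  simp only [NL, hz]

theorem PL_cc (h : CC x xt ψ y) (h0 : hL x (ψ y) ≠ 0) : ∀ᶠ z in 𝓝 y, PL xt z = PL x (ψ z) := by
  filter_upwards [NL_cc h h0] with z hz
  simp only [PL, hz]

theorem thL_cc (h : CC x xt ψ y) (h0 : hL x (ψ y) ≠ 0) (hN : NL x (ψ y) ≠ 0) :
    ∀ᶠ z in 𝓝 y, thL xt z = thL x (ψ z) := by
  obtain ⟨U, hU, hy, hU0, hUN⟩ := h.ci_ne2 h0 hN
  have h1 : ∀ᶠ z in 𝓝 (ψ y), ContDiffAt ℝ ∞ (TL x) z := ci_ev_of_open hU.isOpen hy (sm_TL hU hU0 hUN)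
  have h2 : ∀ᶠ z in 𝓝 y, TL xt z = TL x (ψ z) := by
    filter_upwards [NL_cc h h0, PL_cc h h0] with z hz hz'
    simp only [TL, hz, hz']
  filter_upwards [tg_cc h (ci_ev_diff h1) h2] with z hz
  simp only [thL, SL, hz]

end BH

end
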