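import Pool.Agent.Work.MP_ac5cbe_gt.ChartInv

/-!
# Module ChartM (charts of the manifold; size M)

`xc x p = x ∘ (extChartAt p).symm`.  For `q` in the chart domain at `p`, `ψ = extChartAt p ∘ (extChartAt q).symm` is smooth
near `extChartAt q q` with smooth local inverse `extChartAt q ∘ (extChartAt p).symm` near `extChartAt p q`
(`contDiffOn_extChartAt_symm_trans` / `contDiffWithinAt_ext_coord_change`, model without boundary), and `xc x q = xc x p ∘ ψ`
near `extChartAt q q`.
* `immM_smooth`: `xc x p` is smooth on the target (`ContMDiff`, `contMDiffOn_extChartAt_symm`).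
* `immM`: injectivity at `z = extChartAt p q`: by hypothesis `fderiv (xc x q) (extChartAt q q) = fderiv (xc x p) z ∘ fderiv ψ`
  is injective and `fderiv ψ` is invertible.
* `ccM`: all fields.
-/

set_option autoImplicit false

open scoped RealInnerProductSpace Topology ContDiff
open Filter Set

noncomputable section

namespace BH

variable {m n : ℕ} {M : Type} [TopologicalSpace M] [T2Space M]
    [ChartedSpace (EuclideanSpace ℝ (Fin m)) M]
    [IsManifold (modelWithCornersSelf ℝ (EuclideanSpace ℝ (Fin m))) ((⊤ : ℕ∞) : WithTop ℕ∞) M]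

/-- the immersion in the chart at `p` -/
def xc (x : M → EuclideanSpace ℝ (Fin n)) (p : M) : EE m → EE n :=
  x ∘ (extChartAt (modelWithCornersSelf ℝ (EuclideanSpace ℝ (Fin m))) p).symm

/-- coordinates of `q` in the chart at `p` -/
def yc (m : ℕ) {M : Type} [TopologicalSpace M] [ChartedSpace (EuclideanSpace ℝ (Fin m)) M]
    (p q : M) : EE m :=
  extChartAt (modelWithCornersSelf ℝ (EuclideanSpace ℝ (Fin m))) p q

/-- change of charts -/
def psi (m : ℕ) {M : Type} [TopologicalSpace M] [ChartedSpace (EuclideanSpace ℝ (Fin m)) M]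
    (p q : M) : EE m → EE m :=
  extChartAt (modelWithCornersSelf ℝ (EuclideanSpace ℝ (Fin m))) p ∘
    (extChartAt (modelWithCornersSelf ℝ (EuclideanSpace ℝ (Fin m))) q).symm

omit [T2Space M] in
theorem cm_psi_smooth (p q r : M)
    (hp : r ∈ (extChartAt (modelWithCornersSelf ℝ (EuclideanSpace ℝ (Fin m))) p).source)
    (hq : r ∈ (extChartAt (modelWithCornersSelf ℝ (EuclideanSpace ℝ (Fin m))) q).source) :
    ContDiffAt ℝ ∞ (psi m p q) (yc m q r) := by
  have h := contDiffWithinAt_ext_coord_change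
    (I := modelWithCornersSelf ℝ (EuclideanSpace ℝ (Fin m))) (n := ((⊤ : ℕ∞) : WithTop ℕ∞)) p q
    (y := yc m q r) (by
      rw [PartialEquiv.trans_source, PartialEquiv.symm_source]
      refine ⟨(extChartAt _ q).map_source hq, ?_⟩
      rw [mem_preimage]
      unfold yc
      rw [(extChartAt _ q).left_inv hq]
      exact hp)
  rw [modelWithCornersSelf_coe, range_id, contDiffWithinAt_univ] at h
  exact h

omit [T2Space M] [IsManifold (modelWithCornersSelf ℝ (EuclideanSpace ℝ (Fin m))) ((⊤ : ℕ∞) : WithTop ℕ∞) M] in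
/-- for `z` near `yc q r`: `z` is in the target of the chart at `q`, and the point is in the chart domain at `p` -/
theorem cm_ev (p q r : M)
    (hp : r ∈ (extChartAt (modelWithCornersSelf ℝ (EuclideanSpace ℝ (Fin m))) p).source)
    (hq : r ∈ (extChartAt (modelWithCornersSelf ℝ (EuclideanSpace ℝ (Fin m))) q).source) :
    ∀ᶠ z in 𝓝 (yc m q r), z ∈ (extChartAt (modelWithCornersSelf ℝ (EuclideanSpace ℝ (Fin m))) q).target ∧
      (extChartAt (modelWithCornersSelf ℝ (EuclideanSpace ℝ (Fin m))) q).symm z ∈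
        (extChartAt (modelWithCornersSelf ℝ (EuclideanSpace ℝ (Fin m))) p).source := by
  have h1 : (extChartAt (modelWithCornersSelf ℝ (EuclideanSpace ℝ (Fin m))) q).target ∈ 𝓝 (yc m q r) :=
    (isOpen_extChartAt_target q).mem_nhds ((extChartAt _ q).map_source hq)
  have h2 : ContinuousAt (extChartAt (modelWithCornersSelf ℝ (EuclideanSpace ℝ (Fin m))) q).symm (yc m q r) :=
    continuousAt_extChartAt_symm' hq
  have h3 : (extChartAt (modelWithCornersSelf ℝ (EuclideanSpace ℝ (Fin m))) q).symm (yc m q r) = r :=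
    (extChartAt _ q).left_inv hq
  have h4 : (extChartAt (modelWithCornersSelf ℝ (EuclideanSpace ℝ (Fin m))) p).source ∈
      𝓝 ((extChartAt (modelWithCornersSelf ℝ (EuclideanSpace ℝ (Fin m))) q).symm (yc m q r)) := by
    rw [h3]; exact (isOpen_extChartAt_source p).mem_nhds hp
  filter_upwards [h1, h2 h4] with z hz1 hz2
  exact ⟨hz1, hz2⟩

omit [T2Space M] [IsManifold (modelWithCornersSelf ℝ (EuclideanSpace ℝ (Fin m))) ((⊤ : ℕ∞) : WithTop ℕ∞) M] in
theorem cm_psi_psi (p q r : M)
    (hp : r ∈ (extChartAt (modelWithCornersSelf ℝ (EuclideanSpace ℝ (Fin m))) p).source)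
    (hq : r ∈ (extChartAt (modelWithCornersSelf ℝ (EuclideanSpace ℝ (Fin m))) q).source) :
    ∀ᶠ z in 𝓝 (yc m q r), psi m q p (psi m p q z) = z := by
  filter_upwards [cm_ev p q r hp hq] with z hz
  unfold psi
  simp only [Function.comp_apply]
  rw [(extChartAt _ p).left_inv hz.2, (extChartAt _ q).right_inv hz.1]

omit [T2Space M] [IsManifold (modelWithCornersSelf ℝ (EuclideanSpace ℝ (Fin m))) ((⊤ : ℕ∞) : WithTop ℕ∞) M] in
theorem cm_psi_yc (p q r : M)
    (hq : r ∈ (extChartAt (modelWithCornersSelf ℝ (EuclideanSpace ℝ (Fin m))) q).source) :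
    psi m p q (yc m q r) = yc m p r := by
  unfold psi yc
  simp only [Function.comp_apply]
  rw [(extChartAt _ q).left_inv hq]

omit [T2Space M] in
theorem cm_inv (p q r : M)
    (hp : r ∈ (extChartAt (modelWithCornersSelf ℝ (EuclideanSpace ℝ (Fin m))) p).source)
    (hq : r ∈ (extChartAt (modelWithCornersSelf ℝ (EuclideanSpace ℝ (Fin m))) q).source) :
    (fderiv ℝ (psi m p q) (yc m q r)).IsInvertible := by
  have d1 : DifferentiableAt ℝ (psi m p q) (yc m q r) :=
    (cm_psi_smooth p q r hp hq).differentiableAt (by simp)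
  have d2 : DifferentiableAt ℝ (psi m q p) (yc m p r) :=
    (cm_psi_smooth q p r hq hp).differentiableAt (by simp)
  have e1 : (fderiv ℝ (psi m q p) (yc m p r)).comp (fderiv ℝ (psi m p q) (yc m q r)) =
      ContinuousLinearMap.id ℝ (EE m) := by
    have h : psi m q p ∘ psi m p q =ᶠ[𝓝 (yc m q r)] id := cm_psi_psi p q r hp hq
    rw [← fderiv_id (𝕜 := ℝ) (x := yc m q r), ← h.fderiv_eq, fderiv_comp _ (by rw [cm_psi_yc p q r hq]; exact d2) d1,
      cm_psi_yc p q r hq]
  have e2 : (fderiv ℝ (psi m p q) (yc m q r)).comp (fderiv ℝ (psi m q p) (yc m p r)) =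
      ContinuousLinearMap.id ℝ (EE m) := by
    have h : psi m p q ∘ psi m q p =ᶠ[𝓝 (yc m p r)] id := cm_psi_psi q p r hq hp
    rw [← fderiv_id (𝕜 := ℝ) (x := yc m p r), ← h.fderiv_eq, fderiv_comp _ (by rw [cm_psi_yc q p r hp]; exact d1) d2,
      cm_psi_yc q p r hp]
  exact ⟨ContinuousLinearEquiv.equivOfInverse _ _
    (fun v => by simpa using congrArg (fun L : EE m →L[ℝ] EE m => L v) e1)
    (fun v => by simpa using congrArg (fun L : EE m →L[ℝ] EE m => L v) e2), rfl⟩

variable {x : M → EuclideanSpace ℝ (Fin n)}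

omit [T2Space M] [IsManifold (modelWithCornersSelf ℝ (EuclideanSpace ℝ (Fin m))) ((⊤ : ℕ∞) : WithTop ℕ∞) M] in
theorem cm_xc_psi (p q r : M)
    (hp : r ∈ (extChartAt (modelWithCornersSelf ℝ (EuclideanSpace ℝ (Fin m))) p).source)
    (hq : r ∈ (extChartAt (modelWithCornersSelf ℝ (EuclideanSpace ℝ (Fin m))) q).source) :
    ∀ᶠ z in 𝓝 (yc m q r), xc (m := m) x q z = xc (m := m) x p (psi m p q z) := by
  filter_upwards [cm_ev p q r hp hq] with z hz
  unfold psi xc
  simp only [Function.comp_apply]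
  rw [(extChartAt _ p).left_inv hz.2]

variable
  (hx : ContMDiff (modelWithCornersSelf ℝ (EuclideanSpace ℝ (Fin m)))
      (modelWithCornersSelf ℝ (EuclideanSpace ℝ (Fin n))) ((⊤ : ℕ∞) : WithTop ℕ∞) x)
  (hi : ∀ p : M, Function.Injective
      ⇑(fderiv ℝ (x ∘ (extChartAt (modelWithCornersSelf ℝ (EuclideanSpace ℝ (Fin m))) p).symm)
        (extChartAt (modelWithCornersSelf ℝ (EuclideanSpace ℝ (Fin m))) p p)))

include hx in
omit [T2Space M] in
theorem cm_smooth (p : M) : Sm (xc (m := m) x p)
    (extChartAt (modelWithCornersSelf ℝ (EuclideanSpace ℝ (Fin m))) p).target := by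
  have h : ContDiffOn ℝ ∞ (xc (m := m) x p)
      (extChartAt (modelWithCornersSelf ℝ (EuclideanSpace ℝ (Fin m))) p).target := by
    rw [← contMDiffOn_iff_contDiffOn]
    exact hx.comp_contMDiffOn (contMDiffOn_extChartAt_symm p)
  exact fun y hy => h.contDiffAt ((isOpen_extChartAt_target p).mem_nhds hy)

include hx hi

theorem immM (p : M) : Imm (xc (m := m) x p)
    (extChartAt (modelWithCornersSelf ℝ (EuclideanSpace ℝ (Fin m))) p).target := by
  refine ⟨isOpen_extChartAt_target p, cm_smooth hx p, fun y hy => ?_⟩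
  set q : M := (extChartAt (modelWithCornersSelf ℝ (EuclideanSpace ℝ (Fin m))) p).symm y with hq
  have hqp : q ∈ (extChartAt (modelWithCornersSelf ℝ (EuclideanSpace ℝ (Fin m))) p).source :=
    (extChartAt _ p).map_target hy
  have hqq : q ∈ (extChartAt (modelWithCornersSelf ℝ (EuclideanSpace ℝ (Fin m))) q).source :=
    mem_extChartAt_source q
  have hy2 : yc m p q = y := (extChartAt _ p).right_inv hy
  have hinj : Function.Injective (fderiv ℝ (xc (m := m) x q) (yc m q q)) := hi q
  have h1 : xc (m := m) x q =ᶠ[𝓝 (yc m q q)] xc (m := m) x p ∘ psi m p q := cm_xc_psi p q q hqp hqq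
  have d1 : DifferentiableAt ℝ (psi m p q) (yc m q q) :=
    (cm_psi_smooth p q q hqp hqq).differentiableAt (by simp)
  have d2 : DifferentiableAt ℝ (xc (m := m) x p) y := (cm_smooth hx p y hy).differentiableAt (by simp)
  rw [h1.fderiv_eq, fderiv_comp _ (by rw [cm_psi_yc p q q hqq, hy2]; exact d2) d1,
    cm_psi_yc p q q hqq, hy2] at hinj
  obtain ⟨E, hE⟩ := cm_inv p q q hqp hqq
  rw [← hE] at hinj
  intro a b hab
  have := @hinj (E.symm a) (E.symm b) (by simpa using hab)
  exact E.symm.injective this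

theorem ccM (p : M) {q : M}
    (hq : q ∈ (extChartAt (modelWithCornersSelf ℝ (EuclideanSpace ℝ (Fin m))) p).source) :
    CC (xc (m := m) x p) (xc (m := m) x q) (psi m p q) (yc m q q) := by
  have hqq : q ∈ (extChartAt (modelWithCornersSelf ℝ (EuclideanSpace ℝ (Fin m))) q).source :=
    mem_extChartAt_source q
  refine ⟨cm_xc_psi p q q hq hqq, ?_, ?_, ?_⟩
  · filter_upwards [cm_ev p q q hq hqq] with z hz
    have hr := (extChartAt (modelWithCornersSelf ℝ (EuclideanSpace ℝ (Fin m))) q).right_inv hz.1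
    have := cm_psi_smooth (m := m) p q _ hz.2 ((extChartAt _ q).map_target hz.1)
    unfold yc at this
    rwa [hr] at this
  · filter_upwards [cm_ev p q q hq hqq] with z hz
    have hr := (extChartAt (modelWithCornersSelf ℝ (EuclideanSpace ℝ (Fin m))) q).right_inv hz.1
    have := cm_inv (m := m) p q _ hz.2 ((extChartAt _ q).map_target hz.1)
    unfold yc at this
    rwa [hr] at this
  · have hI := immM hx hi p
    rw [cm_psi_yc p q q hqq]
    have : yc m p q ∈ (extChartAt (modelWithCornersSelf ℝ (EuclideanSpace ℝ (Fin m))) p).target :=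
      (extChartAt _ p).map_source hq
    filter_upwards [hI.isOpen.mem_nhds this] with z hz
    exact ⟨hI.smooth z hz, hI.inj z hz⟩

omit hx hi in
theorem psi_yc (p q : M) : psi m p q (yc m q q) = yc m p q :=
  cm_psi_yc p q q (mem_extChartAt_source q)

end BH

end
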