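import Mathlib

/-!
# MP_ac5cbe_gt : complete biharmonic hypersurfaces are minimal.  DEFINITIONS (fixed)

Everything local is done for a map `x : EE m → EE n` (an immersion in a chart), on an open set `U`.
`pinv L` is the pseudo-inverse of an injective linear map, `tg x f y` is the tangential derivative of
`f` (a linear map on the ambient space which kills the normal vectors), and
`Lap x f y = ∑ a, (∇̂ ∇̂ f)(e_a) e_a` is the Laplace-Beltrami operator of the induced metric.
-/

set_option autoImplicit false

open scoped RealInnerProductSpace Topology ContDiff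
open Filter Set

noncomputable section

namespace BH

/-- Euclidean space -/
abbrev EE (n : ℕ) : Type := EuclideanSpace ℝ (Fin n)

/-- standard basis vector -/
abbrev bv {n : ℕ} (a : Fin n) : EE n := EuclideanSpace.single a (1 : ℝ)

section
variable {m n : ℕ} {W : Type} [NormedAddCommGroup W] [NormedSpace ℝ W]

/-- pseudo-inverse `(L† L)⁻¹ L†` -/
def pinv (L : EE m →L[ℝ] EE n) : EE n →L[ℝ] EE m :=
  ((ContinuousLinearMap.adjoint L).comp L).inverse.comp (ContinuousLinearMap.adjoint L)

/-- trace -/
def tr (A : EE n →L[ℝ] EE n) : ℝ := ∑ a : Fin n, ⟪A (bv a), bv a⟫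

/-- tangential derivative -/
def tg (x : EE m → EE n) (f : EE m → W) (y : EE m) : EE n →L[ℝ] W :=
  (fderiv ℝ f y).comp (pinv (fderiv ℝ x y))

/-- Laplace-Beltrami operator -/
def Lap (x : EE m → EE n) (f : EE m → W) (y : EE m) : W :=
  ∑ a : Fin n, tg x (tg x f) y (bv a) (bv a)

/-- `f` is smooth on `U` (`U` open) -/
def Sm (f : EE m → W) (U : Set (EE m)) : Prop := ∀ y ∈ U, ContDiffAt ℝ ∞ f y

end

variable {m n : ℕ}

/-- `x` is a smooth immersion on the open set `U` -/
structure Imm (x : EE m → EE n) (U : Set (EE m)) : Prop where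
  isOpen : IsOpen U
  smooth : Sm x U
  inj : ∀ y ∈ U, Function.Injective (fderiv ℝ x y)

/-- normal vectors -/
def Nor (x : EE m → EE n) (y : EE m) (b : EE n) : Prop := ∀ v, ⟪b, fderiv ℝ x y v⟫ = 0

/-- `Δ x` (the mean curvature vector times `m`) -/
def hL (x : EE m → EE n) : EE m → EE n := Lap x x

/-- its length -/
def FL (x : EE m → EE n) (y : EE m) : ℝ := ‖hL x y‖

/-- unit normal -/
def nuL (x : EE m → EE n) (y : EE m) : EE n := (FL x y)⁻¹ • hL x y

/-- `ν` is parallel in the normal bundle (automatic in codimension one) -/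
def Par (x : EE m → EE n) (U : Set (EE m)) : Prop :=
  ∀ y ∈ U, ∀ b, Nor x y b → ∀ v, ⟪b, fderiv ℝ (nuL x) y v⟫ = 0

/-- shape operator, extended by zero on the normal space -/
def AL (x : EE m → EE n) (y : EE m) : EE n →L[ℝ] EE n := - tg x (nuL x) y

/-- gradient of `F` -/
def NL (x : EE m → EE n) (y : EE m) : EE n :=
  (InnerProductSpace.toDual ℝ (EE n)).symm (tg x (FL x) y)

/-- its length -/
def PL (x : EE m → EE n) (y : EE m) : ℝ := ‖NL x y‖

/-- unit vector in the direction of the gradient -/
def TL (x : EE m → EE n) (y : EE m) : EE n := (PL x y)⁻¹ • NL x y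

/-- its tangential derivative -/
def SL (x : EE m → EE n) (y : EE m) : EE n →L[ℝ] EE n := tg x (TL x) y

/-- divergence of `T` -/
def thL (x : EE m → EE n) (y : EE m) : ℝ := tr (SL x y)

/-- the vector of the chart with `dx e = T` -/
def eL (x : EE m → EE n) (y : EE m) : EE m := pinv (fderiv ℝ x y) (TL x y)

/-- `x` is biharmonic on `U` -/
def Bih (x : EE m → EE n) (U : Set (EE m)) : Prop := ∀ y ∈ U, Lap x (hL x) y = 0

end BH

end
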