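import Pool.Agent.Work.MP_ac5cbe_gt.Defs

/-!
# Module DistM (the length distance of an immersed manifold; size M)

* `dM_self`: constant path, `eVariationOn` of a constant is zero.
* `dM_symm`: `Path.symm`; the variation of a reversed function (`eVariationOn.comp_eq_of_antitoneOn`).
* `dM_triangle`: `Path.trans`; additivity of the variation over `[0,1/2]`, `[1/2,1]` (`eVariationOn.union`,
  `eVariationOn.comp_le_of_monotoneOn`), `ENNReal.iInf_add` etc.
* `dM_path`: the path `t ↦ γ (ε t)`; the variation of a 1-Lipschitz function on `[0, ε]` is at most `ε`.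
-/

set_option autoImplicit false

open scoped RealInnerProductSpace Topology ContDiff
open Filter Set

noncomputable section

namespace BH

/-- length distance -/
def dM {M : Type} [TopologicalSpace M] {n : ℕ} (x : M → EE n) (p q : M) : ENNReal :=
  ⨅ γ : Path p q, eVariationOn (fun t => x (γ t)) Set.univ

section
variable {M : Type} [TopologicalSpace M] {n : ℕ} (x : M → EE n)

theorem dM_self (p : M) : dM x p p = 0 := by
  refine le_antisymm ((iInf_le _ (Path.refl p)).trans (le_of_eq ?_)) zero_le
  apply eVariationOn.constant_on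
  rintro _ ⟨s, -, rfl⟩ _ ⟨t, -, rfl⟩
  simp

private theorem dM_symm_le (p q : M) : dM x p q ≤ dM x q p := by
  unfold dM
  refine le_iInf fun γ => (iInf_le _ γ.symm).trans (le_of_eq ?_)
  have h := eVariationOn.comp_eq_of_antitoneOn (fun t => x (γ t)) (t := Set.univ) unitInterval.symm
    (by
      intro a _ b _ hab
      exact unitInterval.symm_le_symm.2 hab)
  have h2 : unitInterval.symm '' Set.univ = Set.univ := by
    rw [Set.image_univ]
    exact unitInterval.symm_bijective.surjective.range_eq
  rw [h2] at h
  exact h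

theorem dM_symm (p q : M) : dM x p q = dM x q p :=
  le_antisymm (dM_symm_le x p q) (dM_symm_le x q p)

private theorem dM_trans {p q r : M} (γ : Path p q) (γ' : Path q r) :
    eVariationOn (fun t => x ((γ.trans γ') t)) Set.univ ≤
      eVariationOn (fun t => x (γ t)) Set.univ + eVariationOn (fun t => x (γ' t)) Set.univ := by
  set c : unitInterval := ⟨1 / 2, by norm_num, by norm_num⟩ with hc
  have hu : (Set.univ : Set unitInterval) = Set.Iic c ∪ Set.Ici c := by
    ext t
    simp only [Set.mem_univ, Set.mem_union, Set.mem_Iic, Set.mem_Ici, true_iff]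
    exact le_total t c
  have h0 : eVariationOn (fun t => x ((γ.trans γ') t)) Set.univ =
      eVariationOn (fun t => x ((γ.trans γ') t)) (Set.Iic c) +
      eVariationOn (fun t => x ((γ.trans γ') t)) (Set.Ici c) := by
    rw [hu]
    exact eVariationOn.union _ isGreatest_Iic isLeast_Ici
  rw [h0]
  refine add_le_add ?_ ?_
  · set φ : unitInterval → unitInterval := fun t => Set.projIcc 0 1 zero_le_one (2 * (t : ℝ)) with hφ
    have hm : MonotoneOn φ (Set.Iic c) := by
      intro a _ b _ hab
      apply Set.monotone_projIcc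
      have : (a : ℝ) ≤ b := hab
      linarith
    have hE : Set.EqOn (fun t => x ((γ.trans γ') t)) ((fun t => x (γ t)) ∘ φ) (Set.Iic c) := by
      intro t ht
      have ht' : (t : ℝ) ≤ 1 / 2 := ht
      simp only [Function.comp]
      rw [Path.trans_apply, dif_pos ht']
      congr 2
      rw [hφ]
      simp only
      rw [Set.projIcc_of_mem]
    rw [eVariationOn.eq_of_eqOn hE]
    exact eVariationOn.comp_le_of_monotoneOn _ φ hm (fun _ _ => Set.mem_univ _)
  · set φ : unitInterval → unitInterval := fun t => Set.projIcc 0 1 zero_le_one (2 * (t : ℝ) - 1) with hφ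
    have hm : MonotoneOn φ (Set.Ici c) := by
      intro a _ b _ hab
      apply Set.monotone_projIcc
      have : (a : ℝ) ≤ b := hab
      linarith
    have hE : Set.EqOn (fun t => x ((γ.trans γ') t)) ((fun t => x (γ' t)) ∘ φ) (Set.Ici c) := by
      intro t ht
      have ht' : 1 / 2 ≤ (t : ℝ) := ht
      simp only [Function.comp]
      rw [Path.trans_apply]
      split_ifs with h
      · have h3 : (t : ℝ) = 1 / 2 := le_antisymm h ht'
        have e1 : (⟨2 * (t : ℝ), (unitInterval.mul_pos_mem_iff zero_lt_two).2 ⟨t.2.1, h⟩⟩ : unitInterval) = 1 := by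
          apply Subtype.ext
          simp [h3]
        have e2 : φ t = 0 := by
          rw [hφ]
          simp only [h3]
          apply Subtype.ext
          simp [Set.projIcc]
        rw [e1, e2, γ.target, γ'.source]
      · congr 2
        rw [hφ]
        simp only
        rw [Set.projIcc_of_mem]
    rw [eVariationOn.eq_of_eqOn hE]
    exact eVariationOn.comp_le_of_monotoneOn _ φ hm (fun _ _ => Set.mem_univ _)

theorem dM_triangle (p q r : M) : dM x p r ≤ dM x p q + dM x q r := by
  unfold dM
  rw [ENNReal.iInf_add]
  refine le_iInf fun γ => ?_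
  rw [ENNReal.add_iInf]
  refine le_iInf fun γ' => ?_
  exact (iInf_le _ (γ.trans γ')).trans (dM_trans x γ γ')

theorem dM_path {γ : ℝ → M} {ε : ℝ} (hε : 0 ≤ ε) (hc : ContinuousOn γ (Icc 0 ε))
    (hl : LipschitzOnWith 1 (fun s => x (γ s)) (Icc 0 ε)) :
    dM x (γ 0) (γ ε) ≤ ENNReal.ofReal ε := by
  have hmem : ∀ t : unitInterval, ε * (t : ℝ) ∈ Icc 0 ε := fun t =>
    ⟨mul_nonneg hε t.2.1, by nlinarith [t.2.2]⟩
  let P : Path (γ 0) (γ ε) :=
    { toFun := fun t => γ (ε * t)
      continuous_toFun := hc.comp_continuous (by fun_prop) hmem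
      source' := by simp
      target' := by simp }
  refine (iInf_le _ P).trans ?_
  have h1 : eVariationOn (fun t : unitInterval => x (P t)) Set.univ =
      eVariationOn ((fun s => x (γ s)) ∘ (fun t : unitInterval => ε * (t : ℝ))) Set.univ := rfl
  rw [h1]
  refine (hl.comp_eVariationOn_le (fun t _ => hmem t)).trans ?_
  rw [ENNReal.coe_one, one_mul]
  have hm : MonotoneOn (fun t : unitInterval => ε * (t : ℝ)) Set.univ := by
    intro a _ b _ hab
    exact mul_le_mul_of_nonneg_left hab hε
  have h2 := hm.eVariationOn_le (Set.mem_univ (0 : unitInterval)) (Set.mem_univ (1 : unitInterval))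
  have h3 : (Set.univ ∩ Icc (0 : unitInterval) 1) = Set.univ := by
    ext t
    simp only [Set.univ_inter, Set.mem_Icc, Set.mem_univ, iff_true]
    exact ⟨unitInterval.nonneg', unitInterval.le_one'⟩
  rw [h3] at h2
  simpa using h2

end

end BH

end
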