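import Pool.Agent.Work.MP_ac5cbe_gt.Theta

/-!
# Module Loc (summary of the local theory; size S)

All from `Theta`, `BihEq`, `SmoothF`.
-/

set_option autoImplicit false

open scoped RealInnerProductSpace Topology ContDiff
open Filter Set

noncomputable section

namespace BH

variable {m : ℕ} {x : EE m → EE (m + 1)} {U : Set (EE m)}

/-- somewhere near a point with `h ≠ 0` the gradient of `F` does not vanish: otherwise `NL x = 0` near
`y`, so `tg x (NL x) y = 0`, and `eqN`, `trA` give `0 = F * tr (A A) > 0` (`F > 0`). -/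
theorem exists_NL_ne (hx : Imm x U) (h0 : ∀ y ∈ U, hL x y ≠ 0) (hb : Bih x U) {y : EE m}
    (hy : y ∈ U) : ∃ z ∈ U, NL x z ≠ 0 := by
  by_contra hcon
  push Not at hcon
  have hp : Par x U := par_codim_one hx h0
  have hev : NL x =ᶠ[𝓝 y] fun _ => (0 : EE (m + 1)) :=
    Filter.eventually_of_mem (hx.isOpen.mem_nhds hy) hcon
  have hd : fderiv ℝ (NL x) y = 0 := by
    rw [hev.fderiv_eq]
    exact fderiv_const_apply _
  have ht : tg x (NL x) y = 0 := by
    unfold tg
    rw [hd, ContinuousLinearMap.zero_comp]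
  have h1 := eqN hx h0 hp hb hy
  rw [ht] at h1
  have h2 : tr (0 : EE (m + 1) →L[ℝ] EE (m + 1)) = 0 := by
    simp [tr]
  rw [h2] at h1
  have h3 := trA hx h0 hy
  have hF : 0 < FL x y := norm_pos_iff.mpr (h0 y hy)
  have h4 : FL x y * FL x y ^ 2 ≤ (m + 1) * (FL x y * tr ((AL x y).comp (AL x y))) := by
    calc FL x y * FL x y ^ 2 ≤ FL x y * ((m + 1) * tr ((AL x y).comp (AL x y))) :=
          mul_le_mul_of_nonneg_left h3 hF.le
      _ = _ := by ring
  rw [← h1, mul_zero] at h4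
  have h5 : 0 < FL x y * FL x y ^ 2 := by positivity
  linarith

theorem loc (hx : Imm x U) (h0 : ∀ y ∈ U, hL x y ≠ 0) (hb : Bih x U)
    (hN : ∀ y ∈ U, NL x y ≠ 0) {y : EE m} (hy : y ∈ U) :
    fderiv ℝ (FL x) y (eL x y) = PL x y ∧
    FL x y ^ 3 / (m + 1) - PL x y * thL x y ≤ fderiv ℝ (PL x) y (eL x y) ∧
    fderiv ℝ (thL x) y (eL x y) ≤ 3 / 4 * FL x y ^ 2 - thL x y ^ 2 / (m + 1) ∧
    ‖fderiv ℝ x y (eL x y)‖ = 1 := by
  have hm : (0 : ℝ) < (m : ℝ) + 1 := by positivity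
  have hF : 0 < FL x y := norm_pos_iff.mpr (h0 y hy)
  refine ⟨?_, ?_, ?_, ?_⟩
  · rw [fderiv_FL hx hy, TL_tan hx hy]
    conv_lhs => rw [NL_eq (hN y hy)]
    rw [real_inner_smul_left, real_inner_self_eq_norm_sq, norm_TL (hN y hy)]
    ring
  · have h1 := dP hx h0 hb hN hy
    have h2 := trA hx h0 hy
    have h3 : FL x y ^ 3 / (m + 1) ≤ FL x y * tr ((AL x y).comp (AL x y)) := by
      rw [div_le_iff₀ hm]
      calc FL x y ^ 3 = FL x y * FL x y ^ 2 := by ring
        _ ≤ FL x y * ((m + 1) * tr ((AL x y).comp (AL x y))) :=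
          mul_le_mul_of_nonneg_left h2 hF.le
        _ = _ := by ring
    linarith
  · have h1 := dth hx h0 hb hN hy
    have h2 := trS hx h0 hb hN hy
    have h3 : thL x y ^ 2 / (m + 1) ≤ tr ((SL x y).comp (SL x y)) := by
      rw [div_le_iff₀ hm]
      linarith
    linarith
  · rw [TL_tan hx hy, norm_TL (hN y hy)]

end BH

end
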