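import Pool.Agent.Work.MP_ac5cbe_gt.TgBasic

/-!
# Module Normal (`Δ x` is normal; size S-M)

`Π y := tg x x y = dx ∘ pinv (dx)` is the orthogonal projection on the tangent space: `Π Π = Π`, symmetric
(`proj_symm`).  `hL x y = ∑ a, (D_{J⁺ e_a} Π) e_a`, `J⁺ = pinv (dx)`.  Differentiating `Π Π = Π`:
`Π (D_u Π) (Π b) = 0`, so `Π (D_u Π) b = Π (D_u Π) (b - Π b)`.  Hence
`⟪hL x y, Π c⟫ = ∑ a, ⟪Π (D_{J⁺ (Π e_a)} Π) (e_a - Π e_a), c⟫`; for a bilinear `β`,
`∑ a, β (Π e_a) (e_a - Π e_a) = ∑ a b, ... = 0` because `Π` is symmetric: expand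
`Π e_a = ∑ b, ⟪Π e_a, e_b⟫ e_b` and move to the second argument:
`∑ a, β (Π e_a) (w e_a) = ∑ b, β e_b (w (Π e_b))`, with `w = 1 - Π`, `w Π = 0`.
(Here `J⁺ Π = J⁺`: `pinv_apply`.)
-/

set_option autoImplicit false

open scoped RealInnerProductSpace Topology ContDiff
open Filter Set

noncomputable section

namespace BH

variable {m n : ℕ} {x : EE m → EE n} {U : Set (EE m)}

theorem nrm_swap (β : EE n →L[ℝ] EE n →L[ℝ] ℝ) (P : EE n →L[ℝ] EE n)
    (hP : ∀ a b, ⟪P a, b⟫ = ⟪a, P b⟫) :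
    ∑ a : Fin n, β (P (bv a)) (bv a) = ∑ a : Fin n, β (bv a) (P (bv a)) := by
  have h1 : ∀ a : Fin n, β (P (bv a)) (bv a) = ∑ b : Fin n, ⟪P (bv a), bv b⟫ * β (bv b) (bv a) := by
    intro a
    conv_lhs => rw [← sum_bv (P (bv a))]
    simp only [map_sum, map_smul, sum_apply,
      smul_apply, smul_eq_mul]
  have h2 : ∀ a : Fin n, β (bv a) (P (bv a)) = ∑ b : Fin n, ⟪P (bv a), bv b⟫ * β (bv a) (bv b) := by
    intro a
    conv_lhs => rw [← sum_bv (P (bv a))]
    simp only [map_sum, map_smul, smul_eq_mul]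
  simp only [h1, h2]
  rw [Finset.sum_comm]
  apply Finset.sum_congr rfl
  intro a _
  apply Finset.sum_congr rfl
  intro b _
  rw [hP, real_inner_comm]

theorem hL_nor (hx : Imm x U) {y : EE m} (hy : y ∈ U) : Nor x y (hL x y) := by
  intro v
  have hU : ∀ᶠ z in 𝓝 y, z ∈ U := hx.isOpen.mem_nhds hy
  have hinj := hx.inj y hy
  set P : EE n →L[ℝ] EE n := tg x x y with hPd
  have hPap : ∀ b, P b = fderiv ℝ x y (pinv (fderiv ℝ x y) b) := fun b => rfl
  have hdP : DifferentiableAt ℝ (tg x x) y := (sm_tg hx hx.smooth y hy).differentiableAt (by simp)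
  have hsym : ∀ a b, ⟪P a, b⟫ = ⟪a, P b⟫ := fun a b => proj_symm hinj a b
  have hidem : ∀ z ∈ U, (tg x x z).comp (tg x x z) = tg x x z := by
    intro z hz
    ext1 b
    rw [ContinuousLinearMap.comp_apply]
    exact tg_proj hx hz x b
  have hJP : ∀ b, pinv (fderiv ℝ x y) (P b) = pinv (fderiv ℝ x y) b := by
    intro b
    rw [hPap, pinv_apply hinj]
  have hv : fderiv ℝ x y v = P (fderiv ℝ x y v) := by
    rw [hPap, pinv_apply hinj]
  have hder : ∀ u : EE m, P.comp ((fderiv ℝ (tg x x) y u).comp P) = 0 := by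
    intro u
    have e1 : HasFDerivAt (fun z => (tg x x z).comp (tg x x z)) _ y :=
      hdP.hasFDerivAt.clm_comp hdP.hasFDerivAt
    have e2 : (fun z => (tg x x z).comp (tg x x z)) =ᶠ[𝓝 y] (tg x x) := by
      filter_upwards [hU] with z hz
      exact hidem z hz
    have e3 := (e1.congr_of_eventuallyEq e2.symm).unique hdP.hasFDerivAt
    have e4 := DFunLike.congr_fun e3 u
    have e5 : P.comp (fderiv ℝ (tg x x) y u) + (fderiv ℝ (tg x x) y u).comp P =
        fderiv ℝ (tg x x) y u := e4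
    have e6 : ∀ b, P (fderiv ℝ (tg x x) y u (P b)) = 0 := by
      intro b
      have e7 := congrArg (fun A : EE n →L[ℝ] EE n => P (A b)) e5
      simp only [add_apply, ContinuousLinearMap.comp_apply, map_add] at e7
      have e8 : ∀ c, P (P c) = P c := fun c => by
        have := DFunLike.congr_fun (hidem y hy) c
        exact this
      rw [e8] at e7
      exact add_eq_left.mp e7
    ext1 b
    rw [ContinuousLinearMap.comp_apply, ContinuousLinearMap.comp_apply, e6]
    rfl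
  set c := fderiv ℝ x y v with hc
  -- the bilinear form
  let β : EE n →L[ℝ] EE n →L[ℝ] ℝ :=
    (ContinuousLinearMap.compL ℝ (EE n) (EE n) ℝ ((innerSL ℝ c).comp P)).comp
      ((fderiv ℝ (tg x x) y).comp (pinv (fderiv ℝ x y)))
  have hβ : ∀ b w, β b w = ⟪c, P (fderiv ℝ (tg x x) y (pinv (fderiv ℝ x y) b) w)⟫ := by
    intro b w
    simp [β]
  have hβP : ∀ b w, β b (P w) = 0 := by
    intro b w
    rw [hβ]
    have := DFunLike.congr_fun (hder (pinv (fderiv ℝ x y) b)) w
    simp only [ContinuousLinearMap.comp_apply] at this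
    rw [this]; simp
  have h1 : ⟪hL x y, c⟫ = ∑ a : Fin n, β (bv a) (bv a) := by
    unfold hL Lap
    rw [sum_inner]
    apply Finset.sum_congr rfl
    intro a _
    rw [hβ, ← hsym, ← hv, real_inner_comm]
    rfl
  rw [h1]
  have h2 : ∀ a : Fin n, β (bv a) (bv a) = β (P (bv a)) (bv a) := by
    intro a
    rw [hβ, hβ, hJP]
  simp only [h2]
  rw [nrm_swap β P hsym]
  simp only [hβP, Finset.sum_const_zero]

end BH

end
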