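import Pool.Agent.Work.MP_ac5cbe_gt.Defs

/-!
# Module Pinv (linear algebra of the pseudo-inverse; size M)

`L : EE m →L EE n` injective. `L† L` is then injective, hence invertible (`‖L v‖² = ⟪L† L v, v⟫`), so
`(L† L).inverse` is a two sided inverse.
* `pinv_apply`: `(L†L)⁻¹ L† L v = v`.
* `proj_symm`: `L (L†L)⁻¹ L†` is symmetric.
* `pinv_nor`: `L† b = 0` if `b` is orthogonal to the range.
* `proj_orth`: `L† (a - L (pinv L a)) = 0`.
* `proj_codim_one`: the orthogonal complement of the range has dimension one and contains the unit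
  vector `ν`; `a - L (pinv L a)` is in it and has the same inner product with `ν` as `a`.
* `pinv_equiv`: from uniqueness (`pinv` is characterised by `pinv L (L v) = v` and `pinv L b = 0` for `b`
  orthogonal to the range), or by computing.
* `contDiffAt_pinv`: `contDiffAt_map_inverse` / `ContinuousLinearMap.inverse`, adjoint is a continuous linear
  (isometric) map `L ↦ L†` over `ℝ` (`ContinuousLinearMap.adjoint`), composition is bilinear.
* traces: `tr_comm` expand `A (bv a) = ∑ b, ⟪A (bv a), bv b⟫ • bv b` (`sum_bv`), and exchange the sums.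
* `tr_sq`: for `A` symmetric, `⟪A (A e_a), e_a⟫ = ‖A e_a‖² ≥ ⟪A e_a, e_a⟫²`, and Cauchy-Schwarz for the sum.
-/

set_option autoImplicit false

open scoped RealInnerProductSpace Topology ContDiff
open Filter Set

noncomputable section

namespace BH

variable {m n : ℕ}

/-- the Gram map is a continuous linear equivalence -/
private theorem exists_gram {L : EE m →L[ℝ] EE n} (h : Function.Injective L) :
    ∃ e : EE m ≃L[ℝ] EE m, (e : EE m →L[ℝ] EE m) = (ContinuousLinearMap.adjoint L).comp L := by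
  have hinj : Function.Injective ((ContinuousLinearMap.adjoint L).comp L : EE m →ₗ[ℝ] EE m) := by
    rw [← LinearMap.ker_eq_bot, LinearMap.ker_eq_bot']
    intro v hv
    have hv' : ContinuousLinearMap.adjoint L (L v) = 0 := hv
    have h1 : ⟪L v, L v⟫ = 0 := by
      rw [← ContinuousLinearMap.adjoint_inner_left, hv', inner_zero_left]
    have h2 : L v = 0 := by simpa using h1
    exact h (by rw [h2, map_zero])
  refine ⟨(LinearEquiv.ofInjectiveEndo _ hinj).toContinuousLinearEquiv, ?_⟩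
  ext v
  simp

private theorem pinv_formula {L : EE m →L[ℝ] EE n} {e : EE m ≃L[ℝ] EE m}
    (he : (e : EE m →L[ℝ] EE m) = (ContinuousLinearMap.adjoint L).comp L) :
    pinv L = (e.symm : EE m →L[ℝ] EE m).comp (ContinuousLinearMap.adjoint L) := by
  unfold pinv
  rw [← he, ContinuousLinearMap.inverse_equiv]

theorem pinv_apply {L : EE m →L[ℝ] EE n} (h : Function.Injective L) (v : EE m) :
    pinv L (L v) = v := by
  obtain ⟨e, he⟩ := exists_gram h
  rw [pinv_formula he]
  have h1 : ContinuousLinearMap.adjoint L (L v) = e v := by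
    have := congrArg (fun K : EE m →L[ℝ] EE m => K v) he
    simpa using this.symm
  simp [h1]

theorem pinv_nor {L : EE m →L[ℝ] EE n} {b : EE n} (hb : ∀ v, ⟪b, L v⟫ = 0) : pinv L b = 0 := by
  have h1 : ContinuousLinearMap.adjoint L b = 0 := by
    apply ext_inner_right ℝ
    intro v
    rw [ContinuousLinearMap.adjoint_inner_left, hb, inner_zero_left]
  unfold pinv
  simp [h1]

theorem proj_orth {L : EE m →L[ℝ] EE n} (h : Function.Injective L) (a : EE n) (v : EE m) :
    ⟪a - L (pinv L a), L v⟫ = 0 := by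
  obtain ⟨e, he⟩ := exists_gram h
  have h1 : ∀ w, ContinuousLinearMap.adjoint L (L w) = e w := by
    intro w
    have := congrArg (fun K : EE m →L[ℝ] EE m => K w) he
    simpa using this.symm
  rw [← ContinuousLinearMap.adjoint_inner_left, map_sub, h1, pinv_formula he]
  simp

theorem proj_symm {L : EE m →L[ℝ] EE n} (h : Function.Injective L) (a b : EE n) :
    ⟪L (pinv L a), b⟫ = ⟪a, L (pinv L b)⟫ := by
  have h1 := proj_orth h a (pinv L b)
  have h2 := proj_orth h b (pinv L a)
  rw [inner_sub_left, sub_eq_zero] at h1 h2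
  rw [h1, real_inner_comm, h2]
  exact real_inner_comm _ _

/-- uniqueness -/
theorem pinv_unique {L : EE m →L[ℝ] EE n} (h : Function.Injective L) {R : EE n →L[ℝ] EE m}
    (h1 : ∀ v, R (L v) = v) (h2 : ∀ b, (∀ v, ⟪b, L v⟫ = 0) → R b = 0) : R = pinv L := by
  ext1 a
  have h3 : R (a - L (pinv L a)) = 0 := h2 _ (proj_orth h a)
  rw [map_sub, h1, sub_eq_zero] at h3
  exact h3

theorem proj_codim_one {L : EE m →L[ℝ] EE (m + 1)} (h : Function.Injective L) {ν : EE (m + 1)}
    (hν : ‖ν‖ = 1) (hn : ∀ v, ⟪ν, L v⟫ = 0) (a : EE (m + 1)) :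
    L (pinv L a) = a - ⟪ν, a⟫ • ν := by
  set R : Submodule ℝ (EE (m + 1)) := LinearMap.range (L : EE m →ₗ[ℝ] EE (m + 1)) with hR
  have hdim : Module.finrank ℝ R = m := by
    rw [hR, LinearMap.finrank_range_of_inj (by exact h)]
    simp
  have hdim2 : Module.finrank ℝ Rᗮ = 1 := by
    have h1 := Submodule.finrank_add_finrank_orthogonal R
    rw [hdim] at h1
    simp at h1
    omega
  have hνR : ν ∈ Rᗮ := by
    rw [Submodule.mem_orthogonal']
    rintro _ ⟨v, rfl⟩
    exact hn v
  have hν0 : ν ≠ 0 := by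
    intro h0
    rw [h0] at hν
    simp at hν
  have hw : a - L (pinv L a) ∈ Rᗮ := by
    rw [Submodule.mem_orthogonal']
    rintro _ ⟨v, rfl⟩
    exact proj_orth h a v
  have hν0' : (⟨ν, hνR⟩ : Rᗮ) ≠ 0 := by
    intro h0
    exact hν0 (congrArg Subtype.val h0)
  obtain ⟨c, hc⟩ := (finrank_eq_one_iff_of_nonzero' (⟨ν, hνR⟩ : Rᗮ) hν0').1 hdim2
    ⟨a - L (pinv L a), hw⟩
  have hc' : c • ν = a - L (pinv L a) := congrArg Subtype.val hc
  have hcv : c = ⟪ν, a⟫ := by
    have h1 : ⟪ν, c • ν⟫ = ⟪ν, a⟫ := by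
      rw [hc', inner_sub_right, hn, sub_zero]
    rw [inner_smul_right, real_inner_self_eq_norm_sq, hν] at h1
    simpa using h1
  rw [← hcv, hc']
  abel

theorem pinv_equiv {L : EE m →L[ℝ] EE n} (h : Function.Injective L) (ψ : EE m ≃L[ℝ] EE m) :
    pinv (L.comp (ψ : EE m →L[ℝ] EE m)) = (ψ.symm : EE m →L[ℝ] EE m).comp (pinv L) := by
  symm
  apply pinv_unique
  · exact h.comp ψ.injective
  · intro v
    simp [pinv_apply h]
  · intro b hb
    have : pinv L b = 0 := by
      apply pinv_nor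
      intro v
      have := hb (ψ.symm v)
      simpa using this
    simp [this]

theorem contDiffAt_pinv {L : EE m →L[ℝ] EE n} (h : Function.Injective L) :
    ContDiffAt ℝ ∞ (pinv : (EE m →L[ℝ] EE n) → (EE n →L[ℝ] EE m)) L := by
  obtain ⟨e, he⟩ := exists_gram h
  let adjL : (EE m →L[ℝ] EE n) →ₗ[ℝ] (EE n →L[ℝ] EE m) :=
    { toFun := fun K => ContinuousLinearMap.adjoint K
      map_add' := fun K K' => map_add _ _ _
      map_smul' := fun c K => by
        rw [LinearIsometryEquiv.map_smulₛₗ]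
        simp }
  have hadj : ContDiffAt ℝ ∞
      (fun K : EE m →L[ℝ] EE n => (ContinuousLinearMap.adjoint K : EE n →L[ℝ] EE m)) L := by
    have h0 := (LinearMap.toContinuousLinearMap adjL).contDiff (n := ∞)
    exact h0.contDiffAt (x := L)
  have hgram : ContDiffAt ℝ ∞
      (fun K : EE m →L[ℝ] EE n => (ContinuousLinearMap.adjoint K).comp K) L :=
    hadj.clm_comp contDiffAt_id
  have hinv : ContDiffAt ℝ ∞
      (ContinuousLinearMap.inverse : (EE m →L[ℝ] EE m) → (EE m →L[ℝ] EE m))
      ((ContinuousLinearMap.adjoint L).comp L) := by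
    rw [← he]
    exact contDiffAt_map_inverse e
  have h3 : ContDiffAt ℝ ∞ ((ContinuousLinearMap.inverse : (EE m →L[ℝ] EE m) → (EE m →L[ℝ] EE m)) ∘
      (fun K : EE m →L[ℝ] EE n => (ContinuousLinearMap.adjoint K).comp K)) L := by
    exact ContDiffAt.comp (f := fun K : EE m →L[ℝ] EE n => (ContinuousLinearMap.adjoint K).comp K)
      (g := (ContinuousLinearMap.inverse : (EE m →L[ℝ] EE m) → (EE m →L[ℝ] EE m))) L hinv hgram
  exact h3.clm_comp hadj

/-- injectivity is an open condition -/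
theorem injective_open {L : EE m →L[ℝ] EE n} (h : Function.Injective L) :
    ∀ᶠ K : EE m →L[ℝ] EE n in 𝓝 L, Function.Injective K :=
  (ContinuousLinearMap.isOpen_injective (𝕜 := ℝ) (E := EE m) (F := EE n)).mem_nhds h

private theorem inner_bv (a : EE n) (b : Fin n) : ⟪a, bv b⟫ = a b := by
  simp [bv, EuclideanSpace.inner_single_right]

theorem sum_bv (a : EE n) : ∑ b : Fin n, ⟪a, bv b⟫ • bv b = a := by
  have h := (EuclideanSpace.basisFun (Fin n) ℝ).sum_repr a
  simpa [inner_bv, bv] using h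

theorem tr_add (A B : EE n →L[ℝ] EE n) : tr (A + B) = tr A + tr B := by
  unfold tr
  rw [← Finset.sum_add_distrib]
  apply Finset.sum_congr rfl
  intro a _
  rw [add_apply, inner_add_left]

theorem tr_smul (c : ℝ) (A : EE n →L[ℝ] EE n) : tr (c • A) = c * tr A := by
  unfold tr
  rw [Finset.mul_sum]
  apply Finset.sum_congr rfl
  intro a _
  rw [smul_apply, inner_smul_left]
  simp

private theorem tr_comp (A B : EE n →L[ℝ] EE n) :
    tr (A.comp B) = ∑ a : Fin n, ∑ b : Fin n, ⟪B (bv a), bv b⟫ * ⟪A (bv b), bv a⟫ := by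
  unfold tr
  apply Finset.sum_congr rfl
  intro a _
  have h1 : A (B (bv a)) = ∑ b : Fin n, ⟪B (bv a), bv b⟫ • A (bv b) := by
    conv_lhs => rw [← sum_bv (B (bv a))]
    rw [map_sum]
    simp only [map_smul]
  rw [ContinuousLinearMap.comp_apply, h1, sum_inner]
  apply Finset.sum_congr rfl
  intro b _
  rw [inner_smul_left]
  simp

theorem tr_comm (A B : EE n →L[ℝ] EE n) : tr (A.comp B) = tr (B.comp A) := by
  rw [tr_comp, tr_comp, Finset.sum_comm]
  apply Finset.sum_congr rfl
  intro a _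
  apply Finset.sum_congr rfl
  intro b _
  ring

/-- `tr` as a continuous linear map -/
theorem exists_trL (n : ℕ) : ∃ f : (EE n →L[ℝ] EE n) →L[ℝ] ℝ, ∀ A, f A = tr A := by
  let g : (EE n →L[ℝ] EE n) →ₗ[ℝ] ℝ :=
    { toFun := tr
      map_add' := tr_add
      map_smul' := fun c A => by rw [tr_smul]; rfl }
  exact ⟨LinearMap.toContinuousLinearMap g, fun A => rfl⟩

/-- `tr (a ↦ ⟪b, a⟫ • c) = ⟪b, c⟫` -/
theorem tr_rank_one (b c : EE n) : tr ((innerSL ℝ b).smulRight c) = ⟪b, c⟫ := by
  unfold tr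
  conv_rhs => rw [← sum_bv c]
  rw [inner_sum]
  apply Finset.sum_congr rfl
  intro a _
  rw [ContinuousLinearMap.smulRight_apply, inner_smul_left, inner_smul_right]
  simp [mul_comm]

theorem tr_sq {A : EE n →L[ℝ] EE n} (h : ∀ a b, ⟪A a, b⟫ = ⟪a, A b⟫) :
    tr A ^ 2 ≤ n * tr (A.comp A) := by
  have h1 : ∀ a : Fin n, ⟪A (bv a), bv a⟫ ^ 2 ≤ ⟪A (A (bv a)), bv a⟫ := by
    intro a
    rw [h (A (bv a)) (bv a), real_inner_self_eq_norm_sq]
    have h2 := abs_real_inner_le_norm (A (bv a)) (bv a)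
    have h3 : ‖(bv a : EE n)‖ = 1 := by simp [bv]
    rw [h3, mul_one] at h2
    calc ⟪A (bv a), bv a⟫ ^ 2 = |⟪A (bv a), bv a⟫| ^ 2 := (sq_abs _).symm
      _ ≤ ‖A (bv a)‖ ^ 2 := pow_le_pow_left₀ (abs_nonneg _) h2 2
  have h4 := sq_sum_le_card_mul_sum_sq (s := Finset.univ)
    (f := fun a : Fin n => ⟪A (bv a), bv a⟫)
  unfold tr
  refine h4.trans ?_
  rw [Finset.card_univ, Fintype.card_fin]
  apply mul_le_mul_of_nonneg_left _ (Nat.cast_nonneg n)
  apply Finset.sum_le_sum
  intro a _
  exact h1 a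

end BH

end
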