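import Pool.Agent.Work.MP_ac5cbe_gt.SmoothF
import Pool.Agent.Work.MP_ac5cbe_gt.Aux29

/-!
# Module Shape (the shape operator; size M)

`A = - tg x ν`.  `Par`: `D_v ν` is tangential (orthogonal to all normal vectors).
* `A_nor`: `tg_nor`.  `A_tan`: `A a = - D_{J⁺ a} ν`, `Par`.
* `A_J`: `A (dx v) = - D_v ν` (`tg_J`).
* `A_symm`: for `a = dx u`, `b = dx v`: `⟪D_u ν, x_v⟫ = - ⟪ν, D²x (u, v)⟫` (differentiate `⟪ν, x_v⟫ = 0`),
  symmetric.  In general write `a = dx (pinv a) + normal`, use `A_nor`, `A_tan`.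
* `A_tr`: `hL x y = ∑ a, (D_{J⁺ e_a} Π) e_a` with `Π = tg x x = dx ∘ pinv dx` symmetric; `Π ν = 0` gives
  `(D_u Π) ν = - Π (D_u ν) = - D_u ν` (tangential); so `F = ⟪h, ν⟫ = ∑ a ⟪e_a, (D_{J⁺ e_a} Π) ν⟫
  = - ∑ a ⟪e_a, D_{J⁺ e_a} ν⟫ = tr A`.
* `A_cod`: `codazzi_tg` for `ν`.
* `dA_symm`: derivative of `A_symm`.
* `dA_nu`: derivative of `A ν = 0` (near `y`): `(D_u A) ν = - A (D_u ν) = A (A (dx u))`.
-/

set_option autoImplicit false

open scoped RealInnerProductSpace Topology ContDiff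
open Filter Set

noncomputable section

namespace BH

variable {m n : ℕ} {x : EE m → EE n} {U : Set (EE m)}

theorem A_nor {y : EE m} {b : EE n} (hb : Nor x y b) : AL x y b = 0 := by
  unfold AL
  rw [neg_apply, tg_nor _ hb, neg_zero]

theorem A_J (hx : Imm x U) {y : EE m} (hy : y ∈ U) (v : EE m) :
    AL x y (fderiv ℝ x y v) = - fderiv ℝ (nuL x) y v := by
  unfold AL
  rw [neg_apply, tg_J hx hy]

private theorem shape_A_apply (y : EE m) (a : EE n) :
    AL x y a = - fderiv ℝ (nuL x) y (pinv (fderiv ℝ x y) a) := rfl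

variable (hx : Imm x U) (h0 : ∀ y ∈ U, hL x y ≠ 0) (hp : Par x U)
include hx h0 hp

theorem A_tan {y : EE m} (hy : y ∈ U) {b : EE n} (hb : Nor x y b) (a : EE n) :
    ⟪b, AL x y a⟫ = 0 := by
  rw [shape_A_apply, inner_neg_right, hp y hy b hb, neg_zero]

private theorem shape_J {y : EE m} (hy : y ∈ U) (u v : EE m) :
    ⟪AL x y (fderiv ℝ x y u), fderiv ℝ x y v⟫ =
      ⟪nuL x y, fderiv ℝ (fun z => fderiv ℝ x z) y u v⟫ := by
  have hnu := (sm_nuL hx h0).dif hy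
  have hJ := (sm_J hx).dif hy
  have h1 := dcongr hx.isOpen (f := fun z => ⟪nuL x z, fderiv ℝ x z v⟫) (g := fun _ => (0 : ℝ))
    (fun z hz => nuL_nor hx hz v) hy u
  rw [dinner hnu (hJ.clm_apply (differentiableAt_const v)), dclm_const v hJ, dconst] at h1
  rw [A_J hx hy, inner_neg_left]
  linarith

private theorem shape_red {y : EE m} (hy : y ∈ U) (a b : EE n) :
    ⟪AL x y a, b⟫ = ⟪AL x y (fderiv ℝ x y (pinv (fderiv ℝ x y) a)),
      fderiv ℝ x y (pinv (fderiv ℝ x y) b)⟫ := by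
  have h1 := nor_rest hx hy a
  have h2 := nor_rest hx hy b
  have h3 : AL x y a = AL x y (fderiv ℝ x y (pinv (fderiv ℝ x y) a)) := by
    have := A_nor h1
    rwa [map_sub, sub_eq_zero] at this
  have h4 := A_tan hx h0 hp hy h2 a
  rw [real_inner_comm, inner_sub_right, sub_eq_zero] at h4
  rw [h4, h3]

theorem A_symm {y : EE m} (hy : y ∈ U) (a b : EE n) : ⟪AL x y a, b⟫ = ⟪a, AL x y b⟫ := by
  rw [shape_red hx h0 hp hy a b, real_inner_comm (AL x y b) a, shape_red hx h0 hp hy b a,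
    shape_J hx h0 hp hy, shape_J hx h0 hp hy, dd_symm hx.smooth hy]

private theorem shape_dPi {y : EE m} (hy : y ∈ U) (w : EE m) :
    fderiv ℝ (tg x x) y w (nuL x y) = - fderiv ℝ (nuL x) y w := by
  have hnu := (sm_nuL hx h0).dif hy
  have hP := (sm_tg hx hx.smooth).dif hy
  have h1 := dcongr hx.isOpen (f := fun z => tg x x z (nuL x z)) (g := fun _ => (0 : EE n))
    (fun z hz => tgx_nor (nuL_nor hx hz)) hy w
  rw [dclm hP hnu, dconst] at h1
  have h2 : tg x x y (fderiv ℝ (nuL x) y w) = fderiv ℝ (nuL x) y w := by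
    rw [tgx_apply]
    exact tan_proj hx hy (fun b hb => hp y hy b hb w)
  rw [h2] at h1
  exact (neg_eq_of_add_eq_zero_right h1).symm

theorem A_tr {y : EE m} (hy : y ∈ U) : tr (AL x y) = FL x y := by
  have h1 : FL x y = ⟪hL x y, nuL x y⟫ := by
    conv_rhs => rw [hL_eq (h0 y hy)]
    rw [real_inner_smul_left, real_inner_self_eq_norm_sq, norm_nuL (h0 y hy)]
    ring
  rw [h1]
  unfold tr hL Lap
  rw [sum_inner]
  apply Finset.sum_congr rfl
  intro a _
  have hS : ⟪fderiv ℝ (tg x x) y (pinv (fderiv ℝ x y) (bv a)) (bv a), nuL x y⟫ =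
      ⟪bv a, fderiv ℝ (tg x x) y (pinv (fderiv ℝ x y) (bv a)) (nuL x y)⟫ :=
    dsymm hx.isOpen (sm_tg hx hx.smooth) (fun z hz a b => tgx_symm hx hz a b) hy _ _ _
  rw [tg_apply, hS, shape_dPi hx h0 hp hy, ← shape_A_apply, real_inner_comm]

theorem A_cod {y : EE m} (hy : y ∈ U) (u v : EE m) :
    fderiv ℝ (AL x) y u (fderiv ℝ x y v) = fderiv ℝ (AL x) y v (fderiv ℝ x y u) := by
  have h1 : ∀ w : EE m, fderiv ℝ (AL x) y w = - fderiv ℝ (tg x (nuL x)) y w := by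
    intro w
    exact dneg (f := tg x (nuL x)) y w
  rw [h1, h1, neg_apply, neg_apply,
    codazzi_tg hx (sm_nuL hx h0) hy]

theorem dA_symm {y : EE m} (hy : y ∈ U) (u : EE m) (a b : EE n) :
    ⟪fderiv ℝ (AL x) y u a, b⟫ = ⟪a, fderiv ℝ (AL x) y u b⟫ := by
  exact dsymm hx.isOpen (sm_AL hx h0) (fun z hz a b => A_symm hx h0 hp hz a b) hy u a b

theorem dA_nu {y : EE m} (hy : y ∈ U) (u : EE m) :
    fderiv ℝ (AL x) y u (nuL x y) = AL x y (AL x y (fderiv ℝ x y u)) := by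
  have hnu := (sm_nuL hx h0).dif hy
  have hA := (sm_AL hx h0).dif hy
  have h1 := dcongr hx.isOpen (f := fun z => AL x z (nuL x z)) (g := fun _ => (0 : EE n))
    (fun z hz => A_nor (nuL_nor hx hz)) hy u
  rw [dclm hA hnu, dconst] at h1
  have h2 : fderiv ℝ (nuL x) y u = - AL x y (fderiv ℝ x y u) := by
    rw [A_J hx hy, neg_neg]
  rw [h2, map_neg] at h1
  exact (eq_of_sub_eq_zero (by rw [← h1]; abel))

end BH

end
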