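import Pool.Agent.Work.MP_ac5cbe_gt.Normal

/-!
# Module SmoothF (smoothness and first properties of F, ν, N, P, T; size S-M)

`‖·‖` is smooth off zero (`contDiffAt_norm`), `InnerProductSpace.toDual.symm` is a continuous linear
isometry, `tg` preserves smoothness (`sm_tg`).
* `inner_NL`: definition of `toDual.symm` (`InnerProductSpace.toDual_symm_apply`).
* `NL_nor`: `tg_nor`.
* `fderiv_FL`: `tg_J`.
* `NL_tan`: `b = dx (pinv dx b)` for `b = NL`: `b - dx (pinv dx b)` is normal (`proj_orth`), is orthogonal to `b` by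
  `NL_nor` and to `dx (..)`, so it is orthogonal to itself.
-/

set_option autoImplicit false

open scoped RealInnerProductSpace Topology ContDiff
open Filter Set

noncomputable section

namespace BH

variable {m n : ℕ} {x : EE m → EE n} {U : Set (EE m)}

theorem sm_hL (hx : Imm x U) : Sm (hL x) U := sm_Lap hx hx.smooth

theorem sm_FL (hx : Imm x U) (h0 : ∀ y ∈ U, hL x y ≠ 0) : Sm (FL x) U := fun y hy =>
  (sm_hL hx y hy).norm ℝ (h0 y hy)

theorem smf_FL_ne {y : EE m} (h0 : hL x y ≠ 0) : FL x y ≠ 0 := norm_ne_zero_iff.mpr h0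

theorem smf_PL_ne {y : EE m} (h0 : NL x y ≠ 0) : PL x y ≠ 0 := norm_ne_zero_iff.mpr h0

theorem sm_nuL (hx : Imm x U) (h0 : ∀ y ∈ U, hL x y ≠ 0) : Sm (nuL x) U := fun y hy =>
  ((sm_FL hx h0 y hy).inv (smf_FL_ne (h0 y hy))).smul (sm_hL hx y hy)

theorem sm_AL (hx : Imm x U) (h0 : ∀ y ∈ U, hL x y ≠ 0) : Sm (AL x) U := fun y hy =>
  (sm_tg hx (sm_nuL hx h0) y hy).neg

theorem sm_NL (hx : Imm x U) (h0 : ∀ y ∈ U, hL x y ≠ 0) : Sm (NL x) U := fun y hy =>
  (InnerProductSpace.toDual ℝ (EE n)).symm.toContinuousLinearEquiv.contDiff.contDiffAt.comp y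
    (sm_tg hx (sm_FL hx h0) y hy)

theorem sm_PL (hx : Imm x U) (h0 : ∀ y ∈ U, hL x y ≠ 0) (hN : ∀ y ∈ U, NL x y ≠ 0) :
    Sm (PL x) U := fun y hy =>
  (sm_NL hx h0 y hy).norm ℝ (hN y hy)

theorem sm_TL (hx : Imm x U) (h0 : ∀ y ∈ U, hL x y ≠ 0) (hN : ∀ y ∈ U, NL x y ≠ 0) :
    Sm (TL x) U := fun y hy =>
  ((sm_PL hx h0 hN y hy).inv (smf_PL_ne (hN y hy))).smul (sm_NL hx h0 y hy)

theorem sm_SL (hx : Imm x U) (h0 : ∀ y ∈ U, hL x y ≠ 0) (hN : ∀ y ∈ U, NL x y ≠ 0) :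
    Sm (SL x) U := sm_tg hx (sm_TL hx h0 hN)

theorem sm_thL (hx : Imm x U) (h0 : ∀ y ∈ U, hL x y ≠ 0) (hN : ∀ y ∈ U, NL x y ≠ 0) :
    Sm (thL x) U := fun y hy => by
  obtain ⟨f, hf⟩ := exists_trL n
  have : thL x = fun z => f (SL x z) := by
    funext z; rw [hf]; rfl
  rw [this]
  exact f.contDiff.contDiffAt.comp y (sm_SL hx h0 hN y hy)

theorem sm_eL (hx : Imm x U) (h0 : ∀ y ∈ U, hL x y ≠ 0) (hN : ∀ y ∈ U, NL x y ≠ 0) :
    Sm (eL x) U := fun y hy =>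
  (sm_pinv hx y hy).clm_apply (sm_TL hx h0 hN y hy)

theorem norm_nuL {y : EE m} (h0 : hL x y ≠ 0) : ‖nuL x y‖ = 1 := by
  have h1 : FL x y ≠ 0 := smf_FL_ne h0
  unfold nuL
  rw [norm_smul, norm_inv, Real.norm_eq_abs]
  have : |FL x y| = ‖hL x y‖ := by
    unfold FL; exact abs_of_nonneg (norm_nonneg _)
  rw [this]
  exact inv_mul_cancel₀ h1

theorem hL_eq {y : EE m} (h0 : hL x y ≠ 0) : hL x y = FL x y • nuL x y := by
  unfold nuL
  rw [smul_smul, mul_inv_cancel₀ (smf_FL_ne h0), one_smul]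

theorem nuL_nor (hx : Imm x U) {y : EE m} (hy : y ∈ U) : Nor x y (nuL x y) := by
  intro v
  unfold nuL
  rw [real_inner_smul_left, hL_nor hx hy v, mul_zero]

theorem inner_NL (y : EE m) (b : EE n) : ⟪NL x y, b⟫ = tg x (FL x) y b := by
  unfold NL
  rw [InnerProductSpace.toDual_symm_apply]

theorem NL_nor {y : EE m} {b : EE n} (hb : Nor x y b) : ⟪NL x y, b⟫ = 0 := by
  rw [inner_NL, tg_nor _ hb]

theorem fderiv_FL (hx : Imm x U) {y : EE m} (hy : y ∈ U) (v : EE m) :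
    fderiv ℝ (FL x) y v = ⟪NL x y, fderiv ℝ x y v⟫ := by
  rw [inner_NL, tg_J hx hy]

theorem NL_tan (hx : Imm x U) {y : EE m} (hy : y ∈ U) :
    fderiv ℝ x y (pinv (fderiv ℝ x y) (NL x y)) = NL x y := by
  set b := NL x y with hb
  have h1 : Nor x y (b - fderiv ℝ x y (pinv (fderiv ℝ x y) b)) := fun v =>
    proj_orth (hx.inj y hy) b v
  have h2 : ⟪b, b - fderiv ℝ x y (pinv (fderiv ℝ x y) b)⟫ = 0 := NL_nor h1
  have h3 : ⟪b - fderiv ℝ x y (pinv (fderiv ℝ x y) b), b - fderiv ℝ x y (pinv (fderiv ℝ x y) b)⟫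
      = 0 := by
    rw [inner_sub_left, h2, real_inner_comm, h1 _, sub_zero]
  have h4 := inner_self_eq_zero.mp h3
  exact (sub_eq_zero.mp h4).symm

theorem TL_tan (hx : Imm x U) {y : EE m} (hy : y ∈ U) : fderiv ℝ x y (eL x y) = TL x y := by
  unfold eL TL
  rw [map_smul, map_smul, NL_tan hx hy]

theorem TL_nor {y : EE m} {b : EE n} (hb : Nor x y b) : ⟪TL x y, b⟫ = 0 := by
  unfold TL
  rw [real_inner_smul_left, NL_nor hb, mul_zero]

theorem norm_TL {y : EE m} (hN : NL x y ≠ 0) : ‖TL x y‖ = 1 := by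
  have h1 : PL x y ≠ 0 := smf_PL_ne hN
  unfold TL
  rw [norm_smul, norm_inv, Real.norm_eq_abs]
  have : |PL x y| = ‖NL x y‖ := by
    unfold PL; exact abs_of_nonneg (norm_nonneg _)
  rw [this]
  exact inv_mul_cancel₀ h1

theorem NL_eq {y : EE m} (hN : NL x y ≠ 0) : NL x y = PL x y • TL x y := by
  unfold TL
  rw [smul_smul, mul_inv_cancel₀ (smf_PL_ne hN), one_smul]

/-- in codimension one `ν` is parallel: a normal `b` is a multiple of `ν` (`proj_codim_one` with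
`pinv_nor`), and `⟪ν, D ν⟫ = 0`. -/
theorem par_codim_one {x : EE m → EE (m + 1)} (hx : Imm x U) (h0 : ∀ y ∈ U, hL x y ≠ 0) :
    Par x U := by
  intro y hy b hb v
  have h1 := proj_codim_one (hx.inj y hy) (norm_nuL (h0 y hy)) (nuL_nor hx hy) b
  rw [pinv_nor hb, map_zero] at h1
  have h2 : b = ⟪nuL x y, b⟫ • nuL x y := (sub_eq_zero.mp h1.symm)
  rw [h2, real_inner_smul_left]
  have hd : DifferentiableAt ℝ (nuL x) y := (sm_nuL hx h0 y hy).differentiableAt (by simp)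
  have h3 : ⟪nuL x y, fderiv ℝ (nuL x) y v⟫ = 0 := by
    have e1 := (hd.hasFDerivAt.inner ℝ hd.hasFDerivAt)
    have e2 : (fun z => ⟪nuL x z, nuL x z⟫) =ᶠ[𝓝 y] (fun _ => (1 : ℝ)) := by
      filter_upwards [hx.isOpen.mem_nhds hy] with z hz
      rw [real_inner_self_eq_norm_sq, norm_nuL (h0 z hz), one_pow]
    have e3 := (e1.congr_of_eventuallyEq e2.symm).unique (hasFDerivAt_const (1 : ℝ) y)
    have e4 := DFunLike.congr_fun e3 v
    simp only [ContinuousLinearMap.comp_apply, ContinuousLinearMap.prod_apply,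
      fderivInnerCLM_apply, zero_apply] at e4
    rw [real_inner_comm (nuL x y)] at e4
    linarith
  rw [h3, mul_zero]

end BH

end
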