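import Mathlib

/-!
# MP_ac5cbe_gt : the definitions used in the statement

`M` is an `m`-manifold (charted on Euclidean `m`-space), `x : M → EuclideanSpace ℝ (Fin n)`.  All
definitions are those written out in the frozen statement.
-/

set_option autoImplicit false

noncomputable section

namespace Biharm

variable {n : ℕ} {M : Type} [TopologicalSpace M]

/-- `x` is a smooth immersion: smooth, and in the chart at each point `p` its derivative at `p` is
injective. -/
def IsImm (m : ℕ) [ChartedSpace (EuclideanSpace ℝ (Fin m)) M]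
    (x : M → EuclideanSpace ℝ (Fin n)) : Prop :=
  ContMDiff (modelWithCornersSelf ℝ (EuclideanSpace ℝ (Fin m)))
      (modelWithCornersSelf ℝ (EuclideanSpace ℝ (Fin n))) ((⊤ : ℕ∞) : WithTop ℕ∞) x ∧
    ∀ p : M, Function.Injective
      ⇑(fderiv ℝ (x ∘ (extChartAt (modelWithCornersSelf ℝ (EuclideanSpace ℝ (Fin m))) p).symm)
        (extChartAt (modelWithCornersSelf ℝ (EuclideanSpace ℝ (Fin m))) p p))

/-- the induced length distance: the infimum of the lengths of `x ∘ γ` over the paths `γ` from `p` to
`q`. -/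
def len (x : M → EuclideanSpace ℝ (Fin n)) (p q : M) : ENNReal :=
  ⨅ γ : Path p q, eVariationOn (fun t => x (γ t)) Set.univ

/-- the induced length distance is complete: every Cauchy sequence converges. -/
def IsCompleteLen (x : M → EuclideanSpace ℝ (Fin n)) : Prop :=
  ∀ s : ℕ → M,
    (∀ ε : ENNReal, 0 < ε → ∃ N : ℕ, ∀ a b : ℕ, N ≤ a → N ≤ b → len x (s a) (s b) < ε) →
    ∃ q : M, Filter.Tendsto s Filter.atTop (nhds q)

/-- the matrix of the induced metric in the chart at `p`, at the point `y` of the chart. -/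
def gram (m : ℕ) [ChartedSpace (EuclideanSpace ℝ (Fin m)) M] (x : M → EuclideanSpace ℝ (Fin n))
    (p : M) (y : EuclideanSpace ℝ (Fin m)) : Matrix (Fin m) (Fin m) ℝ :=
  Matrix.of fun i j =>
    @inner ℝ _ _
      (fderiv ℝ (x ∘ (extChartAt (modelWithCornersSelf ℝ (EuclideanSpace ℝ (Fin m))) p).symm) y
        (EuclideanSpace.single i (1 : ℝ)))
      (fderiv ℝ (x ∘ (extChartAt (modelWithCornersSelf ℝ (EuclideanSpace ℝ (Fin m))) p).symm) y
        (EuclideanSpace.single j (1 : ℝ)))

/-- the Laplace-Beltrami operator of the induced metric, `(det G)^(-1/2) ∂_i ((det G)^(1/2) G^(ij) ∂_j f)`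
at `p` in the chart at `p`, on vector valued functions `f`. -/
def lap (m : ℕ) [ChartedSpace (EuclideanSpace ℝ (Fin m)) M] (x f : M → EuclideanSpace ℝ (Fin n))
    (p : M) : EuclideanSpace ℝ (Fin n) :=
  (Real.sqrt (gram m x p (extChartAt (modelWithCornersSelf ℝ (EuclideanSpace ℝ (Fin m))) p p)).det)⁻¹ •
    ∑ i : Fin m,
      fderiv ℝ
        (fun y : EuclideanSpace ℝ (Fin m) => Real.sqrt (gram m x p y).det •
          ∑ j : Fin m, (gram m x p y)⁻¹ i j •
            fderiv ℝ (f ∘ (extChartAt (modelWithCornersSelf ℝ (EuclideanSpace ℝ (Fin m))) p).symm) y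
              (EuclideanSpace.single j (1 : ℝ)))
        (extChartAt (modelWithCornersSelf ℝ (EuclideanSpace ℝ (Fin m))) p p)
        (EuclideanSpace.single i (1 : ℝ))

end Biharm

end
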