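import Pool.Agent.Work.MP_ac5cbe_gt.Pinv

/-!
# Module TgBasic (calculus of the tangential derivative; size M)

* `tg_J`: `tg x f y (dx v) = df (pinv (dx) (dx v)) = df v` (`pinv_apply`).
* `sm_tg`: `ContDiffAt.fderiv_right`, composition with `contDiffAt_pinv`, `ContDiffAt.clm_comp`.
* `tg_congr`: `tg x f y` depends only on the germ of `f` at `y`.
* `codazzi`: differentiate `fderiv f z v = B z (fderiv x z v)` in the direction `u`:
  `D²f (u, v) = (D_u B)(dx v) + B (D²x (u, v))`; `D²f`, `D²x` are symmetric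
  (`ContDiffAt.isSymmSndFDerivAt`, or `second_derivative_symmetric`).
* `Imm.shrink`: smaller open subset.
-/

set_option autoImplicit false

open scoped RealInnerProductSpace Topology ContDiff
open Filter Set

noncomputable section

namespace BH

variable {m n : ℕ} {x : EE m → EE n} {U : Set (EE m)} {W : Type} [NormedAddCommGroup W] [NormedSpace ℝ W]

theorem Imm.shrink (hx : Imm x U) {V : Set (EE m)} (hV : IsOpen V) (h : V ⊆ U) : Imm x V :=
  ⟨hV, fun y hy => hx.smooth y (h hy), fun y hy => hx.inj y (h hy)⟩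

theorem sm_fderiv {f : EE m → W} (hf : Sm f U) : Sm (fun y => fderiv ℝ f y) U := fun y hy =>
  (hf y hy).fderiv_right (by simp)

theorem sm_pinv (hx : Imm x U) : Sm (fun y => pinv (fderiv ℝ x y)) U := fun y hy =>
  ContDiffAt.comp y (contDiffAt_pinv (hx.inj y hy)) (sm_fderiv hx.smooth y hy)

theorem sm_tg (hx : Imm x U) {f : EE m → W} (hf : Sm f U) : Sm (tg x f) U := fun y hy =>
  (sm_fderiv hf y hy).clm_comp (sm_pinv hx y hy)

theorem sm_Lap (hx : Imm x U) {f : EE m → W} (hf : Sm f U) : Sm (Lap x f) U := fun y hy => by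
  unfold Lap
  apply ContDiffAt.sum
  intro a _
  exact ((sm_tg hx (sm_tg hx hf) y hy).clm_apply contDiffAt_const).clm_apply contDiffAt_const

theorem tg_J (hx : Imm x U) {y : EE m} (hy : y ∈ U) (f : EE m → W) (v : EE m) :
    tg x f y (fderiv ℝ x y v) = fderiv ℝ f y v := by
  unfold tg
  rw [ContinuousLinearMap.comp_apply, pinv_apply (hx.inj y hy)]

theorem tg_nor {y : EE m} (f : EE m → W) {b : EE n} (hb : Nor x y b) : tg x f y b = 0 := by
  unfold tg
  rw [ContinuousLinearMap.comp_apply, pinv_nor hb, map_zero]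

/-- `tg x f y` only sees the tangential component -/
theorem tg_proj (hx : Imm x U) {y : EE m} (hy : y ∈ U) (f : EE m → W) (b : EE n) :
    tg x f y (fderiv ℝ x y (pinv (fderiv ℝ x y) b)) = tg x f y b := by
  rw [tg_J hx hy]
  rfl

theorem tg_congr {y : EE m} {f g : EE m → W} (h : ∀ᶠ z in 𝓝 y, f z = g z) :
    tg x f y = tg x g y := by
  unfold tg
  rw [Filter.EventuallyEq.fderiv_eq h]

theorem codazzi (hx : Imm x U) {f : EE m → W} {B : EE m → (EE n →L[ℝ] W)} (hf : Sm f U)
    (hB : Sm B U) (h : ∀ y ∈ U, ∀ v, fderiv ℝ f y v = B y (fderiv ℝ x y v)) {y : EE m} (hy : y ∈ U)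
    (u v : EE m) :
    fderiv ℝ B y u (fderiv ℝ x y v) = fderiv ℝ B y v (fderiv ℝ x y u) := by
  have hU : ∀ᶠ z in 𝓝 y, z ∈ U := hx.isOpen.mem_nhds hy
  have h2 : minSmoothness ℝ 2 ≤ (∞ : WithTop ℕ∞) := by
    rw [minSmoothness_of_isRCLikeNormedField]
    exact WithTop.coe_le_coe.mpr (le_top : (2 : ℕ∞) ≤ ⊤)
  have hsf : IsSymmSndFDerivAt ℝ f y := (hf y hy).isSymmSndFDerivAt h2
  have hsx : IsSymmSndFDerivAt ℝ x y := (hx.smooth y hy).isSymmSndFDerivAt h2
  have hdf : DifferentiableAt ℝ (fderiv ℝ f) y := (sm_fderiv hf y hy).differentiableAt (by simp)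
  have hdx : DifferentiableAt ℝ (fderiv ℝ x) y :=
    (sm_fderiv hx.smooth y hy).differentiableAt (by simp)
  have hdB : DifferentiableAt ℝ B y := (hB y hy).differentiableAt (by simp)
  have key : ∀ u v : EE m, fderiv ℝ (fderiv ℝ f) y u v =
      fderiv ℝ B y u (fderiv ℝ x y v) + B y (fderiv ℝ (fderiv ℝ x) y u v) := by
    intro u v
    have e1 : HasFDerivAt (fun z => fderiv ℝ f z v)
        ((fderiv ℝ (fderiv ℝ f) y).flip v) y := by
      have := hdf.hasFDerivAt.clm_apply (hasFDerivAt_const v y)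
      refine this.congr_fderiv ?_
      ext w; simp
    have e2 : HasFDerivAt (fun z => fderiv ℝ x z v)
        ((fderiv ℝ (fderiv ℝ x) y).flip v) y := by
      have := hdx.hasFDerivAt.clm_apply (hasFDerivAt_const v y)
      refine this.congr_fderiv ?_
      ext w; simp
    have e3 := hdB.hasFDerivAt.clm_apply e2
    have e4 : (fun z => fderiv ℝ f z v) =ᶠ[𝓝 y] (fun z => B z (fderiv ℝ x z v)) := by
      filter_upwards [hU] with z hz
      exact h z hz v
    have e5 := (e3.congr_of_eventuallyEq e4).unique e1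
    have e6 := DFunLike.congr_fun e5 u
    simp at e6
    rw [← e6]
    abel
  have h1 := key u v
  have h3 := key v u
  rw [hsf.eq u v, hsx.eq u v, h3] at h1
  exact (add_right_cancel h1).symm

/-- special case `B = tg x f` -/
theorem codazzi_tg (hx : Imm x U) {f : EE m → W} (hf : Sm f U) {y : EE m} (hy : y ∈ U)
    (u v : EE m) :
    fderiv ℝ (tg x f) y u (fderiv ℝ x y v) = fderiv ℝ (tg x f) y v (fderiv ℝ x y u) :=
  codazzi hx hf (sm_tg hx hf) (fun _ hz v => (tg_J hx hz f v).symm) hy u v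

end BH

end
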