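import Pool.Agent.Work.MP_ac5cbe_gt.ThetaA
import Pool.Agent.Work.MP_ac5cbe_gt.Aux29

/-!
# Module ThetaB (the Riccati equation for the divergence; size M)

`S = SL x y = tg x T`, `e = eL x y`, `dx e = T`, `κ = - F / 2`.  Derivative in direction `e` of any `f`
is `fderiv ℝ f y e = tg x f y T`.
`S` satisfies `(D_u S) x_v = (D_v S) x_u` (`codazzi_tg` for `T`).  So
`(D_e S) x_v = (D_v S) T = D_v (S T) - S (D_v T) = D_v (κ ν) - S S x_v = (D_v κ) ν - κ A x_v - S S x_v`
(`S_T` holds on `U`, `D_v ν = - A x_v`, `D_v T = S x_v`), and from `S ν = 0` near `y`: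
`(D_e S) ν = - S (D_e ν) = S A T = κ S T = κ² ν`.
Hence for all `b`: `(D_e S) b = (tg x κ b) ν - κ A b - S S b + ⟪ν, b⟫ κ² ν` (true for `b = x_v`
and for `b = ν`, since `A ν = 0`, `S ν = 0`, `tg x κ ν = 0`; every `b` is `dx (pinv dx b) + ⟪ν, b⟫ ν` by `proj_codim_one`).
Trace (`tr_rank_one`, `exists_trL`): `D_e θ = - κ F - tr (S S) + κ²`, and `- κ F + κ² = (3/4) F²`.
-/

set_option autoImplicit false

open scoped RealInnerProductSpace Topology ContDiff
open Filter Set

noncomputable section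

namespace BH

variable {m : ℕ} {x : EE m → EE (m + 1)} {U : Set (EE m)}

private theorem tb_dnu (hx : Imm x U) {y : EE m} (hy : y ∈ U) (v : EE m) :
    fderiv ℝ (nuL x) y v = - AL x y (fderiv ℝ x y v) := by
  rw [A_J hx hy, neg_neg]

/-- the identity for `D_e S` -/
private theorem tb_dS (hx : Imm x U) (h0 : ∀ y ∈ U, hL x y ≠ 0) (hb : Bih x U)
    (hN : ∀ y ∈ U, NL x y ≠ 0) {y : EE m} (hy : y ∈ U) (b : EE (m + 1)) :
    fderiv ℝ (SL x) y (eL x y) b = (tg x (fun z => -(FL x z) / 2) y b) • nuL x y -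
      (-(FL x y) / 2) • AL x y b - SL x y (SL x y b) +
        (⟪nuL x y, b⟫ * (-(FL x y) / 2) ^ 2) • nuL x y := by
  have hp := par_codim_one hx h0
  have hT := (sm_TL hx h0 hN).dif hy
  have hnu := (sm_nuL hx h0).dif hy
  have hS := (sm_SL hx h0 hN).dif hy
  have hF := (sm_FL hx h0).dif hy
  have hk : DifferentiableAt ℝ (fun z => -(FL x z) / 2) y := hF.fun_neg.mul_const (2 : ℝ)⁻¹
  have hnn : ⟪nuL x y, nuL x y⟫ = 1 := by
    rw [real_inner_self_eq_norm_sq, norm_nuL (h0 y hy), one_pow]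
  -- tangential vectors
  have htan : ∀ v, fderiv ℝ (SL x) y (eL x y) (fderiv ℝ x y v) =
      (fderiv ℝ (fun z => -(FL x z) / 2) y v) • nuL x y -
        (-(FL x y) / 2) • AL x y (fderiv ℝ x y v) - SL x y (SL x y (fderiv ℝ x y v)) := by
    intro v
    have h1 : fderiv ℝ (SL x) y (eL x y) (fderiv ℝ x y v) =
        fderiv ℝ (SL x) y v (TL x y) := by
      rw [← TL_tan hx hy]
      exact codazzi_tg hx (sm_TL hx h0 hN) hy _ _
    have h2 := dcongr hx.isOpen (f := fun z => SL x z (TL x z))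
      (g := fun z => (-(FL x z) / 2) • nuL x z) (fun z hz => S_T hx h0 hb hN hz) hy v
    rw [dclm hS hT, dsmul hk hnu, tb_dnu hx hy] at h2
    have h3 : fderiv ℝ (TL x) y v = SL x y (fderiv ℝ x y v) := by
      unfold SL
      rw [tg_J hx hy]
    rw [h3] at h2
    rw [h1]
    have h4 : fderiv ℝ (SL x) y v (TL x y) = (-FL x y / 2) • -(AL x y) (fderiv ℝ x y v) +
        (fderiv ℝ (fun z => -(FL x z) / 2) y v) • nuL x y -
          SL x y (SL x y (fderiv ℝ x y v)) := by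
      rw [← h2]
      abel
    rw [h4, smul_neg]
    abel
  -- the normal
  have hnor : fderiv ℝ (SL x) y (eL x y) (nuL x y) = ((-(FL x y) / 2) ^ 2) • nuL x y := by
    have h2 := dcongr hx.isOpen (f := fun z => SL x z (nuL x z))
      (g := fun _ => (0 : EE (m + 1))) (fun z hz => tg_nor _ (nuL_nor hx hz)) hy (eL x y)
    rw [dclm hS hnu, dconst, tb_dnu hx hy, TL_tan hx hy, A_T hx h0 hp hb hy, map_neg, map_smul,
      S_T hx h0 hb hN hy] at h2
    have h4 : fderiv ℝ (SL x) y (eL x y) (nuL x y) =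
        (-FL x y / 2) • (-FL x y / 2) • nuL x y := by
      rw [neg_add_eq_zero] at h2
      exact h2.symm
    rw [h4, smul_smul, pow_two]
  have hdec : b = fderiv ℝ x y (pinv (fderiv ℝ x y) b) + ⟪nuL x y, b⟫ • nuL x y := by
    rw [proj_codim_one (hx.inj y hy) (norm_nuL (h0 y hy)) (nuL_nor hx hy) b]
    abel
  set w := pinv (fderiv ℝ x y) b with hw
  set c := ⟪nuL x y, b⟫ with hc
  have hkn : tg x (fun z => -(FL x z) / 2) y b = fderiv ℝ (fun z => -(FL x z) / 2) y w := rfl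
  have hAb : AL x y b = AL x y (fderiv ℝ x y w) := by
    conv_lhs => rw [hdec]
    rw [map_add, map_smul, A_nor (nuL_nor hx hy), smul_zero, add_zero]
  have hSb : SL x y b = SL x y (fderiv ℝ x y w) := by
    conv_lhs => rw [hdec]
    rw [map_add, map_smul]
    have : SL x y (nuL x y) = 0 := tg_nor _ (nuL_nor hx hy)
    rw [this, smul_zero, add_zero]
  conv_lhs => rw [hdec]
  rw [map_add, map_smul, htan, hnor, hkn, hAb, hSb, smul_smul]

theorem dth (hx : Imm x U) (h0 : ∀ y ∈ U, hL x y ≠ 0) (hb : Bih x U)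
    (hN : ∀ y ∈ U, NL x y ≠ 0) {y : EE m} (hy : y ∈ U) : fderiv ℝ (thL x) y (eL x y) =
    3 / 4 * FL x y ^ 2 - tr ((SL x y).comp (SL x y)) := by
  have hp := par_codim_one hx h0
  have hS := (sm_SL hx h0 hN).dif hy
  obtain ⟨f, hf⟩ := exists_trL (m + 1)
  have h1 : fderiv ℝ (thL x) y (eL x y) = tr (fderiv ℝ (SL x) y (eL x y)) := by
    rw [dcongr hx.isOpen (f := thL x) (g := fun z => f (SL x z))
      (fun z hz => (hf _).symm) hy, dcomp_clm f hS, hf]
  rw [h1]
  unfold tr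
  have h2 : ∀ a : Fin (m + 1), ⟪fderiv ℝ (SL x) y (eL x y) (bv a), bv a⟫ =
      tg x (fun z => -(FL x z) / 2) y (⟪nuL x y, bv a⟫ • bv a) +
        (FL x y / 2) * ⟪AL x y (bv a), bv a⟫ -
          ⟪(SL x y).comp (SL x y) (bv a), bv a⟫ +
            (FL x y ^ 2 / 4) * (⟪nuL x y, bv a⟫ * ⟪bv a, nuL x y⟫) := by
    intro a
    rw [tb_dS hx h0 hb hN hy, inner_add_left, inner_sub_left, inner_sub_left,
      real_inner_smul_left, real_inner_smul_left, real_inner_smul_left, map_smul, smul_eq_mul,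
      real_inner_comm (nuL x y) (bv a), ContinuousLinearMap.comp_apply]
    ring
  rw [Finset.sum_congr rfl fun a _ => h2 a, Finset.sum_add_distrib, Finset.sum_sub_distrib,
    Finset.sum_add_distrib, ← map_sum, sum_bv, ← Finset.mul_sum, ← Finset.mul_sum,
    inner_bv_sum, tg_nor _ (nuL_nor hx hy), real_inner_self_eq_norm_sq, norm_nuL (h0 y hy)]
  have h3 : ∑ a : Fin (m + 1), ⟪AL x y (bv a), bv a⟫ = FL x y := A_tr hx h0 hp hy
  rw [h3]
  ring

end BH

end
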