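import Pool.Agent.Work.MP_ac5cbe_gt.ThetaA
import Pool.Agent.Work.MP_ac5cbe_gt.Aux29

/-!
# Module ThetaC (trace inequality; size M)

`S = SL x y = tg x T`, `e = eL x y`, `dx e = T`, `κ = - F / 2`.
`S₀ b = S b - ⟪T, b⟫ κ ν` is symmetric: on tangent vectors
`⟪S x_u, x_v⟫ = ⟪D_u T, x_v⟫ = P⁻¹ ⟪D_u N, x_v⟫ - P⁻² (D_u P) ⟪N, x_v⟫`;
`⟪D_u N, x_v⟫ = D² F (u, v) - ⟪N, D² x (u, v)⟫` is symmetric (differentiate `D_v F = ⟪N, x_v⟫`), and
`D_u P = ⟪D_u N, T⟫ = ⟪D_e N, x_u⟫ = ⟪(D_e P) T + P κ ν, x_u⟫ = (D_e P) ⟪T, x_u⟫` (`N = P T`, `D_e T = S T = κ ν`), so the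
second term is symmetric too.  `S₀ ν = 0`, and `⟪S₀ x_u, ν⟫ = ⟪D_u T, ν⟫ - ⟪T, x_u⟫ κ = ⟪T, A x_u⟫ - κ ⟪T, x_u⟫ = 0`
(differentiate `⟪T, ν⟫ = 0`; `A_symm`, `A_T`).  Every `b` is `dx (pinv dx b) + ⟪ν, b⟫ ν` (`proj_codim_one`).
`tr S₀ = θ` (`tr_rank_one`, `⟪T, ν⟫ = 0`) and `tr (S S) = tr (S₀ S₀)`: `S₀ T = 0`, `S₀ ν = 0`.  Now `tr_sq` for `S₀`.
-/

set_option autoImplicit false

open scoped RealInnerProductSpace Topology ContDiff
open Filter Set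

noncomputable section

namespace BH

variable {m : ℕ} {x : EE m → EE (m + 1)} {U : Set (EE m)}

private theorem tc_dnu (hx : Imm x U) {y : EE m} (hy : y ∈ U) (v : EE m) :
    fderiv ℝ (nuL x) y v = - AL x y (fderiv ℝ x y v) := by
  rw [A_J hx hy, neg_neg]

/-- `⟪D_u N, x_v⟫` is symmetric -/
private theorem tc_hess (hx : Imm x U) (h0 : ∀ y ∈ U, hL x y ≠ 0) {y : EE m} (hy : y ∈ U)
    (u v : EE m) : ⟪fderiv ℝ (NL x) y u, fderiv ℝ x y v⟫ =
      ⟪fderiv ℝ (NL x) y v, fderiv ℝ x y u⟫ := by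
  have hN := (sm_NL hx h0).dif hy
  have hJ := (sm_J hx).dif hy
  have hF' := (sm_fderiv (sm_FL hx h0)).dif hy
  have key : ∀ u v : EE m, fderiv ℝ (fun z => fderiv ℝ (FL x) z) y u v =
      ⟪NL x y, fderiv ℝ (fun z => fderiv ℝ x z) y u v⟫ +
        ⟪fderiv ℝ (NL x) y u, fderiv ℝ x y v⟫ := by
    intro u v
    have h1 := dcongr hx.isOpen (f := fun z => fderiv ℝ (FL x) z v)
      (g := fun z => ⟪NL x z, fderiv ℝ x z v⟫) (fun z hz => fderiv_FL hx hz v) hy u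
    rw [dclm_const v hF', dinner hN (hJ.clm_apply (differentiableAt_const v)),
      dclm_const v hJ] at h1
    exact h1
  have h1 := key u v
  have h2 := key v u
  rw [dd_symm (sm_FL hx h0) hy u v, dd_symm hx.smooth hy u v] at h1
  linarith

private theorem tc_dN (hx : Imm x U) (h0 : ∀ y ∈ U, hL x y ≠ 0)
    (hN : ∀ y ∈ U, NL x y ≠ 0) {y : EE m} (hy : y ∈ U) (u : EE m) :
    fderiv ℝ (NL x) y u = PL x y • fderiv ℝ (TL x) y u + (fderiv ℝ (PL x) y u) • TL x y := by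
  rw [dcongr hx.isOpen (f := NL x) (g := fun z => PL x z • TL x z)
    (fun z hz => NL_eq (hN z hz)) hy, dsmul ((sm_PL hx h0 hN).dif hy) ((sm_TL hx h0 hN).dif hy)]

private theorem tc_dTT (hx : Imm x U) (h0 : ∀ y ∈ U, hL x y ≠ 0)
    (hN : ∀ y ∈ U, NL x y ≠ 0) {y : EE m} (hy : y ∈ U) (v : EE m) :
    ⟪fderiv ℝ (TL x) y v, TL x y⟫ = 0 := by
  have hT := (sm_TL hx h0 hN).dif hy
  have h1 := dcongr hx.isOpen (f := fun z => ⟪TL x z, TL x z⟫) (g := fun _ => (1 : ℝ))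
    (fun z hz => by rw [real_inner_self_eq_norm_sq, norm_TL (hN z hz), one_pow]) hy v
  rw [dinner hT hT, dconst, real_inner_comm] at h1
  linarith

/-- `D_u P = (D_e P) ⟪T, x_u⟫` -/
private theorem tc_dP (hx : Imm x U) (h0 : ∀ y ∈ U, hL x y ≠ 0) (hb : Bih x U)
    (hN : ∀ y ∈ U, NL x y ≠ 0) {y : EE m} (hy : y ∈ U) (u : EE m) :
    fderiv ℝ (PL x) y u = fderiv ℝ (PL x) y (eL x y) * ⟪TL x y, fderiv ℝ x y u⟫ := by
  have h1 : fderiv ℝ (PL x) y u = ⟪fderiv ℝ (NL x) y u, TL x y⟫ := by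
    rw [tc_dN hx h0 hN hy, inner_add_left, real_inner_smul_left, real_inner_smul_left,
      tc_dTT hx h0 hN hy, real_inner_self_eq_norm_sq, norm_TL (hN y hy)]
    ring
  have h2 : ⟪fderiv ℝ (NL x) y u, TL x y⟫ = ⟪fderiv ℝ (NL x) y (eL x y), fderiv ℝ x y u⟫ := by
    conv_lhs => rw [← TL_tan hx hy]
    rw [tc_hess hx h0 hy]
  have h3 : fderiv ℝ (TL x) y (eL x y) = (-(FL x y) / 2) • nuL x y := S_T hx h0 hb hN hy
  rw [h1, h2, tc_dN hx h0 hN hy, h3, inner_add_left, real_inner_smul_left,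
    real_inner_smul_left, real_inner_smul_left, nuL_nor hx hy u]
  ring

/-- the symmetric part -/
private def tcS (x : EE m → EE (m + 1)) (y : EE m) : EE (m + 1) →L[ℝ] EE (m + 1) :=
  SL x y - (innerSL ℝ (TL x y)).smulRight ((-(FL x y) / 2) • nuL x y)

private theorem tcS_apply (y : EE m) (b : EE (m + 1)) :
    tcS x y b = SL x y b - ⟪TL x y, b⟫ • ((-(FL x y) / 2) • nuL x y) := rfl

private theorem tcS_nu (hx : Imm x U) {y : EE m} (hy : y ∈ U) : tcS x y (nuL x y) = 0 := by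
  rw [tcS_apply, TL_nor (nuL_nor hx hy), zero_smul, sub_zero]
  exact tg_nor _ (nuL_nor hx hy)

private theorem tcS_T (hx : Imm x U) (h0 : ∀ y ∈ U, hL x y ≠ 0) (hb : Bih x U)
    (hN : ∀ y ∈ U, NL x y ≠ 0) {y : EE m} (hy : y ∈ U) : tcS x y (TL x y) = 0 := by
  rw [tcS_apply, S_T hx h0 hb hN hy, real_inner_self_eq_norm_sq, norm_TL (hN y hy), one_pow,
    one_smul, sub_self]

private theorem tcS_inner_nu (hx : Imm x U) (h0 : ∀ y ∈ U, hL x y ≠ 0) (hb : Bih x U)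
    (hN : ∀ y ∈ U, NL x y ≠ 0) {y : EE m} (hy : y ∈ U) (u : EE m) :
    ⟪tcS x y (fderiv ℝ x y u), nuL x y⟫ = 0 := by
  have hp := par_codim_one hx h0
  have hT := (sm_TL hx h0 hN).dif hy
  have hnu := (sm_nuL hx h0).dif hy
  have h1 := dcongr hx.isOpen (f := fun z => ⟪TL x z, nuL x z⟫) (g := fun _ => (0 : ℝ))
    (fun z hz => TL_nor (nuL_nor hx hz)) hy u
  rw [dinner hT hnu, dconst, tc_dnu hx hy, inner_neg_right, ← A_symm hx h0 hp hy,
    A_T hx h0 hp hb hy, real_inner_smul_left] at h1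
  have h3 : SL x y (fderiv ℝ x y u) = fderiv ℝ (TL x) y u := by
    unfold SL
    rw [tg_J hx hy]
  rw [tcS_apply, inner_sub_left, real_inner_smul_left, real_inner_smul_left,
    real_inner_self_eq_norm_sq, norm_nuL (h0 y hy), h3]
  linarith

private theorem tcS_JJ (hx : Imm x U) (h0 : ∀ y ∈ U, hL x y ≠ 0) (hb : Bih x U)
    (hN : ∀ y ∈ U, NL x y ≠ 0) {y : EE m} (hy : y ∈ U) (u v : EE m) :
    ⟪tcS x y (fderiv ℝ x y u), fderiv ℝ x y v⟫ =
      ⟪tcS x y (fderiv ℝ x y v), fderiv ℝ x y u⟫ := by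
  have h3 : ∀ u, SL x y (fderiv ℝ x y u) = fderiv ℝ (TL x) y u := by
    intro u
    unfold SL
    rw [tg_J hx hy]
  have hPne : PL x y ≠ 0 := by
    unfold PL
    rw [norm_ne_zero_iff]
    exact hN y hy
  have key : ∀ u v : EE m, PL x y * ⟪tcS x y (fderiv ℝ x y u), fderiv ℝ x y v⟫ =
      ⟪fderiv ℝ (NL x) y u, fderiv ℝ x y v⟫ -
        fderiv ℝ (PL x) y (eL x y) * (⟪TL x y, fderiv ℝ x y u⟫ * ⟪TL x y, fderiv ℝ x y v⟫) := by
    intro u v
    rw [tcS_apply, inner_sub_left, real_inner_smul_left, real_inner_smul_left,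
      nuL_nor hx hy v, h3, tc_dN hx h0 hN hy, inner_add_left, real_inner_smul_left,
      real_inner_smul_left, tc_dP hx h0 hb hN hy u]
    ring
  have h4 := key u v
  have h5 := key v u
  rw [tc_hess hx h0 hy u v] at h4
  have h6 : PL x y * ⟪tcS x y (fderiv ℝ x y u), fderiv ℝ x y v⟫ =
      PL x y * ⟪tcS x y (fderiv ℝ x y v), fderiv ℝ x y u⟫ := by
    rw [h4, h5]
    ring
  exact mul_left_cancel₀ hPne h6

private theorem tcS_red (hx : Imm x U) (h0 : ∀ y ∈ U, hL x y ≠ 0) (hb : Bih x U)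
    (hN : ∀ y ∈ U, NL x y ≠ 0) {y : EE m} (hy : y ∈ U) (a b : EE (m + 1)) :
    ⟪tcS x y a, b⟫ = ⟪tcS x y (fderiv ℝ x y (pinv (fderiv ℝ x y) a)),
      fderiv ℝ x y (pinv (fderiv ℝ x y) b)⟫ := by
  have hdec : ∀ b : EE (m + 1),
      b = fderiv ℝ x y (pinv (fderiv ℝ x y) b) + ⟪nuL x y, b⟫ • nuL x y := by
    intro b
    rw [proj_codim_one (hx.inj y hy) (norm_nuL (h0 y hy)) (nuL_nor hx hy) b]
    abel
  have h1 : tcS x y a = tcS x y (fderiv ℝ x y (pinv (fderiv ℝ x y) a)) := by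
    conv_lhs => rw [hdec a]
    rw [map_add, map_smul, tcS_nu hx hy, smul_zero, add_zero]
  rw [h1]
  conv_lhs => rw [hdec b]
  rw [inner_add_right, real_inner_smul_right, tcS_inner_nu hx h0 hb hN hy, mul_zero, add_zero]

theorem trS (hx : Imm x U) (h0 : ∀ y ∈ U, hL x y ≠ 0) (hb : Bih x U)
    (hN : ∀ y ∈ U, NL x y ≠ 0) {y : EE m} (hy : y ∈ U) :
    thL x y ^ 2 ≤ (m + 1) * tr ((SL x y).comp (SL x y)) := by
  have hsym : ∀ a b, ⟪tcS x y a, b⟫ = ⟪a, tcS x y b⟫ := by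
    intro a b
    rw [real_inner_comm (tcS x y b) a, tcS_red hx h0 hb hN hy a b, tcS_red hx h0 hb hN hy b a,
      tcS_JJ hx h0 hb hN hy]
  have h1 := tr_sq hsym
  have hTnu : ⟪TL x y, nuL x y⟫ = 0 := TL_nor (nuL_nor hx hy)
  have h2 : tr (tcS x y) = thL x y := by
    have e : tcS x y = SL x y +
        (-1 : ℝ) • (innerSL ℝ (TL x y)).smulRight ((-(FL x y) / 2) • nuL x y) := by
      unfold tcS
      rw [neg_one_smul, sub_eq_add_neg]
    rw [e, tr_add, tr_smul, tr_rank_one, real_inner_smul_right, hTnu]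
    unfold thL
    ring
  have h3 : (SL x y).comp (SL x y) = (tcS x y).comp (tcS x y) := by
    ext1 b
    have e : ∀ b, SL x y b = tcS x y b + ⟪TL x y, b⟫ • ((-(FL x y) / 2) • nuL x y) := by
      intro b
      rw [tcS_apply]
      abel
    have hTS : ⟪TL x y, tcS x y b⟫ = 0 := by
      rw [← hsym, tcS_T hx h0 hb hN hy, inner_zero_left]
    have hSnu : SL x y (nuL x y) = 0 := tg_nor _ (nuL_nor hx hy)
    show SL x y (SL x y b) = tcS x y (tcS x y b)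
    rw [e b, map_add, map_smul, map_smul, hSnu, smul_zero, smul_zero, add_zero, e (tcS x y b),
      hTS, zero_smul, add_zero]
  rw [h3, ← h2]
  push_cast at h1
  exact h1

end BH

end
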