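import Pool.Agent.Work.MP_ac5cbe_gt.ThetaA
import Pool.Agent.Work.MP_ac5cbe_gt.ThetaB
import Pool.Agent.Work.MP_ac5cbe_gt.ThetaC

/-! # Theta: umbrella file, nothing to prove here -/
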