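import Pool.Agent.Work.MP_ac5cbe_gt.Vzero
import Pool.Agent.Work.MP_ac5cbe_gt.Aux29

/-!
# Module ThetaA (codimension one, first part; size M)

`S = SL x y = tg x T`, `e = eL x y`, `dx e = T`, `κ = - F / 2`.  Derivative in direction `e` of any `f`
is `fderiv ℝ f y e = tg x f y T`.
* `trA`: `tr_sq` for `A` with `A_tr`, `A_symm`.
* `S_T`: `S T` is normal (`Vzero`), so `S T = ⟪ν, S T⟫ ν` (codimension one: `proj_codim_one` and `pinv_nor`), and
  `⟪ν, D_e T⟫ = - ⟪D_e ν, T⟫ = ⟪A T, T⟫ = κ`.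
* `dP`: `N = P T`, so `tg x N b = (tg x P b) T + P S b`, `tr (tg x N) = tg x P T + P θ` (`tr_rank_one`); `eqN`.
-/

set_option autoImplicit false

open scoped RealInnerProductSpace Topology ContDiff
open Filter Set

noncomputable section

namespace BH

variable {m : ℕ} {x : EE m → EE (m + 1)} {U : Set (EE m)}

theorem trA (hx : Imm x U) (h0 : ∀ y ∈ U, hL x y ≠ 0) {y : EE m} (hy : y ∈ U) :
    FL x y ^ 2 ≤ (m + 1) * tr ((AL x y).comp (AL x y)) := by
  have hp := par_codim_one hx h0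
  have h1 := tr_sq (fun a b => A_symm hx h0 hp hy a b)
  rw [A_tr hx h0 hp hy] at h1
  push_cast at h1
  exact h1

private theorem ta_dnu (hx : Imm x U) {y : EE m} (hy : y ∈ U) (v : EE m) :
    fderiv ℝ (nuL x) y v = - AL x y (fderiv ℝ x y v) := by
  rw [A_J hx hy, neg_neg]

variable (hx : Imm x U) (h0 : ∀ y ∈ U, hL x y ≠ 0) (hb : Bih x U) (hN : ∀ y ∈ U, NL x y ≠ 0)
include hx h0 hb hN

theorem S_T {y : EE m} (hy : y ∈ U) : SL x y (TL x y) = (-(FL x y) / 2) • nuL x y := by
  have hp := par_codim_one hx h0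
  have hT := (sm_TL hx h0 hN).dif hy
  have hnu := (sm_nuL hx h0).dif hy
  have h1 := Vzero hx h0 hp hb hN hy
  have h2 := proj_codim_one (hx.inj y hy) (norm_nuL (h0 y hy)) (nuL_nor hx hy)
    (SL x y (TL x y))
  rw [pinv_nor h1, map_zero] at h2
  have h3 := dcongr hx.isOpen (f := fun z => ⟪nuL x z, TL x z⟫) (g := fun _ => (0 : ℝ))
    (fun z hz => by rw [real_inner_comm]; exact TL_nor (nuL_nor hx hz)) hy (eL x y)
  rw [dinner hnu hT, dconst, ta_dnu hx hy, TL_tan hx hy, A_T hx h0 hp hb hy,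
    inner_neg_left, real_inner_smul_left, real_inner_self_eq_norm_sq, norm_TL (hN y hy)] at h3
  have h4 : ⟪nuL x y, SL x y (TL x y)⟫ = -(FL x y) / 2 := by
    have h5 : SL x y (TL x y) = fderiv ℝ (TL x) y (eL x y) := rfl
    rw [h5]
    linarith
  rw [h4] at h2
  exact (sub_eq_zero.1 h2.symm)

theorem dP {y : EE m} (hy : y ∈ U) : fderiv ℝ (PL x) y (eL x y) + PL x y * thL x y =
    FL x y * tr ((AL x y).comp (AL x y)) := by
  have hp := par_codim_one hx h0
  have hT := (sm_TL hx h0 hN).dif hy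
  have hP := (sm_PL hx h0 hN).dif hy
  rw [← eqN hx h0 hp hb hy]
  have h1 : ∀ b, tg x (NL x) y b = PL x y • SL x y b + (tg x (PL x) y b) • TL x y := by
    intro b
    rw [tg_apply, dcongr hx.isOpen (f := NL x) (g := fun z => PL x z • TL x z)
      (fun z hz => NL_eq (hN z hz)) hy, dsmul hP hT]
    rfl
  have h2 : tr (tg x (NL x) y) = PL x y * thL x y + tg x (PL x) y (TL x y) := by
    unfold thL tr
    have h3 : TL x y = ∑ a : Fin (m + 1), ⟪TL x y, bv a⟫ • bv a := (sum_bv _).symm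
    conv_rhs => rw [h3, map_sum, Finset.mul_sum, ← Finset.sum_add_distrib]
    apply Finset.sum_congr rfl
    intro a _
    rw [h1, inner_add_left, real_inner_smul_left, real_inner_smul_left, map_smul, smul_eq_mul]
    ring
  rw [h2, add_comm]
  rfl

end BH

end
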