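import Pool.Agent.Work.MP_ac5cbe_gt.BihEq
import Pool.Agent.Work.MP_ac5cbe_gt.Aux29

/-!
# Module Vzero (the gradient lines are geodesics; size M)

Notation: `κ = - F / 2` (function on `U`), `e = eL x y` (so `dx e = T`), `A T = κ T` (`eqT`).
Differentiate `A T = κ T` (valid on `U`) in the direction `v` at `y`:
(1) `(D_v A) T + A (D_v T) = (D_v κ) T + κ D_v T`; `(D_v A) T = (D_e A) x_v` by `A_cod` (`T = dx e`).
Inner product with `T` (`⟪D_v T, T⟫ = 0`, `A` symmetric so `⟪A (D_v T), T⟫ = κ ⟪D_v T, T⟫ = 0`):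
`⟪(D_e A) x_v, T⟫ = D_v κ`.  By `dA_symm` and (1) with `v = e`:
`⟪x_v, (D_e κ) T + κ D_e T - A (D_e T)⟫ = D_v κ`.  As `D_v κ = - ⟪N, x_v⟫ / 2 = - P ⟪T, x_v⟫ / 2`,
`D_e κ = - P / 2`, we get `⟪x_v, κ D_e T - A (D_e T)⟫ = 0` for all `v`.
Put `V = dx (pinv dx (D_e T))`, the tangential part of `D_e T = SL x y (TL x y)` (a smooth function of
`y`).  `A (D_e T) = A V` (`A_nor`), so `κ V - A V` is tangential and orthogonal to all `x_v`:
(2) `A V = κ V` on `U`.  `⟪T, V⟫ = ⟪T, D_e T⟫ = 0`.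
Differentiate (2) in the direction `e` and take the inner product with `V`:
`⟪(D_e A) V, V⟫ = (D_e κ) ‖V‖²` (the other terms cancel by (2) and symmetry).
Let `w = pinv dx V`, `dx w = V`.  By (1) with `v = w`, inner product with `V`, and `(D_w A) T = (D_e A) V`:
`⟪(D_e A) V, V⟫ + ⟪D_w T, A V⟫ = (D_w κ) ⟪T, V⟫ + κ ⟪D_w T, V⟫`, so `⟪(D_e A) V, V⟫ = 0`.
Hence `(P / 2) ‖V‖² = 0`, `V = 0`.
-/

set_option autoImplicit false

open scoped RealInnerProductSpace Topology ContDiff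
open Filter Set

noncomputable section

namespace BH

variable {m n : ℕ} {x : EE m → EE n} {U : Set (EE m)}

theorem A_T (hx : Imm x U) (h0 : ∀ y ∈ U, hL x y ≠ 0) (hp : Par x U) (hb : Bih x U) {y : EE m}
    (hy : y ∈ U) : AL x y (TL x y) = (-(FL x y) / 2) • TL x y := by
  unfold TL
  rw [map_smul, eqT hx h0 hp hb hy, smul_smul, smul_smul, mul_comm]

private theorem vz_SLT (y : EE m) : SL x y (TL x y) = fderiv ℝ (TL x) y (eL x y) := rfl

private theorem vz_Api (hx : Imm x U) {y : EE m} (hy : y ∈ U) (b : EE n) :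
    AL x y (tg x x y b) = AL x y b := by
  have h1 := A_nor (nor_rest hx hy b)
  rw [map_sub, sub_eq_zero] at h1
  rw [tgx_apply, h1]

private theorem vz_inner_J (hx : Imm x U) {y : EE m} (hy : y ∈ U) (v : EE m) (b : EE n) :
    ⟪tg x x y b, fderiv ℝ x y v⟫ = ⟪b, fderiv ℝ x y v⟫ := by
  rw [tgx_symm hx hy, tgx_apply, pinv_apply (hx.inj y hy)]

private theorem vz_TT {y : EE m} (hN : NL x y ≠ 0) : ⟪TL x y, TL x y⟫ = 1 := by
  rw [real_inner_self_eq_norm_sq, norm_TL hN, one_pow]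

private theorem vz_dTT (hx : Imm x U) (h0 : ∀ y ∈ U, hL x y ≠ 0)
    (hN : ∀ y ∈ U, NL x y ≠ 0) {y : EE m} (hy : y ∈ U) (v : EE m) :
    ⟪fderiv ℝ (TL x) y v, TL x y⟫ = 0 := by
  have hT := (sm_TL hx h0 hN).dif hy
  have h1 := dcongr hx.isOpen (f := fun z => ⟪TL x z, TL x z⟫) (g := fun _ => (1 : ℝ))
    (fun z hz => vz_TT (hN z hz)) hy v
  rw [dinner hT hT, dconst, real_inner_comm] at h1
  linarith

private theorem vz_dk (hx : Imm x U) (h0 : ∀ y ∈ U, hL x y ≠ 0) {y : EE m} (hy : y ∈ U)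
    (v : EE m) :
    fderiv ℝ (fun z => -(FL x z) / 2) y v = -(1 / 2) * ⟪NL x y, fderiv ℝ x y v⟫ := by
  have hF := (sm_FL hx h0).dif hy
  have h1 : (fun z => -(FL x z) / 2) = fun z => (-(1 / 2 : ℝ)) * FL x z := by
    funext z
    ring
  rw [h1, dmul (differentiableAt_const _) hF, dconst, fderiv_FL hx hy]
  ring

private theorem vz_one (hx : Imm x U) (h0 : ∀ y ∈ U, hL x y ≠ 0) (hp : Par x U) (hb : Bih x U)
    (hN : ∀ y ∈ U, NL x y ≠ 0) {y : EE m} (hy : y ∈ U) (v : EE m) :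
    AL x y (fderiv ℝ (TL x) y v) + fderiv ℝ (AL x) y v (TL x y) =
      (-(FL x y) / 2) • fderiv ℝ (TL x) y v +
        (-(1 / 2) * ⟪NL x y, fderiv ℝ x y v⟫) • TL x y := by
  have hT := (sm_TL hx h0 hN).dif hy
  have hA := (sm_AL hx h0).dif hy
  have hF := (sm_FL hx h0).dif hy
  have hk : DifferentiableAt ℝ (fun z => -(FL x z) / 2) y := hF.fun_neg.mul_const (2 : ℝ)⁻¹
  have h1 := dcongr hx.isOpen (f := fun z => AL x z (TL x z))
    (g := fun z => (-(FL x z) / 2) • TL x z) (fun z hz => A_T hx h0 hp hb hz) hy v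
  rw [dclm hA hT, dsmul hk hT, vz_dk hx h0 hy] at h1
  exact h1

/-- `(D_v A) T = (D_e A) x_v` -/
private theorem vz_cod (hx : Imm x U) (h0 : ∀ y ∈ U, hL x y ≠ 0) (hp : Par x U)
    {y : EE m} (hy : y ∈ U) (v : EE m) :
    fderiv ℝ (AL x) y v (TL x y) = fderiv ℝ (AL x) y (eL x y) (fderiv ℝ x y v) := by
  conv_lhs => rw [← TL_tan hx hy]
  rw [A_cod hx h0 hp hy]

private theorem vz_two (hx : Imm x U) (h0 : ∀ y ∈ U, hL x y ≠ 0) (hp : Par x U) (hb : Bih x U)
    (hN : ∀ y ∈ U, NL x y ≠ 0) {y : EE m} (hy : y ∈ U) :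
    AL x y (tg x x y (SL x y (TL x y))) = (-(FL x y) / 2) • tg x x y (SL x y (TL x y)) := by
  have hNT : NL x y = PL x y • TL x y := NL_eq (hN y hy)
  have hTT := vz_TT (hN y hy)
  -- step (1a)
  have h1 : ∀ v, ⟪fderiv ℝ (AL x) y v (TL x y), TL x y⟫ =
      -(1 / 2) * ⟪NL x y, fderiv ℝ x y v⟫ := by
    intro v
    have h2 := congrArg (fun c => ⟪c, TL x y⟫) (vz_one hx h0 hp hb hN hy v)
    simp only [inner_add_left, real_inner_smul_left] at h2
    rw [A_symm hx h0 hp hy, A_T hx h0 hp hb hy, real_inner_smul_right,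
      vz_dTT hx h0 hN hy, hTT] at h2
    linarith
  -- step (1b)
  have h3 : ∀ v, ⟪fderiv ℝ x y v, (-(FL x y) / 2) • fderiv ℝ (TL x) y (eL x y) -
      AL x y (fderiv ℝ (TL x) y (eL x y))⟫ = 0 := by
    intro v
    have h4 := h1 v
    rw [vz_cod hx h0 hp hy, dA_symm hx h0 hp hy] at h4
    have h5 := vz_one hx h0 hp hb hN hy (eL x y)
    have h6 : fderiv ℝ (AL x) y (eL x y) (TL x y) =
        (-(FL x y) / 2) • fderiv ℝ (TL x) y (eL x y) +
          (-(1 / 2) * ⟪NL x y, fderiv ℝ x y (eL x y)⟫) • TL x y -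
            AL x y (fderiv ℝ (TL x) y (eL x y)) := by
      rw [← h5]
      abel
    rw [h6, TL_tan hx hy] at h4
    have h7 : ⟪NL x y, TL x y⟫ = PL x y := by
      rw [hNT, real_inner_smul_left, hTT, mul_one]
    rw [h7] at h4
    rw [inner_sub_right, inner_add_right, real_inner_smul_right, real_inner_smul_right] at h4
    rw [inner_sub_right, real_inner_smul_right]
    have h8 : ⟪NL x y, fderiv ℝ x y v⟫ = PL x y * ⟪fderiv ℝ x y v, TL x y⟫ := by
      rw [hNT, real_inner_smul_left, real_inner_comm]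
    rw [h8] at h4
    linarith
  apply tan_ext (x := x) (y := y)
  · intro b hb'
    exact A_tan hx h0 hp hy hb' _
  · intro b hb'
    rw [real_inner_smul_right, tgx_apply, hb', mul_zero]
  · intro v
    rw [vz_Api hx hy, real_inner_smul_left, vz_inner_J hx hy]
    have h4 := h3 v
    rw [inner_sub_right, real_inner_smul_right, ← vz_SLT] at h4
    rw [real_inner_comm (AL x y (SL x y (TL x y))), real_inner_comm (SL x y (TL x y))] at h4
    linarith

/-- `∇_T T = 0`: the derivative of `T` in the direction `T` is normal. -/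
theorem Vzero (hx : Imm x U) (h0 : ∀ y ∈ U, hL x y ≠ 0) (hp : Par x U) (hb : Bih x U)
    (hN : ∀ y ∈ U, NL x y ≠ 0) {y : EE m} (hy : y ∈ U) : Nor x y (SL x y (TL x y)) := by
  have hNT : NL x y = PL x y • TL x y := NL_eq (hN y hy)
  have hTT := vz_TT (hN y hy)
  have hT := (sm_TL hx h0 hN).dif hy
  have hA := (sm_AL hx h0).dif hy
  have hF := (sm_FL hx h0).dif hy
  have hS := (sm_SL hx h0 hN).dif hy
  have hP := (sm_tg hx hx.smooth).dif hy
  have hk : DifferentiableAt ℝ (fun z => -(FL x z) / 2) y := hF.fun_neg.mul_const (2 : ℝ)⁻¹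
  set V : EE m → EE n := fun z => tg x x z (SL x z (TL x z)) with hVdef
  have hV : DifferentiableAt ℝ V y := hP.clm_apply (hS.clm_apply hT)
  have hAV : ∀ z ∈ U, AL x z (V z) = (-(FL x z) / 2) • V z := fun z hz =>
    vz_two hx h0 hp hb hN hz
  -- ⟪T, V⟫ = 0
  have hTV : ⟪TL x y, V y⟫ = 0 := by
    have h1 : tg x x y (TL x y) = TL x y := by
      rw [tgx_apply]
      exact TL_tan hx hy
    rw [hVdef, ← tgx_symm hx hy, h1, real_inner_comm]
    exact vz_dTT hx h0 hN hy _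
  -- step (3)
  have h3 := dcongr hx.isOpen (f := fun z => AL x z (V z)) (g := fun z => (-(FL x z) / 2) • V z)
    hAV hy (eL x y)
  rw [dclm hA hV, dsmul hk hV, vz_dk hx h0 hy, TL_tan hx hy] at h3
  have h7 : ⟪NL x y, TL x y⟫ = PL x y := by
    rw [hNT, real_inner_smul_left, hTT, mul_one]
  rw [h7] at h3
  have h4 := congrArg (fun c => ⟪c, V y⟫) h3
  simp only [inner_add_left, real_inner_smul_left] at h4
  rw [A_symm hx h0 hp hy, hAV y hy, real_inner_smul_right] at h4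
  -- step (4)
  have hVt : fderiv ℝ x y (pinv (fderiv ℝ x y) (V y)) = V y := by
    have := tgx_idem hx hy (SL x y (TL x y))
    exact this
  have h5 := congrArg (fun c => ⟪c, V y⟫)
    (vz_one hx h0 hp hb hN hy (pinv (fderiv ℝ x y) (V y)))
  simp only [inner_add_left, real_inner_smul_left] at h5
  rw [A_symm hx h0 hp hy, hAV y hy, real_inner_smul_right, hTV,
    vz_cod hx h0 hp hy, hVt] at h5
  have h6 : PL x y * ⟪V y, V y⟫ = 0 := by linarith
  have hPne : PL x y ≠ 0 := by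
    unfold PL
    rw [norm_ne_zero_iff]
    exact hN y hy
  have h8 : V y = 0 := by
    rcases mul_eq_zero.1 h6 with h | h
    · exact absurd h hPne
    · rwa [inner_self_eq_zero] at h
  intro v
  rw [← vz_inner_J hx hy]
  show ⟪V y, fderiv ℝ x y v⟫ = 0
  rw [h8, inner_zero_left]

end BH

end
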